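import Mathlib

/-!
# Circumscribed Boolean DL-Lite
-/

namespace Pool.Agent.Lib.MP_9ab704_lc

/-! ### Syntax.  Concept names, role names and individual names are natural numbers. -/

/-- Roles `R ::= P | P⁻`. -/
inductive Role
  | name (p : ℕ)
  | inv (p : ℕ)

/-- Concepts built from the basic concepts `⊥`, `A`, `∃R` with `¬` and `⊓`. -/
inductive Concept
  | bot
  | atom (A : ℕ)
  | ex (R : Role)
  | neg (C : Concept)
  | and (C D : Concept)

/-- TBox axioms: concept inclusions `C ⊑ D`, functionality assertions `func(R)` and role
inclusions `R ⊑ S`. -/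
inductive TAxiom
  | sub (C D : Concept)
  | func (R : Role)
  | roleSub (R S : Role)

/-- ABox assertions `A(a)` and `P(a,b)`. -/
inductive Assertion
  | con (A a : ℕ)
  | rol (P a b : ℕ)

/-- Predicates: concept names and role names. -/
inductive Pred
  | con (A : ℕ)
  | rol (P : ℕ)

/-- An input of the satisfiability problem: a concept, a knowledge base and a circumscription
pattern.  The pattern is given by the finite lists of minimized and of fixed predicates (all other
predicates are varying) and by the list `prec` of pairs `(q, p)` with `q ≺ p`. -/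
structure Input where
  query : Concept
  tbox : List TAxiom
  abox : List Assertion
  minimized : List Pred
  fixed : List Pred
  prec : List (Pred × Pred)

/-- The pattern is well formed: no predicate is both minimized and fixed, and `≺` is a strict
partial order on the minimized predicates. -/
def Input.WellFormed (x : Input) : Prop :=
  (∀ p ∈ x.minimized, p ∉ x.fixed) ∧
  (∀ q p, (q, p) ∈ x.prec → q ∈ x.minimized ∧ p ∈ x.minimized) ∧
  (∀ p, (p, p) ∉ x.prec) ∧
  (∀ r q p, (r, q) ∈ x.prec → (q, p) ∈ x.prec → (r, p) ∈ x.prec)

/-- The TBox is a TBox of the logic with functionality assertions and no role inclusions. -/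
def Input.InF (x : Input) : Prop := ∀ R S, TAxiom.roleSub R S ∉ x.tbox

/-- The TBox is a TBox of the logic with role inclusions and no functionality assertions. -/
def Input.InR (x : Input) : Prop := ∀ R, TAxiom.func R ∉ x.tbox

/-! ### Semantics -/

/-- Interpretations with domain `Δ`. -/
structure Interp (Δ : Type) where
  ind : ℕ → Δ
  con : ℕ → Set Δ
  rol : ℕ → Set (Δ × Δ)

variable {Δ : Type}

/-- Extension of a role. -/
def Role.sem (I : Interp Δ) : Role → Set (Δ × Δ)
  | name p => I.rol p
  | inv p => {x | (x.2, x.1) ∈ I.rol p}

/-- Extension of a concept. -/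
def Concept.sem (I : Interp Δ) : Concept → Set Δ
  | bot => ∅
  | atom A => I.con A
  | ex R => {d | ∃ e, (d, e) ∈ R.sem I}
  | neg C => (C.sem I)ᶜ
  | and C D => C.sem I ∩ D.sem I

/-- Truth of a TBox axiom. -/
def TAxiom.Holds (I : Interp Δ) : TAxiom → Prop
  | sub C D => C.sem I ⊆ D.sem I
  | func R => ∀ d e e', (d, e) ∈ R.sem I → (d, e') ∈ R.sem I → e = e'
  | roleSub R S => R.sem I ⊆ S.sem I

/-- Truth of an assertion. -/
def Assertion.Holds (I : Interp Δ) : Assertion → Prop
  | con A a => I.ind a ∈ I.con A
  | rol P a b => (I.ind a, I.ind b) ∈ I.rol P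

/-- Individual names occurring in an assertion. -/
def Assertion.inds : Assertion → Set ℕ
  | con _ a => {a}
  | rol _ a b => {a, b}

/-- `I` is a model of the knowledge base of `x`, under the unique name assumption. -/
def Input.Model (x : Input) (I : Interp Δ) : Prop :=
  (∀ α ∈ x.tbox, α.Holds I) ∧ (∀ α ∈ x.abox, α.Holds I) ∧
  Set.InjOn I.ind {a | ∃ α ∈ x.abox, a ∈ α.inds}

/-- `p^I ⊆ p^J`. -/
def Pred.Le (I J : Interp Δ) : Pred → Prop
  | con A => I.con A ⊆ J.con A
  | rol P => I.rol P ⊆ J.rol P

/-- `p^I = p^J`. -/
def Pred.Same (I J : Interp Δ) : Pred → Prop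
  | con A => I.con A = J.con A
  | rol P => I.rol P = J.rol P

/-- `I <_CP J` for the circumscription pattern of `x`. -/
def Input.Less (x : Input) (I J : Interp Δ) : Prop :=
  I.ind = J.ind ∧
  (∀ p ∈ x.fixed, p.Same I J) ∧
  (∀ p ∈ x.minimized, ¬ p.Le I J → ∃ q ∈ x.minimized, (q, p) ∈ x.prec ∧ q.Le I J ∧ ¬ q.Same I J) ∧
  (∃ p ∈ x.minimized, (p.Le I J ∧ ¬ p.Same I J) ∧ ∀ q, (q, p) ∈ x.prec → q.Same I J)

/-- `I` is a model of the circumscribed knowledge base. -/
def Input.CircModel (x : Input) (I : Interp Δ) : Prop :=
  x.Model I ∧ ∀ J : Interp Δ, x.Model J → ¬ x.Less J I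

/-- The query concept of `x` is satisfiable relative to the circumscribed knowledge base. -/
def Input.Satisfiable (x : Input) : Prop :=
  ∃ (Δ : Type) (I : Interp Δ), x.CircModel I ∧ (x.query.sem I).Nonempty

/-! ### Goedel numbers of inputs -/

/-- Goedel number of a role. -/
def Role.code : Role → ℕ
  | name p => 2 * p
  | inv p => 2 * p + 1

/-- Goedel number of a concept. -/
def Concept.code : Concept → ℕ
  | bot => 0
  | atom A => 4 * A + 1
  | ex R => 4 * R.code + 2
  | neg C => 4 * C.code + 3
  | and C D => 4 * Nat.pair C.code D.code + 4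

/-- Goedel number of a TBox axiom. -/
def TAxiom.code : TAxiom → ℕ
  | sub C D => 3 * Nat.pair C.code D.code
  | func R => 3 * R.code + 1
  | roleSub R S => 3 * Nat.pair R.code S.code + 2

/-- Goedel number of an assertion. -/
def Assertion.code : Assertion → ℕ
  | con A a => 2 * Nat.pair A a
  | rol P a b => 2 * Nat.pair P (Nat.pair a b) + 1

/-- Goedel number of a predicate. -/
def Pred.code : Pred → ℕ
  | con A => 2 * A
  | rol P => 2 * P + 1

/-- Goedel number of an input; `Encodable.encode` is the standard coding of lists of numbers. -/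
def Input.code (x : Input) : ℕ :=
  Nat.pair x.query.code <| Nat.pair (Encodable.encode (x.tbox.map TAxiom.code)) <|
    Nat.pair (Encodable.encode (x.abox.map Assertion.code)) <|
    Nat.pair (Encodable.encode (x.minimized.map Pred.code)) <|
    Nat.pair (Encodable.encode (x.fixed.map Pred.code))
      (Encodable.encode (x.prec.map fun e => Nat.pair e.1.code e.2.code))

/-- Concept satisfiability relative to circumscribed knowledge bases is decidable for the inputs in
the class `K`: some computable function, applied to the Goedel number of any well-formed input in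
`K`, tells whether that input is satisfiable. -/
def SatDecidable (K : Input → Prop) : Prop :=
  ∃ f : ℕ → Bool, Computable f ∧
    ∀ x : Input, x.WellFormed → K x → (f x.code = true ↔ x.Satisfiable)

/-- Decidability in data complexity: the query, the TBox and the pattern are those of the fixed
input `x`, and only the ABox varies. -/
def Input.DataDecidable (x : Input) : Prop :=
  ∃ f : ℕ → Bool, Computable f ∧ ∀ A : List Assertion,
    (f (Encodable.encode (A.map Assertion.code)) = true ↔
      ({x with abox := A} : Input).Satisfiable)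

end Pool.Agent.Lib.MP_9ab704_lc
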