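import Pool.Agent.Lib.MP_9ab704_lc.Defs
import Pool.Agent.Lib.MP_8d6ead_lc.StkPrim
import Pool.Agent.Lib.MP_8d6ead_lc.Comp

/-!
# General lemmas: derived concept constructors, simulation of a rule system
-/

namespace Pool.Agent.Lib.MP_9ab704_lc

open Turing PartrecToTM2 Relation
open Pool.Agent.Lib.MP_8d6ead_lc (Stk Op psh Step Reach stk0 syms mem_syms ik ia stks mem_stks prs
  mem_prs psh_injective psh_comm trNat_even trNat_odd)

variable {Δ : Type}

namespace Concept

/-- `⊤` -/
def top : Concept := neg bot

/-- `C ⊔ D` -/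
def or (C D : Concept) : Concept := neg (and (neg C) (neg D))

/-- finite disjunction -/
def orL (l : List Concept) : Concept := l.foldr or bot

/-- finite conjunction -/
def andL (l : List Concept) : Concept := l.foldr and top

@[simp] theorem mem_bot {I : Interp Δ} {x : Δ} : x ∈ bot.sem I ↔ False := Iff.rfl

@[simp] theorem mem_top {I : Interp Δ} {x : Δ} : x ∈ top.sem I ↔ True := by
  simp [top, sem]

@[simp] theorem mem_atom {I : Interp Δ} {x : Δ} {A : ℕ} : x ∈ (atom A).sem I ↔ x ∈ I.con A :=
  Iff.rfl

@[simp] theorem mem_neg {I : Interp Δ} {x : Δ} {C : Concept} : x ∈ (neg C).sem I ↔ ¬ x ∈ C.sem I :=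
  Iff.rfl

@[simp] theorem mem_and {I : Interp Δ} {x : Δ} {C D : Concept} :
    x ∈ (and C D).sem I ↔ x ∈ C.sem I ∧ x ∈ D.sem I := Iff.rfl

@[simp] theorem mem_or {I : Interp Δ} {x : Δ} {C D : Concept} :
    x ∈ (or C D).sem I ↔ x ∈ C.sem I ∨ x ∈ D.sem I := by
  simp only [or, mem_neg, mem_and]; tauto

@[simp] theorem mem_exn {I : Interp Δ} {x : Δ} {p : ℕ} :
    x ∈ (ex (Role.name p)).sem I ↔ ∃ y, (x, y) ∈ I.rol p := Iff.rfl

@[simp] theorem mem_exi {I : Interp Δ} {x : Δ} {p : ℕ} :
    x ∈ (ex (Role.inv p)).sem I ↔ ∃ y, (y, x) ∈ I.rol p := Iff.rfl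

@[simp] theorem mem_orL {I : Interp Δ} {x : Δ} {l : List Concept} :
    x ∈ (orL l).sem I ↔ ∃ C ∈ l, x ∈ C.sem I := by
  induction l with
  | nil => simp [orL]
  | cons a l ih =>
    have : orL (a :: l) = or a (orL l) := rfl
    rw [this, mem_or, ih]; simp

@[simp] theorem mem_andL {I : Interp Δ} {x : Δ} {l : List Concept} :
    x ∈ (andL l).sem I ↔ ∀ C ∈ l, x ∈ C.sem I := by
  induction l with
  | nil => simp [andL]
  | cons a l ih =>
    have : andL (a :: l) = and a (andL l) := rfl
    rw [this, mem_and, ih]; simp

end Concept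

/-! ### Interpreting stack contents in a structure with commuting functions -/

section hom

variable (s : K' → Γ' → Δ → Δ) (root : Δ)

/-- apply the functions given by a word -/
def wrd (k : K') (l : List Γ') (x : Δ) : Δ := l.foldr (s k) x

/-- interpretation of stack contents -/
def hom (S : Stk) : Δ :=
  wrd s K'.main (S K'.main) <| wrd s K'.rev (S K'.rev) <| wrd s K'.aux (S K'.aux) <|
    wrd s K'.stack (S K'.stack) root

/-- functions for different stacks commute -/
def Commuting : Prop := ∀ k k' a b x, k ≠ k' → s k a (s k' b x) = s k' b (s k a x)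

variable {s}

theorem wrd_comm (hs : Commuting s) {k k' : K'} (h : k ≠ k') (a : Γ') (l : List Γ') (x : Δ) :
    s k a (wrd s k' l x) = wrd s k' l (s k a x) := by
  induction l with
  | nil => rfl
  | cons b l ih =>
    have h1 : wrd s k' (b :: l) x = s k' b (wrd s k' l x) := rfl
    have h2 : wrd s k' (b :: l) (s k a x) = s k' b (wrd s k' l (s k a x)) := rfl
    rw [h1, h2, hs _ _ _ _ _ h, ih]

theorem hom_psh (hs : Commuting s) (k : K') (a : Γ') (S : Stk) :
    hom s root (psh k a S) = s k a (hom s root S) := by
  have hw : ∀ k l x, wrd s k (a :: l) x = s k a (wrd s k l x) := fun _ _ _ => rfl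
  cases k
  · simp only [hom, psh, Function.update_self, ne_eq, reduceCtorEq, not_false_eq_true,
      Function.update_of_ne, hw]
  · simp only [hom, psh, Function.update_self, ne_eq, reduceCtorEq, not_false_eq_true,
      Function.update_of_ne, hw]
    rw [wrd_comm hs (k := K'.rev) (k' := K'.main) (by simp)]
  · simp only [hom, psh, Function.update_self, ne_eq, reduceCtorEq, not_false_eq_true,
      Function.update_of_ne, hw]
    rw [wrd_comm hs (k := K'.aux) (k' := K'.main) (by simp),
      wrd_comm hs (k := K'.aux) (k' := K'.rev) (by simp)]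
  · simp only [hom, psh, Function.update_self, ne_eq, reduceCtorEq, not_false_eq_true,
      Function.update_of_ne, hw]
    rw [wrd_comm hs (k := K'.stack) (k' := K'.main) (by simp),
      wrd_comm hs (k := K'.stack) (k' := K'.rev) (by simp),
      wrd_comm hs (k := K'.stack) (k' := K'.aux) (by simp)]

theorem wrd_pres {P : Δ → Prop} {k : K'} (hP : ∀ a x, P x → P (s k a x)) (l : List Γ') {x : Δ}
    (hx : P x) : P (wrd s k l x) := by
  induction l with
  | nil => exact hx
  | cons b l ih => exact hP _ _ ih

/-- a predicate that holds at the root and is preserved by all functions except those for the stack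
`k` holds at the interpretations of all stack contents whose stack `k` is empty. -/
theorem hom_empty {P : Δ → Prop} {k : K'} (h0 : P root)
    (hP : ∀ k' a x, k' ≠ k → P x → P (s k' a x)) {S : Stk} (hS : S k = []) :
    P (hom s root S) := by
  have key : ∀ k' x, P x → P (wrd s k' (S k') x) := by
    intro k' x hx
    by_cases h : k' = k
    · subst h; rw [hS]; exact hx
    · exact wrd_pres (fun a x hx => hP k' a x h hx) _ hx
  exact key _ _ (key _ _ (key _ _ (key _ _ h0)))

/-- a predicate that is preserved by all functions and holds at the root holds everywhere -/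
theorem hom_all {P : Δ → Prop} (h0 : P root) (hP : ∀ k a x, P x → P (s k a x)) (S : Stk) :
    P (hom s root S) := by
  have key : ∀ k' x, P x → P (wrd s k' (S k') x) := fun k' x hx =>
    wrd_pres (fun a x hx => hP k' a x hx) _ hx
  exact key _ _ (key _ _ (key _ _ (key _ _ h0)))

/-- truth of a rule in a structure, `D q` being the extension of the state `q` and `Z k` that of
emptiness of the stack `k`. -/
def RuleOK (s : K' → Γ' → Δ → Δ) (Z : K' → Δ → Prop) (D : ℕ → Δ → Prop) :
    ℕ × Op × ℕ → Prop
  | (q, .push k a, q') => ∀ x, D q x → D q' (s k a x)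
  | (q, .pop k a, q') => ∀ x, D q (s k a x) → D q' x
  | (q, .peek k a, q') => ∀ x, D q (s k a x) → D q' (s k a x)
  | (q, .empty k, q') => ∀ x, D q x → Z k x → D q' x
  | (q, .nop, q') => ∀ x, D q x → D q' x

theorem sim_step (hs : Commuting s) {Z : K' → Δ → Prop} {D : ℕ → Δ → Prop}
    {R : List (ℕ × Op × ℕ)} (hR : ∀ r ∈ R, RuleOK s Z D r)
    (hZ : ∀ k (S : Stk), S k = [] → Z k (hom s root S)) {c c' : ℕ × Stk} (h : Step R c c')
    (hc : D c.1 (hom s root c.2)) : D c'.1 (hom s root c'.2) := by
  obtain ⟨⟨q, op, q'⟩, hr, h1, h2, h3⟩ := h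
  obtain ⟨c1, S⟩ := c
  obtain ⟨c1', S'⟩ := c'
  simp only at h1 h2 h3 hc ⊢
  subst h1 h2
  have h4 := hR _ hr
  cases op with
  | push k a =>
    have h3 : S' = psh k a S := h3
    rw [h3, hom_psh root hs]
    exact h4 _ hc
  | pop k a =>
    have h3 : S = psh k a S' := h3
    rw [h3, hom_psh root hs] at hc
    exact h4 _ hc
  | peek k a =>
    obtain ⟨⟨S₀, h5⟩, h6⟩ : (∃ S₀, S = psh k a S₀) ∧ S' = S := h3
    rw [h6, h5, hom_psh root hs]
    rw [h5, hom_psh root hs] at hc
    exact h4 _ hc
  | empty k =>
    obtain ⟨h5, h6⟩ : S k = [] ∧ S' = S := h3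
    rw [h6]
    exact h4 _ hc (hZ _ _ h5)
  | nop =>
    have h3 : S' = S := h3
    rw [h3]
    exact h4 _ hc

theorem sim (hs : Commuting s) {Z : K' → Δ → Prop} {D : ℕ → Δ → Prop}
    {R : List (ℕ × Op × ℕ)} (hR : ∀ r ∈ R, RuleOK s Z D r)
    (hZ : ∀ k (S : Stk), S k = [] → Z k (hom s root S)) {c c' : ℕ × Stk} (h : Reach R c c')
    (hc : D c.1 (hom s root c.2)) : D c'.1 (hom s root c'.2) := by
  induction h with
  | refl => exact hc
  | tail _ h ih => exact sim_step root hs hR hZ h ih

end hom

/-! ### The chain of individuals that encodes the input -/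

/-- last symbol (i.e. first pushed) of the input -/
def bitOf (v : ℕ) : Γ' := if v % 2 = 0 then Γ'.bit0 else Γ'.bit1

theorem trList_bit {v : ℕ} (hv : 0 < v) : trList [v] = bitOf v :: trList [v / 2] := by
  rcases Nat.even_or_odd' v with ⟨m, hm | hm⟩
  · have h1 : v / 2 = m := by omega
    have h2 : bitOf v = Γ'.bit0 := by unfold bitOf; rw [if_pos (by omega)]
    rw [h1, h2, hm]
    simp only [trList]
    rw [trNat_even (by omega)]
    rfl
  · have h1 : v / 2 = m := by omega
    have h2 : bitOf v = Γ'.bit1 := by unfold bitOf; rw [if_neg (by omega)]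
    rw [h1, h2, hm]
    simp only [trList]
    rw [trNat_odd]
    rfl

theorem trList_zero : trList [0] = [Γ'.cons] := by
  simp [trList, trNat, trNum]

theorem trList_inj {v w : ℕ} (h : trList [v] = trList [w]) : v = w := by
  induction v using Nat.strong_induction_on generalizing w with
  | _ v ih =>
    rcases Nat.eq_zero_or_pos v with rfl | hv
    · rcases Nat.eq_zero_or_pos w with rfl | hw
      · rfl
      · rw [trList_zero, trList_bit hw] at h
        simp only [List.cons.injEq] at h
        unfold bitOf at h
        split_ifs at h <;> simp at h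
    · rcases Nat.eq_zero_or_pos w with rfl | hw
      · rw [trList_zero, trList_bit hv] at h
        simp only [List.cons.injEq] at h
        unfold bitOf at h
        split_ifs at h <;> simp at h
      · rw [trList_bit hv, trList_bit hw] at h
        simp only [List.cons.injEq] at h
        have h1 := ih (v / 2) (by omega) h.2
        have h2 : v % 2 = w % 2 := by
          have h3 := h.1
          unfold bitOf at h3
          split_ifs at h3 <;> omega
        omega

/-- stack contents represented by individual number `j` -/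
def node : ℕ → Stk
  | 0 => stk0 []
  | v + 1 => stk0 (trList [v])

theorem stk0_inj {l l' : List Γ'} (h : stk0 l = stk0 l') : l = l' := congrFun h K'.main

theorem node_inj : Function.Injective node := by
  intro v w h
  rcases v with _ | v <;> rcases w with _ | w
  · rfl
  · have := stk0_inj h
    simp [trList] at this
  · have := stk0_inj h
    simp [trList] at this
  · have := trList_inj (stk0_inj h)
    rw [this]

theorem psh_stk0 (a : Γ') (l : List Γ') : psh K'.main a (stk0 l) = stk0 (a :: l) := by
  funext k
  cases k <;> simp [psh, stk0]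

theorem node_one : node 1 = psh K'.main Γ'.cons (node 0) := by
  simp only [node, trList_zero, psh_stk0]

theorem node_succ (v : ℕ) :
    node (v + 2) = psh K'.main (bitOf (v + 1)) (node ((v + 1) / 2 + 1)) := by
  simp only [node]
  rw [trList_bit (by omega), psh_stk0]

end Pool.Agent.Lib.MP_9ab704_lc
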