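import Pool.Agent.Lib.MP_9ab704_lc.QR

/-!
# The reduction for functionality assertions: definitions and elementary facts
-/

namespace Pool.Agent.Lib.MP_9ab704_lc

open Turing PartrecToTM2 Relation
open Pool.Agent.Lib.MP_8d6ead_lc (Stk Op psh Step Reach stk0 syms mem_syms ik ia stks mem_stks prs
  mem_prs psh_injective psh_comm trNat_even trNat_odd)

variable {Δ : Type}

namespace QF

/-- push roles: stack, symbol and colour of the source -/
abbrev Rl := K' × Γ' × Fin 8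

/-- weights of the stacks -/
def wt : K' → Fin 8
  | .main => 1
  | .rev => 2
  | .aux => 3
  | .stack => 4

/-- the nominal -/
def cN : ℕ := 0
/-- marks the use of the mode without edges -/
def cOff : ℕ := 1
/-- colours -/
def cC (c : Fin 8) : ℕ := 2 + c
/-- empty stack -/
def cZ (k : K') : ℕ := 10 + ik k
/-- states -/
def cD (q : ℕ) : ℕ := 14 + q
/-- pushes -/
def rP (ρ : Rl) : ℕ := 4 * (32 * ik ρ.1 + 8 * ia ρ.2.1 + ρ.2.2)
/-- mode `m` is used -/
def rU (m : ℕ) : ℕ := 4 * m + 1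
/-- mode `m` is not used -/
def rV (m : ℕ) : ℕ := 4 * m + 2
/-- leads to the source of the error -/
def rR (m : ℕ) : ℕ := 4 * m + 3

def C (c : Fin 8) : Concept := .atom (cC c)
def D (q : ℕ) : Concept := .atom (cD q)
def Z (k : K') : Concept := .atom (cZ k)

/-- all push roles -/
def rls : List Rl := prs.flatMap fun p => (List.finRange 8).map fun c => (p.1, p.2, c)

theorem mem_rls (ρ : Rl) : ρ ∈ rls := by
  obtain ⟨k, a, c⟩ := ρ
  unfold rls
  rw [List.mem_flatMap]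
  exact ⟨(k, a), mem_prs _, List.mem_map.2 ⟨c, List.mem_finRange c, rfl⟩⟩

/-- the outgoing push roles are exactly those in `O`, the incoming ones exactly those in `A`. -/
def pat (O A : List Rl) : Concept :=
  .andL (rls.map fun ρ => .and
    (if ρ ∈ O then .ex (.name (rP ρ)) else .neg (.ex (.name (rP ρ))))
    (if ρ ∈ A then .ex (.inv (rP ρ)) else .neg (.ex (.inv (rP ρ)))))

theorem mem_pat {I : Interp Δ} {O A : List Rl} {x : Δ} : x ∈ (pat O A).sem I ↔
    (∀ ρ, (∃ y, (x, y) ∈ I.rol (rP ρ)) ↔ ρ ∈ O) ∧ (∀ ρ, (∃ y, (y, x) ∈ I.rol (rP ρ)) ↔ ρ ∈ A) := by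
  unfold pat
  rw [Concept.mem_andL]
  simp only [List.forall_mem_map, Concept.mem_and]
  have h : ∀ ρ, (x ∈ (if ρ ∈ O then Concept.ex (.name (rP ρ)) else
      .neg (.ex (.name (rP ρ)))).sem I ↔ ((∃ y, (x, y) ∈ I.rol (rP ρ)) ↔ ρ ∈ O)) := by
    intro ρ
    split_ifs with h
    · simp [h]
    · simp [h]
  have h' : ∀ ρ, (x ∈ (if ρ ∈ A then Concept.ex (.inv (rP ρ)) else
      .neg (.ex (.inv (rP ρ)))).sem I ↔ ((∃ y, (y, x) ∈ I.rol (rP ρ)) ↔ ρ ∈ A)) := by
    intro ρ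
    split_ifs with h
    · simp [h]
    · simp [h]
  simp only [h, h']
  exact ⟨fun H => ⟨fun ρ => (H ρ (mem_rls ρ)).1, fun ρ => (H ρ (mem_rls ρ)).2⟩,
    fun H ρ _ => ⟨H.1 ρ, H.2 ρ⟩⟩

/-- modes -/
inductive Mode
  | std
  | off
  | edge (ρ : Rl) (A B : Concept)
  | comm (k : K') (a : Γ') (k' : K') (a' : Γ') (c : Fin 8)

/-- what all elements satisfy in the mode `md` with label `m` -/
def typ (m : ℕ) : Mode → Concept
  | .std => .andL (rls.map fun ρ => .or (.neg (C ρ.2.2)) (.ex (.name (rP ρ))))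
  | .off => .and (.ex (.name (rR m))) (pat [] [])
  | .edge ρ A B => .and (.ex (.name (rR m)))
      (.or (pat [] []) (.or (.and (pat [ρ] []) A) (.and (pat [] [ρ]) B)))
  | .comm k a k' a' c => .and (.ex (.name (rR m)))
      (.or (pat [] []) (.or (pat [(k, a, c), (k', a', c)] [])
        (.or (pat [(k', a', c + wt k)] [(k, a, c)]) (.or (pat [(k, a, c + wt k')] [(k', a', c)])
          (.or (pat [] [(k', a', c + wt k)]) (pat [] [(k, a, c + wt k')]))))))

/-- what the source of the error satisfies -/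
def src : Mode → Concept
  | .std => .top
  | .off => .and (.atom cN) (.atom cOff)
  | .edge ρ A _ => .and (pat [ρ] []) A
  | .comm k a k' a' c => pat [(k, a, c), (k', a', c)] []

/-- axioms of a mode -/
def modeAx (m : ℕ) (md : Mode) : List TAxiom :=
  [.sub (.ex (.inv (rU m))) (.atom cN),
   .sub (.ex (.inv (rV m))) (.and (.atom cN) (.neg (.ex (.inv (rU m))))),
   .sub (.ex (.inv (rR m))) (src md)]

/-- choice of a mode -/
def ncS (p : ℕ × Mode) (X : Concept) : Concept :=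
  .or (.and (.ex (.name (rU p.1))) (typ p.1 p.2)) (.and (.ex (.name (rV p.1))) X)

def nc (L : List (ℕ × Mode)) : Concept := L.foldr ncS .bot

/-- axioms for a rule -/
def ruleAx : ℕ × Op × ℕ → List TAxiom
  | (q, .empty k, q') => [.sub (.and (D q) (Z k)) (D q')]
  | (q, .nop, q') => [.sub (D q) (D q')]
  | _ => []

/-- axioms that do not depend on the rules -/
def baseAx : List TAxiom :=
  (rls.map fun ρ => .func (.name (rP ρ))) ++
  (rls.map fun ρ => .sub (.ex (.name (rP ρ))) (C ρ.2.2)) ++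
  (rls.map fun ρ => .sub (.ex (.inv (rP ρ))) (C (ρ.2.2 + wt ρ.1))) ++
  ((List.finRange 8).flatMap fun c => ((List.finRange 8).filter fun c' => decide (c ≠ c')).map
    fun c' => .sub (.and (C c) (C c')) .bot) ++
  [.sub .top (.orL ((List.finRange 8).map C))]

/-- the TBox -/
def tb (W : List (ℕ × Op × ℕ)) (qh : ℕ) (L : List (ℕ × Mode)) : List TAxiom :=
  .sub (D qh) .bot :: .sub .top (nc L) ::
    (baseAx ++ (W.flatMap ruleAx ++ L.flatMap fun p => modeAx p.1 p.2))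

/-- the ABox -/
def ab (q₀ : ℕ) : List Assertion :=
  .con cN 0 :: .con (cC 0) 0 :: .con (cD q₀) 0 :: stks.map fun k => .con (cZ k) 0

/-- the input -/
def inp (W : List (ℕ × Op × ℕ)) (q₀ qh : ℕ) (Q : List ℕ) (L : List (ℕ × Mode)) : Input where
  query := .ex (.name (rU 0))
  tbox := tb W qh L
  abox := ab q₀
  minimized := .con cN :: .con cOff :: rls.map fun ρ => .rol (rP ρ)
  fixed := ((List.finRange 8).map fun c => .con (cC c)) ++ ((stks.map fun k => .con (cZ k)) ++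
    Q.map fun q => .con (cD q))
  prec := (.con cN, .con cOff) :: rls.map fun ρ => (.con cN, .rol (rP ρ))

theorem rP_inj {ρ ρ' : Rl} : rP ρ = rP ρ' ↔ ρ = ρ' := by
  constructor
  · intro h
    obtain ⟨k, a, c⟩ := ρ
    obtain ⟨k', a', c'⟩ := ρ'
    have h1 := ik_lt k
    have h2 := ik_lt k'
    have h3 := ia_lt a
    have h4 := ia_lt a'
    have h5 := c.2
    have h6 := c'.2
    unfold rP at h
    simp only at h
    have e1 : k = k' := ik_inj (by omega)
    have e2 : a = a' := ia_inj (by subst e1; omega)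
    have e3 : c = c' := Fin.ext (by subst e1 e2; omega)
    rw [e1, e2, e3]
  · rintro rfl; rfl

theorem holds_base {I : Interp Δ} : (∀ α ∈ baseAx, α.Holds I) ↔
    (∀ ρ x y y', (x, y) ∈ I.rol (rP ρ) → (x, y') ∈ I.rol (rP ρ) → y = y') ∧
    (∀ ρ x y, (x, y) ∈ I.rol (rP ρ) → x ∈ I.con (cC ρ.2.2) ∧ y ∈ I.con (cC (ρ.2.2 + wt ρ.1))) ∧
    (∀ c c' x, x ∈ I.con (cC c) → x ∈ I.con (cC c') → c = c') ∧
    (∀ x, ∃ c, x ∈ I.con (cC c)) := by
  unfold baseAx
  simp only [List.forall_mem_append, List.forall_mem_map, List.forall_mem_flatMap,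
    List.mem_singleton, forall_eq, List.mem_filter, List.mem_finRange, true_and,
    decide_eq_true_eq, forall_const]
  have h1 : (∀ ρ ∈ rls, (TAxiom.func (.name (rP ρ))).Holds I) ↔
      (∀ ρ x y y', (x, y) ∈ I.rol (rP ρ) → (x, y') ∈ I.rol (rP ρ) → y = y') :=
    ⟨fun h ρ => h ρ (mem_rls ρ), fun h ρ _ => h ρ⟩
  have h2 : ((∀ ρ ∈ rls, (TAxiom.sub (.ex (.name (rP ρ))) (C ρ.2.2)).Holds I) ∧
      (∀ ρ ∈ rls, (TAxiom.sub (.ex (.inv (rP ρ))) (C (ρ.2.2 + wt ρ.1))).Holds I)) ↔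
      (∀ ρ x y, (x, y) ∈ I.rol (rP ρ) →
        x ∈ I.con (cC ρ.2.2) ∧ y ∈ I.con (cC (ρ.2.2 + wt ρ.1))) := by
    simp only [TAxiom.Holds, Set.subset_def, Concept.mem_exn, Concept.mem_exi, C,
      Concept.mem_atom]
    constructor
    · rintro ⟨h, h'⟩ ρ x y hxy
      exact ⟨h ρ (mem_rls ρ) x ⟨y, hxy⟩, h' ρ (mem_rls ρ) y ⟨x, hxy⟩⟩
    · intro h
      exact ⟨fun ρ _ x ⟨y, hxy⟩ => (h ρ x y hxy).1, fun ρ _ y ⟨x, hxy⟩ => (h ρ x y hxy).2⟩
  have h3 : (∀ c c' : Fin 8, c ≠ c' → (TAxiom.sub (.and (C c) (C c')) .bot).Holds I) ↔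
      (∀ c c' x, x ∈ I.con (cC c) → x ∈ I.con (cC c') → c = c') := by
    simp only [TAxiom.Holds, Set.subset_def, Concept.mem_and, Concept.mem_bot, C,
      Concept.mem_atom]
    constructor
    · intro h c c' x hx hx'
      by_contra hc
      exact h c c' hc x ⟨hx, hx'⟩
    · rintro h c c' hc x ⟨hx, hx'⟩
      exact hc (h c c' x hx hx')
  have h4 : (TAxiom.sub .top (.orL ((List.finRange 8).map C))).Holds I ↔
      (∀ x, ∃ c, x ∈ I.con (cC c)) := by
    simp only [TAxiom.Holds, Set.subset_def, Concept.mem_top, Concept.mem_orL, List.mem_map,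
      List.mem_finRange, true_and, forall_const, C]
    constructor
    · intro h x
      obtain ⟨_, ⟨c, rfl⟩, hc⟩ := h x
      exact ⟨c, hc⟩
    · intro h x
      obtain ⟨c, hc⟩ := h x
      exact ⟨_, ⟨c, rfl⟩, hc⟩
  rw [← h1, ← h2, ← h3, ← h4]
  tauto

theorem holds_modeAx {I : Interp Δ} {m : ℕ} {md : Mode} : (∀ α ∈ modeAx m md, α.Holds I) ↔
    (∀ x y, (x, y) ∈ I.rol (rU m) → y ∈ I.con cN) ∧
    (∀ x y, (x, y) ∈ I.rol (rV m) → y ∈ I.con cN ∧ ∀ z, (z, y) ∉ I.rol (rU m)) ∧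
    (∀ x y, (x, y) ∈ I.rol (rR m) → y ∈ (src md).sem I) := by
  simp only [modeAx, List.mem_cons, List.not_mem_nil, or_false, forall_eq_or_imp, forall_eq,
    TAxiom.Holds, Set.subset_def, Concept.mem_exi, Concept.mem_atom, Concept.mem_and,
    Concept.mem_neg, forall_exists_index, not_exists]
  exact ⟨fun ⟨h1, h2, h3⟩ => ⟨fun x y h => h1 y x h, fun x y h => h2 y x h,
      fun x y h => h3 y x h⟩,
    fun ⟨h1, h2, h3⟩ => ⟨fun x y h => h1 y x h, fun x y h => h2 y x h,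
      fun x y h => h3 y x h⟩⟩

theorem holds_tb {W : List (ℕ × Op × ℕ)} {qh : ℕ} {L : List (ℕ × Mode)} {I : Interp Δ} :
    (∀ α ∈ tb W qh L, α.Holds I) ↔
      I.con (cD qh) = ∅ ∧ (∀ x, x ∈ (nc L).sem I) ∧ (∀ α ∈ baseAx, α.Holds I) ∧
      (∀ r ∈ W, ∀ α ∈ ruleAx r, α.Holds I) ∧
      (∀ p ∈ L, ∀ α ∈ modeAx p.1 p.2, α.Holds I) := by
  unfold tb
  simp only [List.mem_cons, forall_eq_or_imp, List.forall_mem_append, List.forall_mem_flatMap]
  have h1 : (TAxiom.sub (D qh) Concept.bot).Holds I ↔ I.con (cD qh) = ∅ := by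
    show I.con (cD qh) ⊆ ∅ ↔ _
    exact Set.subset_empty_iff
  have h2 : (TAxiom.sub .top (nc L)).Holds I ↔ ∀ x, x ∈ (nc L).sem I := by
    simp only [TAxiom.Holds, Set.subset_def, Concept.mem_top, forall_const]
  rw [h1, h2]

theorem holds_ab {q₀ : ℕ} {I : Interp Δ} : (∀ α ∈ ab q₀, α.Holds I) ↔
    I.ind 0 ∈ I.con cN ∧ I.ind 0 ∈ I.con (cC 0) ∧ I.ind 0 ∈ I.con (cD q₀) ∧
      ∀ k, I.ind 0 ∈ I.con (cZ k) := by
  unfold ab
  simp only [List.mem_cons, forall_eq_or_imp, List.forall_mem_map]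
  have h1 : (∀ k ∈ stks, (Assertion.con (cZ k) 0).Holds I) ↔ ∀ k, I.ind 0 ∈ I.con (cZ k) :=
    ⟨fun h k => h k (mem_stks k), fun h k _ => h k⟩
  rw [h1]
  rfl

theorem mem_nc_cons {I : Interp Δ} {x : Δ} {p : ℕ × Mode} {L : List (ℕ × Mode)} :
    x ∈ (nc (p :: L)).sem I ↔
      ((∃ y, (x, y) ∈ I.rol (rU p.1)) ∧ x ∈ (typ p.1 p.2).sem I) ∨
      ((∃ y, (x, y) ∈ I.rol (rV p.1)) ∧ x ∈ (nc L).sem I) := by
  have : nc (p :: L) = ncS p (nc L) := rfl
  rw [this, ncS]
  simp only [Concept.mem_or, Concept.mem_and, Concept.mem_exn]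

theorem mem_typ_std {I : Interp Δ} {x : Δ} {m : ℕ} : x ∈ (typ m .std).sem I ↔
    ∀ ρ : Rl, x ∈ I.con (cC ρ.2.2) → ∃ y, (x, y) ∈ I.rol (rP ρ) := by
  simp only [typ, Concept.mem_andL, List.forall_mem_map, Concept.mem_or, Concept.mem_neg,
    Concept.mem_exn, C, Concept.mem_atom]
  constructor
  · intro h ρ hx
    rcases h ρ (mem_rls ρ) with h | h
    · exact absurd hx h
    · exact h
  · intro h ρ _
    by_cases hx : x ∈ I.con (cC ρ.2.2)
    · exact Or.inr (h ρ hx)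
    · exact Or.inl hx

/-- If the nominal is a singleton then all elements use the same mode. -/
theorem global {I : Interp Δ} {a : Δ} (hN : I.con cN = {a}) :
    ∀ {L : List (ℕ × Mode)}, (∀ p ∈ L, ∀ α ∈ modeAx p.1 p.2, α.Holds I) →
      (∀ x, x ∈ (nc L).sem I) → ∃ p ∈ L, ∀ x, x ∈ (typ p.1 p.2).sem I
  | [], _, h => (h a).elim
  | p :: L, hL, h => by
    by_cases hU : ∃ x y, (x, y) ∈ I.rol (rU p.1)
    · obtain ⟨x, y, hxy⟩ := hU
      obtain ⟨h1, h2, -⟩ := holds_modeAx.1 (hL p (by simp))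
      have hy : y = a := by
        have := h1 x y hxy
        rwa [hN] at this
      subst hy
      refine ⟨p, by simp, fun z => ?_⟩
      rcases mem_nc_cons.1 (h z) with ⟨-, h3⟩ | ⟨⟨y', h3⟩, -⟩
      · exact h3
      · exfalso
        obtain ⟨h4, h5⟩ := h2 z y' h3
        rw [hN] at h4
        have h4 : y' = y := h4
        subst h4
        exact h5 x hxy
    · push Not at hU
      obtain ⟨p', hp', h'⟩ := global hN (L := L) (fun p' hp' => hL p' (by simp [hp'])) (by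
        intro z
        rcases mem_nc_cons.1 (h z) with ⟨⟨y', h3⟩, -⟩ | ⟨-, h3⟩
        · exact absurd h3 (hU z y')
        · exact h3)
      exact ⟨p', by simp [hp'], h'⟩

end QF

end Pool.Agent.Lib.MP_9ab704_lc
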