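import Pool.Agent.Lib.MP_9ab704_lc.QFUndec

/-!
# The reduction for functionality assertions: computability
-/

namespace Pool.Agent.Lib.MP_9ab704_lc

open Turing PartrecToTM2 Relation Encodable
open Pool.Agent.Lib.MP_8d6ead_lc (Stk Op psh Step Reach stk0 syms mem_syms ik ia stks mem_stks prs
  mem_prs psh_injective psh_comm trNat_even trNat_odd exists_rules_nat)

namespace QF

section prim

variable {α : Type} [Primcodable α]

/-- a family of concepts with primitive recursive codes -/
def PC (C : α → Concept) : Prop := Primrec fun a => (C a).code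

/-- a family of axioms with primitive recursive codes -/
def PA (A : α → TAxiom) : Prop := Primrec fun a => (A a).code

theorem lin {f : α → ℕ} (hf : Primrec f) (k l : ℕ) : Primrec fun a => k * f a + l :=
  Primrec.nat_add.comp (Primrec.nat_mul.comp (Primrec.const k) hf) (Primrec.const l)

theorem PC.const (C : Concept) : PC fun _ : α => C := Primrec.const _

theorem PC.atom {f : α → ℕ} (hf : Primrec f) : PC fun a => .atom (f a) := lin hf 4 1

theorem PC.exn {f : α → ℕ} (hf : Primrec f) : PC fun a => .ex (.name (f a)) :=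
  (lin (lin hf 2 0) 4 2).of_eq fun a => by rfl

theorem PC.exi {f : α → ℕ} (hf : Primrec f) : PC fun a => .ex (.inv (f a)) :=
  lin (lin hf 2 1) 4 2

theorem PC.neg {C : α → Concept} (hC : PC C) : PC fun a => .neg (C a) := lin hC 4 3

theorem PC.and {C D : α → Concept} (hC : PC C) (hD : PC D) : PC fun a => .and (C a) (D a) :=
  lin (Primrec₂.natPair.comp hC hD) 4 4

theorem PC.or {C D : α → Concept} (hC : PC C) (hD : PC D) : PC fun a => .or (C a) (D a) :=
  (hC.neg.and hD.neg).neg

theorem PA.sub {C D : α → Concept} (hC : PC C) (hD : PC D) : PA fun a => .sub (C a) (D a) :=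
  (lin (Primrec₂.natPair.comp hC hD) 3 0).of_eq fun a => by rfl

/-- distinction of parity -/
theorem ite_even {β : Type} [Primcodable β] {f : α → ℕ} (hf : Primrec f) {g : Γ' → α → β}
    (hg : ∀ b, Primrec (g b)) : Primrec fun a => g (bitOf (f a)) a := by
  have : (fun a => g (bitOf (f a)) a) =
      fun a => if f a % 2 = 0 then g Γ'.bit0 a else g Γ'.bit1 a := by
    funext a
    unfold bitOf
    split_ifs <;> rfl
  rw [this]
  exact Primrec.ite (Primrec.eq.comp (Primrec.nat_mod.comp hf (Primrec.const 2))
      (Primrec.const 0)) (hg _) (hg _)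

theorem flatMap_prim {ι : Type} (l : List ι) {f : ι → α → List ℕ} (hf : ∀ i, Primrec (f i)) :
    Primrec fun a => l.flatMap fun i => f i a := by
  induction l with
  | nil => exact Primrec.const _
  | cons i l ih =>
    exact (Primrec.list_append.comp (hf i) ih).of_eq fun a => by rfl

theorem list3 {f g h : α → ℕ} (hf : Primrec f) (hg : Primrec g) (hh : Primrec h) :
    Primrec fun a => [f a, g a, h a] :=
  Primrec.list_cons.comp hf (Primrec.list_cons.comp hg (Primrec.list_cons.comp hh
    (Primrec.const [])))

end prim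

/-! ### The part of the input that depends on `n` -/

theorem half_prim : Primrec fun v : ℕ => 2 * ((v + 1) / 2) + 1 :=
  lin (Primrec.nat_div.comp Primrec.succ (Primrec.const 2)) 2 1

theorem lab_prim (c : Fin 8) : Primrec fun v : ℕ => 2 * (8 * v + c) + 3 :=
  lin (lin Primrec.id 8 c) 2 3

theorem D_prim {f : ℕ → ℕ} (hf : Primrec f) : PC fun v => D (f v) :=
  PC.atom (Primrec.nat_add.comp (Primrec.const 14) hf)

theorem chainTyp_prim (c : Fin 8) : PC fun v => typ (chainM v c).1 (chainM v c).2 := by
  refine ite_even (f := fun v => v + 1) Primrec.succ (g := fun b v =>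
    (typ (2 * (8 * v + c) + 3) (.edge (K'.main, b, c) (D (2 * ((v + 1) / 2) + 1))
      (.neg (D (2 * (v + 1) + 1))))).code) fun b => ?_
  have h1 : PC fun v => D (2 * ((v + 1) / 2) + 1) := D_prim half_prim
  have h2 : PC fun v => D (2 * (v + 1) + 1) := D_prim (lin Primrec.succ 2 1)
  have h3 : PC fun v => Concept.ex (.name (rR (2 * (8 * v + c) + 3))) :=
    PC.exn (lin (lab_prim c) 4 3)
  exact h3.and ((PC.const _).or (((PC.const _).and h1).or ((PC.const _).and h2.neg)))

theorem chainSrc_prim (c : Fin 8) : PC fun v => src (chainM v c).2 := by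
  refine ite_even (f := fun v => v + 1) Primrec.succ (g := fun b v =>
    (src (.edge (K'.main, b, c) (D (2 * ((v + 1) / 2) + 1))
      (.neg (D (2 * (v + 1) + 1))))).code) fun b => ?_
  have h1 : PC fun v => D (2 * ((v + 1) / 2) + 1) := D_prim half_prim
  exact (PC.const _).and h1

theorem chainAx_prim (c : Fin 8) :
    Primrec fun v => (modeAx (chainM v c).1 (chainM v c).2).map TAxiom.code := by
  have hU : Primrec fun v => rU (chainM v c).1 := lin (lab_prim c) 4 1
  have hV : Primrec fun v => rV (chainM v c).1 := lin (lab_prim c) 4 2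
  have hR : Primrec fun v => rR (chainM v c).1 := lin (lab_prim c) 4 3
  have h1 : PA fun v => .sub (.ex (.inv (rU (chainM v c).1))) (.atom cN) :=
    PA.sub (PC.exi hU) (PC.const _)
  have h2 : PA fun v => .sub (.ex (.inv (rV (chainM v c).1)))
      (.and (.atom cN) (.neg (.ex (.inv (rU (chainM v c).1))))) :=
    PA.sub (PC.exi hV) ((PC.const _).and (PC.exi hU).neg)
  have h3 : PA fun v => .sub (.ex (.inv (rR (chainM v c).1))) (src (chainM v c).2) :=
    PA.sub (PC.exi hR) (chainSrc_prim c)
  exact list3 h1 h2 h3

/-- code of the nested concept, given the code of the innermost part -/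
theorem chainNc_prim (l : List (Fin 8)) : ∃ g : ℕ → ℕ → ℕ, Primrec₂ g ∧
    ∀ v X, ((l.map (chainM v)).foldr ncS X).code = g v X.code := by
  induction l with
  | nil => exact ⟨fun _ x => x, Primrec.snd, fun v X => rfl⟩
  | cons c l ih =>
    obtain ⟨g, hg, hg'⟩ := ih
    have hU : Primrec fun v => rU (chainM v c).1 := lin (lab_prim c) 4 1
    have hV : Primrec fun v => rV (chainM v c).1 := lin (lab_prim c) 4 2
    have ht := chainTyp_prim c
    have h1 : Primrec fun p : ℕ × ℕ => (Concept.neg (.and (.ex (.name (rU (chainM p.1 c).1)))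
        (typ (chainM p.1 c).1 (chainM p.1 c).2))).code :=
      (((PC.exn hU).and ht).neg).comp Primrec.fst
    have h2 : Primrec fun p : ℕ × ℕ => (Concept.ex (.name (rV (chainM p.1 c).1))).code :=
      (PC.exn hV).comp Primrec.fst
    have h3 : Primrec fun p : ℕ × ℕ =>
        4 * (4 * Nat.pair (Concept.ex (.name (rV (chainM p.1 c).1))).code (g p.1 p.2) + 4) + 3 :=
      lin (lin (Primrec₂.natPair.comp h2 hg) 4 4) 4 3
    refine ⟨fun v x => 4 * (4 * Nat.pair (Concept.neg (.and (.ex (.name (rU (chainM v c).1)))
        (typ (chainM v c).1 (chainM v c).2))).code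
        (4 * (4 * Nat.pair (Concept.ex (.name (rV (chainM v c).1))).code (g v x) + 4) + 3) + 4) + 3,
        lin (lin (Primrec₂.natPair.comp h1 h3) 4 4) 4 3, fun v X => ?_⟩
    rw [List.map_cons, List.foldr_cons]
    simp only [ncS, Concept.or, Concept.code, ← hg']

theorem fixNc_prim {f : ℕ → Concept} (hf : PC f) (l : List (ℕ × Mode)) :
    PC fun n => l.foldr ncS (f n) := by
  induction l with
  | nil => exact hf
  | cons p l ih => exact ((PC.const _).and (PC.const _)).or ((PC.const _).and ih)

theorem foldr_flatMap' {α β γ : Type} (f : α → List β) (g : β → γ → γ) (x : γ) (l : List α) :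
    (l.flatMap f).foldr g x = l.foldr (fun a s => (f a).foldr g s) x := by
  induction l with
  | nil => rfl
  | cons a l ih => rw [List.flatMap_cons, List.foldr_append, ih]; rfl

theorem nc_prim (R : List (ℕ × Op × ℕ)) : PC fun n => nc (full (sysL R n)) := by
  have h1 : ∀ n, nc (full (sysL R n)) =
      ((0, Mode.std) :: (1, Mode.off) :: fixL R).foldr ncS (nc (chainL n)) := by
    intro n
    simp only [nc, full, sysL, List.foldr_cons, List.foldr_append]
  simp only [h1]
  refine fixNc_prim ?_ _
  obtain ⟨g, hg, hg'⟩ := chainNc_prim (List.finRange 8)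
  have h2 : ∀ n, (nc (chainL n)).code = (List.range n).foldr (fun v x => g v x) Concept.bot.code := by
    intro n
    rw [nc, chainL, foldr_flatMap']
    induction List.range n with
    | nil => rfl
    | cons v l ih => rw [List.foldr_cons, hg', ih]; rfl
  refine Primrec.of_eq ?_ fun n => (h2 n).symm
  exact Primrec.list_foldr (h := fun _ p => g p.1 p.2) Primrec.list_range (Primrec.const _)
    (hg.comp (Primrec.fst.comp Primrec.snd) (Primrec.snd.comp Primrec.snd))

theorem sysW_ruleAx (R : List (ℕ × Op × ℕ)) (q₀ n : ℕ) :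
    (sysW R q₀ n).flatMap ruleAx = (fixR R).flatMap ruleAx ++
      [.sub (D (2 * n + 1)) (D (2 * q₀ + 2))] := by
  rw [sysW, List.flatMap_append, List.flatMap_cons]
  congr 1
  have : ((List.range n).map chainR).flatMap ruleAx = [] := by
    induction List.range n with
    | nil => rfl
    | cons v l ih => rw [List.map_cons, List.flatMap_cons, ih]; rfl
  rw [this]
  rfl

theorem tb_prim (R : List (ℕ × Op × ℕ)) (q₀ qh : ℕ) : Primrec fun n =>
    (tb (sysW R q₀ n) (2 * qh + 2) (full (sysL R n))).map TAxiom.code := by
  unfold tb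
  simp only [List.map_cons, List.map_append, sysW_ruleAx, List.append_assoc]
  refine Primrec.list_cons.comp (Primrec.const _) ?_
  refine Primrec.list_cons.comp (PA.sub (PC.const _) (nc_prim R)) ?_
  refine Primrec.list_append.comp (Primrec.const _) ?_
  refine Primrec.list_append.comp (Primrec.const _) ?_
  refine Primrec.list_append.comp ?_ ?_
  · refine Primrec.list_cons.comp ?_ (Primrec.const [])
    exact PA.sub (D_prim (lin Primrec.id 2 1)) (PC.const _)
  · have h1 : ∀ n, ((full (sysL R n)).flatMap fun p => modeAx p.1 p.2).map TAxiom.code =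
        (((0, Mode.std) :: (1, Mode.off) :: fixL R).flatMap fun p => modeAx p.1 p.2).map
          TAxiom.code ++
        (List.range n).flatMap fun v => (List.finRange 8).flatMap fun c =>
          (modeAx (chainM v c).1 (chainM v c).2).map TAxiom.code := by
      intro n
      have h2 : full (sysL R n) = ((0, Mode.std) :: (1, Mode.off) :: fixL R) ++ chainL n := rfl
      rw [h2, List.flatMap_append, List.map_append]
      congr 1
      rw [chainL, List.flatMap_assoc, List.map_flatMap]
      simp only [List.flatMap_map, List.map_flatMap]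
    simp only [h1]
    refine Primrec.list_append.comp (Primrec.const _) ?_
    refine Primrec.list_flatMap Primrec.list_range ?_
    exact (flatMap_prim (List.finRange 8) chainAx_prim).comp Primrec.snd

theorem fixed_prim (R : List (ℕ × Op × ℕ)) (q₀ qh : ℕ) : Primrec fun n =>
    ((((List.finRange 8).map fun c => .con (cC c)) ++ ((stks.map fun k => .con (cZ k)) ++
      (sysQ R q₀ qh n).map fun q => .con (cD q)) : List Pred)).map Pred.code := by
  simp only [List.map_append, sysQ, List.map_map]
  refine Primrec.list_append.comp (Primrec.const _) (Primrec.list_append.comp (Primrec.const _)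
    (Primrec.list_append.comp (Primrec.const _) ?_))
  refine Primrec.list_map (Primrec.list_range.comp Primrec.succ) ?_
  have : Primrec fun v : ℕ => 2 * (14 + (2 * v + 1)) :=
    (lin (Primrec.nat_add.comp (Primrec.const 14) (lin Primrec.id 2 1)) 2 0).of_eq fun v => by rfl
  exact this.comp Primrec.snd

theorem pair6 {α : Type} [Primcodable α] (c1 c3 c4 c6 : ℕ) {f g : α → ℕ} (hf : Primrec f)
    (hg : Primrec g) : Primrec fun a =>
      Nat.pair c1 (Nat.pair (f a) (Nat.pair c3 (Nat.pair c4 (Nat.pair (g a) c6)))) :=
  Primrec₂.natPair.comp (Primrec.const c1) (Primrec₂.natPair.comp hf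
    (Primrec₂.natPair.comp (Primrec.const c3) (Primrec₂.natPair.comp (Primrec.const c4)
      (Primrec₂.natPair.comp hg (Primrec.const c6)))))

theorem code_prim (R : List (ℕ × Op × ℕ)) (q₀ qh : ℕ) : Primrec fun n =>
    (sysI R q₀ qh n).code :=
  (pair6 (Concept.ex (.name (rU 0))).code (encode ((ab 0).map Assertion.code))
    (encode ((.con cN :: .con cOff :: rls.map fun ρ => .rol (rP ρ) : List Pred).map Pred.code))
    (encode (((.con cN, .con cOff) :: rls.map fun ρ => (.con cN, .rol (rP ρ)) :
      List (Pred × Pred)).map fun e => Nat.pair e.1.code e.2.code))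
    (Primrec.encode.comp (tb_prim R q₀ qh)) (Primrec.encode.comp (fixed_prim R q₀ qh))).of_eq
    fun n => by rfl

/-- Satisfiability relative to circumscribed knowledge bases with functionality assertions is
undecidable. -/
theorem not_satDecidable : ¬ SatDecidable Input.InF := by
  rintro ⟨f, hf, hdec⟩
  obtain ⟨R, q₀, qh, hR⟩ := exists_rules_nat diag diag_partrec
  refine diag_undec (fun n => f (sysI R q₀ qh n).code) (hf.comp (code_prim R q₀ qh).to_comp)
    fun n => ?_
  rw [hdec (sysI R q₀ qh n) (wellFormed _ _ _ _ _) (inF _ _ _ _ _), sysI_iff, hR n]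

end QF

end Pool.Agent.Lib.MP_9ab704_lc
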