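import Pool.Agent.Lib.MP_9ab704_lc.QF

/-!
# The reduction for functionality assertions: errors
-/

namespace Pool.Agent.Lib.MP_9ab704_lc

open Turing PartrecToTM2 Relation
open Pool.Agent.Lib.MP_8d6ead_lc (Stk Op psh Step Reach stk0 syms mem_syms ik ia stks mem_stks prs
  mem_prs psh_injective psh_comm trNat_even trNat_odd)

variable {Δ : Type}

namespace QF

/-- the error is present in the structure -/
def Err (I : Interp Δ) : Mode → Prop
  | .std => False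
  | .off => False
  | .edge ρ A B => ∃ x y, (x, y) ∈ I.rol (rP ρ) ∧ x ∈ A.sem I ∧ y ∈ B.sem I
  | .comm k a k' a' c => ∃ x y z y' z', (x, y) ∈ I.rol (rP (k, a, c)) ∧
      (y, z) ∈ I.rol (rP (k', a', c + wt k)) ∧ (x, y') ∈ I.rol (rP (k', a', c)) ∧
      (y', z') ∈ I.rol (rP (k, a, c + wt k')) ∧ z ≠ z'

/-- the modes for the detection of errors -/
inductive IsMode (W : List (ℕ × Op × ℕ)) : Mode → Prop
  | push {q k a q'} (c : Fin 8) (h : (q, .push k a, q') ∈ W) :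
      IsMode W (.edge (k, a, c) (D q) (.neg (D q')))
  | pop {q k a q'} (c : Fin 8) (h : (q, .pop k a, q') ∈ W) :
      IsMode W (.edge (k, a, c) (.neg (D q')) (D q))
  | peek {q k a q'} (c : Fin 8) (h : (q, .peek k a, q') ∈ W) :
      IsMode W (.edge (k, a, c) .top (.and (D q) (.neg (D q'))))
  | zero {k k' : K'} (a : Γ') (c : Fin 8) (h : k' ≠ k) :
      IsMode W (.edge (k', a, c) (Z k) (.neg (Z k)))
  | comm {k k' : K'} (a a' : Γ') (c : Fin 8) (h : k ≠ k') : IsMode W (.comm k a k' a' c)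

theorem add_wt_ne (c : Fin 8) (k : K') : c + wt k ≠ c := by
  cases k <;> revert c <;> decide

theorem add_wt_ne' {k k' : K'} (h : k ≠ k') (c : Fin 8) : c + wt k ≠ c + wt k' := by
  cases k <;> cases k' <;> first | exact absurd rfl h | (revert c; decide)

theorem add_wt_wt_ne {k k' : K'} (h : k ≠ k') (c : Fin 8) : c + wt k + wt k' ≠ c := by
  cases k <;> cases k' <;> first | exact absurd rfl h | (revert c; decide)

theorem add_wt_wt (k k' : K') (c : Fin 8) : c + wt k + wt k' = c + wt k' + wt k := by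
  cases k <;> cases k' <;> revert c <;> decide

/-- a used error mode leads to an error. -/
theorem err_of_typ {W : List (ℕ × Op × ℕ)} {J : Interp Δ} {m : ℕ} {md : Mode}
    (hm : IsMode W md) (h : ∀ x, x ∈ (typ m md).sem J)
    (hR : ∀ x y, (x, y) ∈ J.rol (rR m) → y ∈ (src md).sem J) (x₀ : Δ) : Err J md := by
  have hedge : ∀ ρ A B, md = .edge ρ A B → Err J md := by
    rintro ρ A B rfl
    obtain ⟨⟨s, hs⟩, -⟩ := h x₀
    have hs := hR _ _ hs
    simp only [src, Concept.mem_and, mem_pat] at hs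
    obtain ⟨⟨h1, h2⟩, h3⟩ := hs
    obtain ⟨t, ht⟩ := (h1 ρ).2 (by simp)
    have h4 := h t
    simp only [typ, Concept.mem_and, Concept.mem_or, mem_pat] at h4
    obtain ⟨-, ⟨-, h5⟩ | ⟨⟨-, h5⟩, -⟩ | ⟨-, h5⟩⟩ := h4
    · exact absurd ((h5 ρ).1 ⟨s, ht⟩) (by simp)
    · exact absurd ((h5 ρ).1 ⟨s, ht⟩) (by simp)
    · exact ⟨s, t, ht, h3, h5⟩
  cases hm with
  | push c h => exact hedge _ _ _ rfl
  | pop c h => exact hedge _ _ _ rfl
  | peek c h => exact hedge _ _ _ rfl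
  | zero a c h => exact hedge _ _ _ rfl
  | @comm k k' a a' c hk =>
    have hk' : k' ≠ k := hk.symm
    obtain ⟨⟨s, hs⟩, -⟩ := h x₀
    have hs := hR _ _ hs
    simp only [src, mem_pat] at hs
    obtain ⟨h1, h2⟩ := hs
    have hc1 : ∀ k, c ≠ c + wt k := fun k => (add_wt_ne c k).symm
    have hc2 : ∀ k, c + wt k ≠ c := fun k => add_wt_ne c k
    obtain ⟨y, hy⟩ := (h1 (k, a, c)).2 (by simp)
    obtain ⟨y', hy'⟩ := (h1 (k', a', c)).2 (by simp)
    have h4 := h y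
    simp only [typ, Concept.mem_and, Concept.mem_or, mem_pat] at h4
    have h4' := h y'
    simp only [typ, Concept.mem_and, Concept.mem_or, mem_pat] at h4'
    have hz : ∃ z, (y, z) ∈ J.rol (rP (k', a', c + wt k)) := by
      obtain ⟨-, ⟨-, h5⟩ | ⟨-, h5⟩ | ⟨h6, h5⟩ | ⟨-, h5⟩ | ⟨-, h5⟩ | ⟨-, h5⟩⟩ := h4
      · exact absurd ((h5 _).1 ⟨s, hy⟩) (by simp)
      · exact absurd ((h5 _).1 ⟨s, hy⟩) (by simp)
      · exact (h6 _).2 (by simp)
      · exact absurd ((h5 _).1 ⟨s, hy⟩) (by simp [hk])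
      · exact absurd ((h5 _).1 ⟨s, hy⟩) (by simp [hk])
      · exact absurd ((h5 _).1 ⟨s, hy⟩) (by simp [hc1])
    have hz' : ∃ z', (y', z') ∈ J.rol (rP (k, a, c + wt k')) := by
      obtain ⟨-, ⟨-, h5⟩ | ⟨-, h5⟩ | ⟨-, h5⟩ | ⟨h6, h5⟩ | ⟨-, h5⟩ | ⟨-, h5⟩⟩ := h4'
      · exact absurd ((h5 _).1 ⟨s, hy'⟩) (by simp)
      · exact absurd ((h5 _).1 ⟨s, hy'⟩) (by simp)
      · exact absurd ((h5 _).1 ⟨s, hy'⟩) (by simp [hk'])
      · exact (h6 _).2 (by simp)
      · exact absurd ((h5 _).1 ⟨s, hy'⟩) (by simp [hc1])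
      · exact absurd ((h5 _).1 ⟨s, hy'⟩) (by simp [hk'])
    obtain ⟨z, hz⟩ := hz
    obtain ⟨z', hz'⟩ := hz'
    refine ⟨s, y, z, y', z', hy, hz, hy', hz', ?_⟩
    rintro rfl
    have h7 := h z
    simp only [typ, Concept.mem_and, Concept.mem_or, mem_pat] at h7
    obtain ⟨-, ⟨-, h5⟩ | ⟨-, h5⟩ | ⟨-, h5⟩ | ⟨-, h5⟩ | ⟨-, h5⟩ | ⟨-, h5⟩⟩ := h7
    · exact absurd ((h5 _).1 ⟨_, hz⟩) (by simp)
    · exact absurd ((h5 _).1 ⟨_, hz⟩) (by simp)
    · exact absurd ((h5 _).1 ⟨_, hz⟩) (by simp [hk'])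
    · exact absurd ((h5 _).1 ⟨_, hz⟩) (by simp [hc2])
    · exact absurd ((h5 _).1 ⟨_, hz'⟩) (by simp [hk])
    · exact absurd ((h5 _).1 ⟨_, hz⟩) (by simp [hk'])

/-- the edges that witness an error and its source -/
structure Wit (I : Interp Δ) (md : Mode) where
  E : Rl → Set (Δ × Δ)
  s : Δ
  le : ∀ ρ, E ρ ⊆ I.rol (rP ρ)
  sym₁ : Γ'
  sym₂ : Γ'
  only : ∀ ρ : Rl, ρ.2.1 ≠ sym₁ → ρ.2.1 ≠ sym₂ → E ρ = ∅
  typ_all : ∀ (J : Interp Δ) (m : ℕ), (∀ ρ, J.rol (rP ρ) = E ρ) →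
    (J.rol (rR m) = {x | x.2 = s}) →
    (∀ ρ A B, md = .edge ρ A B → A.sem J = A.sem I ∧ B.sem J = B.sem I) →
    (∀ x, x ∈ (typ m md).sem J) ∧ s ∈ (src md).sem J

theorem exists_wit {W : List (ℕ × Op × ℕ)} {I : Interp Δ} (hI : ∀ α ∈ baseAx, α.Holds I)
    {md : Mode} (hm : IsMode W md) (h : Err I md) : Nonempty (Wit I md) := by
  obtain ⟨hfun, htyp, hdis, -⟩ := holds_base.1 hI
  have hne : ∀ {c c' : Fin 8} {x y : Δ}, x ∈ I.con (cC c) → y ∈ I.con (cC c') → c ≠ c' → x ≠ y := by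
    rintro c c' x y hx hy hc rfl
    exact hc (hdis _ _ _ hx hy)
  have hedge : ∀ ρ A B, md = .edge ρ A B → Nonempty (Wit I md) := by
    rintro ρ A B rfl
    obtain ⟨x, y, hxy, hx, hy⟩ := h
    have hxy' : x ≠ y := hne (htyp _ _ _ hxy).1 (htyp _ _ _ hxy).2 (add_wt_ne _ _).symm
    refine ⟨⟨fun ρ' => {p | ρ' = ρ ∧ p = (x, y)}, x, ?_, ρ.2.1, ρ.2.1, ?_, ?_⟩⟩
    · rintro ρ' p ⟨rfl, rfl⟩; exact hxy
    · intro ρ' h' _
      ext p
      simp only [Set.mem_ofPred_eq, Set.mem_empty_iff_false, iff_false, not_and]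
      rintro rfl
      exact absurd rfl h'
    · intro J m hE hR hAB
      obtain ⟨hA, hB⟩ := hAB _ _ _ rfl
      have hsx : x ∈ (pat [ρ] []).sem J := by
        rw [mem_pat]
        simp [hE, hxy']
      have hsy : y ∈ (pat [] [ρ]).sem J := by
        rw [mem_pat]
        simp [hE, hxy'.symm]
      refine ⟨fun d => ?_, ?_⟩
      · simp only [typ, Concept.mem_and, Concept.mem_or, Concept.mem_exn, hR, hA, hB]
        refine ⟨⟨x, rfl⟩, ?_⟩
        by_cases hdx : d = x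
        · subst hdx
          exact Or.inr (Or.inl ⟨hsx, hx⟩)
        · by_cases hdy : d = y
          · subst hdy
            exact Or.inr (Or.inr ⟨hsy, hy⟩)
          · left
            rw [mem_pat]
            simp [hE, hdx, hdy]
      · simp only [src, Concept.mem_and, hA]
        exact ⟨hsx, hx⟩
  cases hm with
  | push c h => exact hedge _ _ _ rfl
  | pop c h => exact hedge _ _ _ rfl
  | peek c h => exact hedge _ _ _ rfl
  | zero a c h => exact hedge _ _ _ rfl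
  | @comm k k' a a' c hk =>
    obtain ⟨x, y, z, y', z', h1, h2, h3, h4, hzz⟩ := h
    obtain ⟨cx, cy⟩ := htyp _ _ _ h1
    have cz := (htyp _ _ _ h2).2
    have cy' := (htyp _ _ _ h3).2
    have cz' := (htyp _ _ _ h4).2
    simp only at cx cy cz cy' cz'
    have e1 : x ≠ y := hne cx cy (add_wt_ne _ _).symm
    have e2 : x ≠ y' := hne cx cy' (add_wt_ne _ _).symm
    have e3 : x ≠ z := hne cx cz (add_wt_wt_ne hk _).symm
    have e4 : x ≠ z' := hne cx cz' (add_wt_wt_ne hk.symm _).symm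
    have e5 : y ≠ y' := hne cy cy' (add_wt_ne' hk _)
    have e6 : y ≠ z := hne cy cz (add_wt_ne _ _).symm
    have e7 : y ≠ z' := hne cy cz' (by rw [← add_wt_wt]; exact (add_wt_ne _ _).symm)
    have e8 : y' ≠ z := hne cy' cz (by rw [add_wt_wt]; exact (add_wt_ne _ _).symm)
    have e9 : y' ≠ z' := hne cy' cz' (add_wt_ne _ _).symm
    refine ⟨⟨fun ρ => {p | (ρ = (k, a, c) ∧ p = (x, y)) ∨ (ρ = (k', a', c) ∧ p = (x, y')) ∨
      (ρ = (k', a', c + wt k) ∧ p = (y, z)) ∨ (ρ = (k, a, c + wt k') ∧ p = (y', z'))},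
      x, ?_, a, a', ?_, ?_⟩⟩
    · rintro ρ p (⟨rfl, rfl⟩ | ⟨rfl, rfl⟩ | ⟨rfl, rfl⟩ | ⟨rfl, rfl⟩)
      exacts [h1, h3, h2, h4]
    · intro ρ ha ha'
      ext p
      simp only [Set.mem_ofPred_eq, Set.mem_empty_iff_false, iff_false]
      rintro (⟨rfl, -⟩ | ⟨rfl, -⟩ | ⟨rfl, -⟩ | ⟨rfl, -⟩)
      · exact ha rfl
      · exact ha' rfl
      · exact ha' rfl
      · exact ha rfl
    · intro J m hE hR hAB
      have hsx : x ∈ (pat [(k, a, c), (k', a', c)] []).sem J := by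
        rw [mem_pat]
        simp [hE, e1, e2, e3, e4, exists_or]
      have hsy : y ∈ (pat [(k', a', c + wt k)] [(k, a, c)]).sem J := by
        rw [mem_pat]
        simp [hE, e1.symm, e5, e6, e7]
      have hsy' : y' ∈ (pat [(k, a, c + wt k')] [(k', a', c)]).sem J := by
        rw [mem_pat]
        simp [hE, e2.symm, e5.symm, e8, e9]
      have hsz : z ∈ (pat [] [(k', a', c + wt k)]).sem J := by
        rw [mem_pat]
        simp [hE, e3.symm, e6.symm, e8.symm, hzz]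
      have hsz' : z' ∈ (pat [] [(k, a, c + wt k')]).sem J := by
        rw [mem_pat]
        simp [hE, e4.symm, e7.symm, e9.symm, hzz.symm]
      refine ⟨fun d => ?_, hsx⟩
      simp only [typ, Concept.mem_and, Concept.mem_or, Concept.mem_exn, hR]
      refine ⟨⟨x, rfl⟩, ?_⟩
      by_cases hdx : d = x
      · subst hdx; tauto
      by_cases hdy : d = y
      · subst hdy; tauto
      by_cases hdy' : d = y'
      · subst hdy'; tauto
      by_cases hdz : d = z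
      · subst hdz; tauto
      by_cases hdz' : d = z'
      · subst hdz'; tauto
      left
      rw [mem_pat]
      simp [hE, hdx, hdy, hdy', hdz, hdz']

end QF

end Pool.Agent.Lib.MP_9ab704_lc
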