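import Pool.Agent.Lib.MP_9ab704_lc.QFErr

/-!
# The reduction for functionality assertions: correctness
-/

namespace Pool.Agent.Lib.MP_9ab704_lc

open Turing PartrecToTM2 Relation
open Pool.Agent.Lib.MP_8d6ead_lc (Stk Op psh Step Reach stk0 syms mem_syms ik ia stks mem_stks prs
  mem_prs psh_injective psh_comm trNat_even trNat_odd)

variable {Δ : Type}

namespace QF

/-- conditions on the data of the reduction -/
structure Good (W : List (ℕ × Op × ℕ)) (q₀ qh : ℕ) (Q : List ℕ) (L : List (ℕ × Mode)) : Prop where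
  start : q₀ ∈ Q
  halt : qh ∈ Q
  states : ∀ r ∈ W, r.1 ∈ Q ∧ r.2.2 ∈ Q
  modes : ∀ md, (∃ m, (m, md) ∈ L) ↔ IsMode W md
  labels : ∀ m md md', (m, md) ∈ (0, Mode.std) :: (1, Mode.off) :: L →
    (m, md') ∈ (0, Mode.std) :: (1, Mode.off) :: L → md = md'

/-- the list of all modes -/
def full (L : List (ℕ × Mode)) : List (ℕ × Mode) := (0, Mode.std) :: (1, Mode.off) :: L

/-! ### The modified interpretation -/

/-- the modified interpretation -/
def chg (I : Interp Δ) (a : Δ) (E : Rl → Set (Δ × Δ)) (F : Set Δ) (m : ℕ) (s : Δ) : Interp Δ where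
  ind := I.ind
  con := fun A => {x | (A = cN ∧ x = a) ∨ (A = cOff ∧ x ∈ F) ∨ (2 ≤ A ∧ x ∈ I.con A)}
  rol := fun p => {x | (∃ ρ, p = rP ρ ∧ x ∈ E ρ) ∨ (p = rU m ∧ x.2 = a) ∨
    (∃ m', m' ≠ m ∧ p = rV m' ∧ x.2 = a) ∨ (p = rR m ∧ x.2 = s)}

section chg

variable {I : Interp Δ} {a : Δ} {E : Rl → Set (Δ × Δ)} {F : Set Δ} {m : ℕ} {s : Δ}

theorem chg_N : (chg I a E F m s).con cN = {a} := by
  ext x
  simp [chg, cN, cOff]

theorem chg_Off : (chg I a E F m s).con cOff = F := by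
  ext x
  simp [chg, cN, cOff]

theorem chg_con {A : ℕ} (h : 2 ≤ A) : (chg I a E F m s).con A = I.con A := by
  ext x
  have h1 : A ≠ cN := by unfold cN; omega
  have h2 : A ≠ cOff := by unfold cOff; omega
  simp [chg, h, h1, h2]

theorem chg_C (c : Fin 8) : (chg I a E F m s).con (cC c) = I.con (cC c) :=
  chg_con (by unfold cC; omega)

theorem chg_D (q : ℕ) : (chg I a E F m s).con (cD q) = I.con (cD q) :=
  chg_con (by unfold cD; omega)

theorem chg_Z (k : K') : (chg I a E F m s).con (cZ k) = I.con (cZ k) :=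
  chg_con (by unfold cZ; omega)

theorem chg_P (ρ : Rl) : (chg I a E F m s).rol (rP ρ) = E ρ := by
  ext x
  simp only [chg, Set.mem_ofPred_eq, rP_inj]
  have h1 : rP ρ ≠ rU m := by unfold rP rU; omega
  have h2 : ∀ m, rP ρ ≠ rV m := by unfold rP rV; omega
  have h3 : rP ρ ≠ rR m := by unfold rP rR; omega
  simp [h1, h2, h3]

theorem chg_U : (chg I a E F m s).rol (rU m) = {x | x.2 = a} := by
  ext x
  simp only [chg, Set.mem_ofPred_eq]
  have h1 : ∀ ρ, rU m ≠ rP ρ := by unfold rP rU; omega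
  have h2 : ∀ m', rU m ≠ rV m' := by unfold rU rV; omega
  have h3 : rU m ≠ rR m := by unfold rU rR; omega
  simp [h1, h2, h3]

theorem chg_U' {m' : ℕ} (h : m' ≠ m) : (chg I a E F m s).rol (rU m') = ∅ := by
  ext x
  simp only [chg, Set.mem_ofPred_eq]
  have h1 : ∀ ρ, rU m' ≠ rP ρ := by unfold rP rU; omega
  have h2 : ∀ m'', rU m' ≠ rV m'' := by unfold rU rV; omega
  have h3 : rU m' ≠ rR m := by unfold rU rR; omega
  have h4 : rU m' ≠ rU m := by unfold rU; omega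
  simp [h1, h2, h3, h4]

theorem chg_V {m' : ℕ} (h : m' ≠ m) : (chg I a E F m s).rol (rV m') = {x | x.2 = a} := by
  ext x
  simp only [chg, Set.mem_ofPred_eq]
  have h1 : ∀ ρ, rV m' ≠ rP ρ := by unfold rP rV; omega
  have h2 : rV m' ≠ rU m := by unfold rU rV; omega
  have h3 : rV m' ≠ rR m := by unfold rV rR; omega
  have h4 : ∀ m'', rV m' = rV m'' ↔ m'' = m' := by unfold rV; omega
  simp [h1, h2, h3, h4, h]

theorem chg_V' : (chg I a E F m s).rol (rV m) = ∅ := by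
  ext x
  simp only [chg, Set.mem_ofPred_eq]
  have h1 : ∀ ρ, rV m ≠ rP ρ := by unfold rP rV; omega
  have h2 : rV m ≠ rU m := by unfold rU rV; omega
  have h3 : rV m ≠ rR m := by unfold rV rR; omega
  have h4 : ∀ m'', rV m = rV m'' ↔ m'' = m := by unfold rV; omega
  simp [h1, h2, h3, h4]

theorem chg_R : (chg I a E F m s).rol (rR m) = {x | x.2 = s} := by
  ext x
  simp only [chg, Set.mem_ofPred_eq]
  have h1 : ∀ ρ, rR m ≠ rP ρ := by unfold rP rR; omega
  have h2 : rR m ≠ rU m := by unfold rU rR; omega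
  have h3 : ∀ m', rR m ≠ rV m' := by unfold rV rR; omega
  simp [h1, h2, h3]

theorem chg_R' {m' : ℕ} (h : m' ≠ m) : (chg I a E F m s).rol (rR m') = ∅ := by
  ext x
  simp only [chg, Set.mem_ofPred_eq]
  have h1 : ∀ ρ, rR m' ≠ rP ρ := by unfold rP rR; omega
  have h2 : rR m' ≠ rU m := by unfold rU rR; omega
  have h3 : ∀ m'', rR m' ≠ rV m'' := by unfold rV rR; omega
  have h4 : rR m' ≠ rR m := by unfold rR; omega
  simp [h1, h2, h3, h4]

end chg

theorem ruleAx_congr {r : ℕ × Op × ℕ} {I J : Interp Δ}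
    (h1 : J.con (cD r.1) = I.con (cD r.1)) (h2 : J.con (cD r.2.2) = I.con (cD r.2.2))
    (h3 : ∀ k, J.con (cZ k) = I.con (cZ k))
    (hI : ∀ α ∈ ruleAx r, α.Holds I) : ∀ α ∈ ruleAx r, α.Holds J := by
  obtain ⟨q, op, q'⟩ := r
  simp only at h1 h2
  cases op with
  | push k a => simp [ruleAx]
  | pop k a => simp [ruleAx]
  | peek k a => simp [ruleAx]
  | empty k =>
    simp only [ruleAx, List.mem_singleton, forall_eq, TAxiom.Holds, Set.subset_def, D, Z,
      Concept.mem_atom, Concept.mem_and] at hI ⊢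
    rw [h1, h2, h3]
    exact hI
  | nop =>
    simp only [ruleAx, List.mem_singleton, forall_eq, TAxiom.Holds, Set.subset_def, D,
      Concept.mem_atom] at hI ⊢
    rw [h1, h2]
    exact hI

theorem chg_model {W : List (ℕ × Op × ℕ)} {q₀ qh : ℕ} {Q : List ℕ} {L : List (ℕ × Mode)}
    (hG : Good W q₀ qh Q L) {I : Interp Δ} (hI : (inp W q₀ qh Q (full L)).Model I)
    {E : Rl → Set (Δ × Δ)} {F : Set Δ} {m : ℕ} {s : Δ} (hE : ∀ ρ, E ρ ⊆ I.rol (rP ρ))
    {md : Mode} (hmd : (m, md) ∈ full L)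
    (htyp : ∀ x, x ∈ (typ m md).sem (chg I (I.ind 0) E F m s))
    (hsrc : s ∈ (src md).sem (chg I (I.ind 0) E F m s)) :
    (inp W q₀ qh Q (full L)).Model (chg I (I.ind 0) E F m s) := by
  obtain ⟨hT, hA, hU⟩ := hI
  have hT : ∀ α ∈ tb W qh (full L), α.Holds I := hT
  have hA : ∀ α ∈ ab q₀, α.Holds I := hA
  rw [holds_tb] at hT
  obtain ⟨h1, h2, h3, h4, h5⟩ := hT
  rw [holds_ab] at hA
  obtain ⟨a1, a2, a3, a4⟩ := hA
  have hlab : ∀ md', (m, md') ∈ full L → md' = md := fun md' h => hG.labels m md' md h hmd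
  refine ⟨?_, ?_, hU⟩
  · show ∀ α ∈ tb W qh (full L), α.Holds _
    rw [holds_tb]
    refine ⟨?_, ?_, ?_, ?_, ?_⟩
    · rw [chg_D]; exact h1
    · intro x
      have key : ∀ L' : List (ℕ × Mode), (∀ md', (m, md') ∈ L' → md' = md) → (m, md) ∈ L' →
          x ∈ (nc L').sem (chg I (I.ind 0) E F m s) := by
        intro L'
        induction L' with
        | nil => intro _ h; simp at h
        | cons p L' ih =>
          intro hl hm
          rw [mem_nc_cons]
          by_cases hp : p.1 = m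
          · left
            have : p.2 = md := hl p.2 (by rw [← hp]; simp)
            rw [hp, this]
            refine ⟨⟨I.ind 0, ?_⟩, htyp x⟩
            rw [chg_U]; rfl
          · right
            refine ⟨⟨I.ind 0, ?_⟩, ih (fun md' h => hl md' (by simp [h])) ?_⟩
            · rw [chg_V hp]; rfl
            · rcases List.mem_cons.1 hm with h | h
              · exact absurd (by rw [← h]) hp
              · exact h
      exact key _ hlab hmd
    · rw [holds_base] at h3 ⊢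
      obtain ⟨b1, b2, b3, b4⟩ := h3
      refine ⟨?_, ?_, ?_, ?_⟩
      · intro ρ x y y' h h'
        rw [chg_P] at h h'
        exact b1 ρ x y y' (hE ρ h) (hE ρ h')
      · intro ρ x y h
        rw [chg_P] at h
        rw [chg_C, chg_C]
        exact b2 ρ x y (hE ρ h)
      · intro c c' x
        rw [chg_C, chg_C]
        exact b3 c c' x
      · intro x
        obtain ⟨c, hc⟩ := b4 x
        exact ⟨c, by rw [chg_C]; exact hc⟩
    · intro r hr
      exact ruleAx_congr (chg_D _) (chg_D _) (fun k => chg_Z k) (h4 r hr)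
    · rintro ⟨m', md'⟩ hp
      rw [holds_modeAx]
      by_cases hm : m' = m
      · subst hm
        have hm' := hlab md' hp
        simp only [hm']
        rw [chg_U, chg_V', chg_R, chg_N]
        refine ⟨fun x y h => h, fun x y h => h.elim, ?_⟩
        intro x y h
        have h : y = s := h
        rw [h]; exact hsrc
      · simp only
        rw [chg_U' hm, chg_V hm, chg_R' hm, chg_N]
        exact ⟨fun x y h => h.elim, fun x y h => ⟨h, fun z hz => hz⟩, fun x y h => h.elim⟩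
  · show ∀ α ∈ ab q₀, α.Holds _
    rw [holds_ab, chg_N, chg_C, chg_D]
    refine ⟨rfl, a2, a3, fun k => ?_⟩
    rw [chg_Z]
    exact a4 k

theorem mem_fixed {W : List (ℕ × Op × ℕ)} {q₀ qh : ℕ} {Q : List ℕ} {L : List (ℕ × Mode)}
    {p : Pred} (h : p ∈ (inp W q₀ qh Q L).fixed) : (∃ c, p = .con (cC c)) ∨
      (∃ k, p = .con (cZ k)) ∨ ∃ q ∈ Q, p = .con (cD q) := by
  simp only [inp, List.mem_append, List.mem_map] at h
  rcases h with ⟨c, _, rfl⟩ | ⟨k, _, rfl⟩ | ⟨q, hq, rfl⟩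
  · exact Or.inl ⟨c, rfl⟩
  · exact Or.inr (Or.inl ⟨k, rfl⟩)
  · exact Or.inr (Or.inr ⟨q, hq, rfl⟩)

theorem fixed_C {W : List (ℕ × Op × ℕ)} {q₀ qh : ℕ} {Q : List ℕ} {L : List (ℕ × Mode)}
    (c : Fin 8) : Pred.con (cC c) ∈ (inp W q₀ qh Q L).fixed := by
  simp only [inp, List.mem_append, List.mem_map]
  exact Or.inl ⟨c, List.mem_finRange c, rfl⟩

theorem fixed_Z {W : List (ℕ × Op × ℕ)} {q₀ qh : ℕ} {Q : List ℕ} {L : List (ℕ × Mode)}
    (k : K') : Pred.con (cZ k) ∈ (inp W q₀ qh Q L).fixed := by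
  simp only [inp, List.mem_append, List.mem_map]
  exact Or.inr (Or.inl ⟨k, mem_stks k, rfl⟩)

theorem fixed_D {W : List (ℕ × Op × ℕ)} {q₀ qh : ℕ} {Q : List ℕ} {L : List (ℕ × Mode)}
    {q : ℕ} (h : q ∈ Q) : Pred.con (cD q) ∈ (inp W q₀ qh Q L).fixed := by
  simp only [inp, List.mem_append, List.mem_map]
  exact Or.inr (Or.inr ⟨q, h, rfl⟩)

theorem chg_fixed {W : List (ℕ × Op × ℕ)} {q₀ qh : ℕ} {Q : List ℕ} {L : List (ℕ × Mode)}
    {I : Interp Δ} {a : Δ} {E : Rl → Set (Δ × Δ)} {F : Set Δ} {m : ℕ} {s : Δ}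
    {p : Pred} (h : p ∈ (inp W q₀ qh Q L).fixed) : p.Same (chg I a E F m s) I := by
  rcases mem_fixed h with ⟨c, rfl⟩ | ⟨k, rfl⟩ | ⟨q, _, rfl⟩
  · exact chg_C c
  · exact chg_Z k
  · exact chg_D q

theorem mem_min {W : List (ℕ × Op × ℕ)} {q₀ qh : ℕ} {Q : List ℕ} {L : List (ℕ × Mode)}
    {p : Pred} : p ∈ (inp W q₀ qh Q L).minimized ↔ p = .con cN ∨ p = .con cOff ∨
      ∃ ρ, p = .rol (rP ρ) := by
  simp only [inp, List.mem_cons, List.mem_map]
  constructor
  · rintro (h | h | ⟨ρ, _, rfl⟩)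
    · exact Or.inl h
    · exact Or.inr (Or.inl h)
    · exact Or.inr (Or.inr ⟨ρ, rfl⟩)
  · rintro (h | h | ⟨ρ, rfl⟩)
    · exact Or.inl h
    · exact Or.inr (Or.inl h)
    · exact Or.inr (Or.inr ⟨ρ, mem_rls ρ, rfl⟩)

theorem mem_prec {W : List (ℕ × Op × ℕ)} {q₀ qh : ℕ} {Q : List ℕ} {L : List (ℕ × Mode)}
    {q p : Pred} : (q, p) ∈ (inp W q₀ qh Q L).prec ↔ q = .con cN ∧ (p = .con cOff ∨
      ∃ ρ, p = .rol (rP ρ)) := by
  simp only [inp, List.mem_cons, List.mem_map, Prod.mk.injEq]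
  constructor
  · rintro (⟨h1, h2⟩ | ⟨ρ, _, rfl, rfl⟩)
    · exact ⟨h1, Or.inl h2⟩
    · exact ⟨rfl, Or.inr ⟨ρ, rfl⟩⟩
  · rintro ⟨rfl, h | ⟨ρ, rfl⟩⟩
    · exact Or.inl ⟨rfl, h⟩
    · exact Or.inr ⟨ρ, mem_rls ρ, rfl, rfl⟩

/-- In a model of the circumscribed knowledge base the nominal is a singleton. -/
theorem nominal {W : List (ℕ × Op × ℕ)} {q₀ qh : ℕ} {Q : List ℕ} {L : List (ℕ × Mode)}
    (hG : Good W q₀ qh Q L) {I : Interp Δ} (hI : (inp W q₀ qh Q (full L)).CircModel I) :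
    I.con cN = {I.ind 0} := by
  by_contra hne
  have hA : ∀ α ∈ ab q₀, α.Holds I := hI.1.2.1
  rw [holds_ab] at hA
  have hsub : ({I.ind 0} : Set Δ) ⊆ I.con cN := by
    rintro _ rfl; exact hA.1
  let J := chg I (I.ind 0) (fun _ => ∅) {I.ind 0} 1 (I.ind 0)
  refine hI.2 J ?_ ⟨rfl, fun p hp => chg_fixed hp, ?_, ?_⟩
  · refine chg_model hG hI.1 (fun ρ => Set.empty_subset _) (md := .off) (by simp [full]) ?_ ?_
    · intro x
      simp only [typ, Concept.mem_and, Concept.mem_exn, mem_pat, chg_P, chg_R]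
      simp
    · simp only [src, Concept.mem_and, Concept.mem_atom, chg_N, chg_Off]
      exact ⟨rfl, rfl⟩
  · intro p hp hle
    have hNle : (Pred.con cN).Le J I := by
      show (chg _ _ _ _ _ _).con cN ⊆ I.con cN
      rw [chg_N]; exact hsub
    have hNne : ¬ (Pred.con cN).Same J I := by
      show ¬ (chg _ _ _ _ _ _).con cN = I.con cN
      rw [chg_N]; exact fun h => hne h.symm
    rcases mem_min.1 hp with rfl | hp'
    · exact absurd hNle hle
    · exact ⟨.con cN, mem_min.2 (Or.inl rfl), mem_prec.2 ⟨rfl, hp'⟩, hNle, hNne⟩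
  · refine ⟨.con cN, mem_min.2 (Or.inl rfl), ⟨?_, ?_⟩, ?_⟩
    · show (chg _ _ _ _ _ _).con cN ⊆ I.con cN
      rw [chg_N]; exact hsub
    · show ¬ (chg _ _ _ _ _ _).con cN = I.con cN
      rw [chg_N]; exact fun h => hne h.symm
    · intro q hq
      obtain ⟨-, h | ⟨ρ, h⟩⟩ := mem_prec.1 hq
      · simp [cN, cOff] at h
      · simp at h

theorem exists_sym (a a' : Γ') : ∃ b : Γ', b ≠ a ∧ b ≠ a' := by
  cases a <;> cases a' <;> first
    | exact ⟨Γ'.bit0, by decide, by decide⟩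
    | exact ⟨Γ'.bit1, by decide, by decide⟩
    | exact ⟨Γ'.cons, by decide, by decide⟩

/-- locality of the concepts in a mode -/
def Mode.Loc (P : ℕ → Prop) : Mode → Prop
  | .edge _ A B => A.Loc P ∧ B.Loc P
  | _ => True

theorem Mode.Loc.sem_eq {I J : Interp Δ} {P : ℕ → Prop} (hP : ∀ A, P A → I.con A = J.con A)
    {md : Mode} (h : md.Loc P) : ∀ ρ A B, md = .edge ρ A B → A.sem I = A.sem J ∧
      B.sem I = B.sem J := by
  rintro ρ A B rfl
  exact ⟨h.1.sem_eq hP, h.2.sem_eq hP⟩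

/-- fixed names in modes -/
def Fx (Q : List ℕ) (A : ℕ) : Prop := (∃ k, A = cZ k) ∨ ∃ q ∈ Q, A = cD q

theorem IsMode.loc {W : List (ℕ × Op × ℕ)} {Q : List ℕ} (hQ : ∀ r ∈ W, r.1 ∈ Q ∧ r.2.2 ∈ Q)
    {md : Mode} (h : IsMode W md) : md.Loc (Fx Q) := by
  cases h with
  | push c h =>
    obtain ⟨h1, h2⟩ := hQ _ h
    exact ⟨Or.inr ⟨_, h1, rfl⟩, Or.inr ⟨_, h2, rfl⟩⟩
  | pop c h =>
    obtain ⟨h1, h2⟩ := hQ _ h
    exact ⟨Or.inr ⟨_, h2, rfl⟩, Or.inr ⟨_, h1, rfl⟩⟩
  | peek c h =>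
    obtain ⟨h1, h2⟩ := hQ _ h
    exact ⟨trivial, Or.inr ⟨_, h1, rfl⟩, Or.inr ⟨_, h2, rfl⟩⟩
  | zero a c h => exact ⟨Or.inl ⟨_, rfl⟩, Or.inl ⟨_, rfl⟩⟩
  | comm a a' c h => trivial

/-- In a model of the circumscribed knowledge base with the standard mode there is no error. -/
theorem no_err {W : List (ℕ × Op × ℕ)} {q₀ qh : ℕ} {Q : List ℕ} {L : List (ℕ × Mode)}
    (hG : Good W q₀ qh Q L) {I : Interp Δ} (hI : (inp W q₀ qh Q (full L)).CircModel I)
    (hstd : ∀ x (ρ : Rl), x ∈ I.con (cC ρ.2.2) → ∃ y, (x, y) ∈ I.rol (rP ρ))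
    {md : Mode} (hmd : IsMode W md) : ¬ Err I md := by
  intro herr
  have hN := nominal hG hI
  have hT : ∀ α ∈ tb W qh (full L), α.Holds I := hI.1.1
  rw [holds_tb] at hT
  obtain ⟨-, -, hbase, -, -⟩ := hT
  have hA : ∀ α ∈ ab q₀, α.Holds I := hI.1.2.1
  rw [holds_ab] at hA
  obtain ⟨wit⟩ := exists_wit hbase hmd herr
  obtain ⟨m, hm⟩ := (hG.modes md).2 hmd
  let J := chg I (I.ind 0) wit.E ∅ m wit.s
  have hloc : ∀ ρ A B, md = .edge ρ A B → A.sem J = A.sem I ∧ B.sem J = B.sem I := by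
    refine (hmd.loc hG.states).sem_eq ?_
    rintro A (⟨k, rfl⟩ | ⟨q, _, rfl⟩)
    · exact chg_Z k
    · exact chg_D q
  obtain ⟨h1, h2⟩ := wit.typ_all J m chg_P chg_R hloc
  have hle : ∀ p ∈ (inp W q₀ qh Q (full L)).minimized, p.Le J I := by
    intro p hp
    rcases mem_min.1 hp with rfl | rfl | ⟨ρ, rfl⟩
    · show (chg _ _ _ _ _ _).con cN ⊆ I.con cN
      rw [chg_N, hN]
    · show (chg _ _ _ _ _ _).con cOff ⊆ I.con cOff
      rw [chg_Off]; exact Set.empty_subset _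
    · show (chg _ _ _ _ _ _).rol (rP ρ) ⊆ I.rol (rP ρ)
      rw [chg_P]; exact wit.le ρ
  refine hI.2 J ?_ ⟨rfl, fun p hp => chg_fixed hp, fun p hp hn => absurd (hle p hp) hn, ?_⟩
  · exact chg_model hG hI.1 wit.le (md := md) (by simp [full, hm]) h1 h2
  · obtain ⟨b, hb, hb'⟩ := exists_sym wit.sym₁ wit.sym₂
    have hp : Pred.rol (rP (K'.main, b, 0)) ∈ (inp W q₀ qh Q (full L)).minimized :=
      mem_min.2 (Or.inr (Or.inr ⟨_, rfl⟩))
    refine ⟨.rol (rP (K'.main, b, 0)), hp, ⟨hle _ hp, ?_⟩, ?_⟩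
    · show ¬ (chg _ _ _ _ _ _).rol (rP (K'.main, b, 0)) = I.rol (rP (K'.main, b, 0))
      rw [chg_P, wit.only _ hb hb']
      intro h
      obtain ⟨y, hy⟩ := hstd (I.ind 0) (K'.main, b, 0) hA.2.1
      rw [← h] at hy
      exact hy
    · intro q hq
      obtain ⟨rfl, -⟩ := mem_prec.1 hq
      show (chg _ _ _ _ _ _).con cN = I.con cN
      rw [chg_N, hN]

theorem not_reach_of_satisfiable {W : List (ℕ × Op × ℕ)} {q₀ qh : ℕ} {Q : List ℕ}
    {L : List (ℕ × Mode)} (hG : Good W q₀ qh Q L)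
    (h : (inp W q₀ qh Q (full L)).Satisfiable) :
    ¬ ∃ T, Reach W (q₀, stk0 []) (qh, T) := by
  obtain ⟨Δ, I, hI, x₀, hx₀⟩ := h
  have hN := nominal hG hI
  have hT : ∀ α ∈ tb W qh (full L), α.Holds I := hI.1.1
  rw [holds_tb] at hT
  obtain ⟨h1, h2, hbase, h4, h5⟩ := hT
  have hA : ∀ α ∈ ab q₀, α.Holds I := hI.1.2.1
  rw [holds_ab] at hA
  obtain ⟨-, a2, a3, a4⟩ := hA
  have hstd : ∀ x (ρ : Rl), x ∈ I.con (cC ρ.2.2) → ∃ y, (x, y) ∈ I.rol (rP ρ) := by
    intro x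
    have hx := h2 x
    rw [full, mem_nc_cons] at hx
    rcases hx with ⟨-, hx⟩ | ⟨⟨y, hy⟩, -⟩
    · exact mem_typ_std.1 hx
    · exfalso
      obtain ⟨e1, e2, -⟩ := holds_modeAx.1 (h5 (0, .std) (by simp [full]))
      obtain ⟨e3, e4⟩ := e2 x y hy
      obtain ⟨z, hz⟩ := hx₀
      have e5 := e1 x₀ z hz
      rw [hN] at e3 e5
      have e3 : y = I.ind 0 := e3
      have e5 : z = I.ind 0 := e5
      subst e3 e5
      exact e4 x₀ hz
  have hne := fun {md} hmd => no_err hG hI hstd (md := md) hmd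
  obtain ⟨b1, b2, b3, b4⟩ := holds_base.1 hbase
  choose col hcol using b4
  have hs' : ∀ (k : K') (a : Γ') (x : Δ), ∃ y, (x, y) ∈ I.rol (rP (k, a, col x)) :=
    fun k a x => hstd x (k, a, col x) (hcol x)
  choose s hs using hs'
  have hS : ∀ {k a c x y}, (x, y) ∈ I.rol (rP (k, a, c)) → y = s k a x := by
    intro k a c x y hxy
    have : c = col x := b3 _ _ x (b2 _ _ _ hxy).1 (hcol x)
    subst this
    exact b1 _ _ _ _ hxy (hs k a x)
  have hcs : ∀ k a x, col (s k a x) = col x + wt k := fun k a x =>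
    b3 _ _ _ (hcol _) (b2 _ _ _ (hs k a x)).2
  have hcomm : Commuting s := by
    intro k k' a b x hk
    by_contra hcon
    refine hne (IsMode.comm b a (col x) hk.symm)
      ⟨x, s k' b x, s k a (s k' b x), s k a x, s k' b (s k a x), hs _ _ _, ?_, hs _ _ _, ?_, hcon⟩
    · rw [← hcs k' b x]; exact hs _ _ _
    · rw [← hcs k a x]; exact hs _ _ _
  have hrule : ∀ r ∈ W, RuleOK s (fun k x => x ∈ I.con (cZ k)) (fun q x => x ∈ I.con (cD q)) r := by
    intro r hr
    obtain ⟨q, op, q'⟩ := r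
    cases op with
    | push k a =>
      intro x hx
      by_contra hcon
      exact hne (IsMode.push (col x) hr) ⟨x, s k a x, hs k a x, hx, hcon⟩
    | pop k a =>
      intro x hx
      by_contra hcon
      exact hne (IsMode.pop (col x) hr) ⟨x, s k a x, hs k a x, hcon, hx⟩
    | peek k a =>
      intro x hx
      by_contra hcon
      exact hne (IsMode.peek (col x) hr) ⟨x, s k a x, hs k a x, by simp, hx, hcon⟩
    | empty k =>
      intro x hx hx'
      have h6 : (TAxiom.sub (.and (D q) (Z k)) (D q')).Holds I :=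
        h4 _ hr _ (by simp [ruleAx])
      exact h6 ⟨hx, hx'⟩
    | nop =>
      intro x hx
      have h6 : (TAxiom.sub (D q) (D q')).Holds I := h4 _ hr _ (by simp [ruleAx])
      exact h6 hx
  have hZ : ∀ k (S : Stk), S k = [] → hom s (I.ind 0) S ∈ I.con (cZ k) := by
    intro k S hS'
    refine hom_empty (I.ind 0) (P := fun x => x ∈ I.con (cZ k)) (a4 k) ?_ hS'
    intro k' a x hk hx
    by_contra hcon
    exact hne (IsMode.zero a (col x) hk) ⟨x, s k' a x, hs _ _ _, hx, hcon⟩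
  rintro ⟨T, hT⟩
  have hstart : hom s (I.ind 0) (stk0 []) ∈ I.con (cD q₀) := a3
  have := sim (I.ind 0) hcomm hrule hZ hT hstart
  simp only [h1] at this
  exact this

/-! ### The intended interpretation -/

/-- weighted size of the stacks -/
def colN (S : Stk) : ℕ :=
  (S K'.main).length + 2 * (S K'.rev).length + 3 * (S K'.aux).length + 4 * (S K'.stack).length

/-- colour of stack contents -/
def col (S : Stk) : Fin 8 := ⟨colN S % 8, Nat.mod_lt _ (by norm_num)⟩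

theorem col_psh (k : K') (a : Γ') (S : Stk) : col (psh k a S) = col S + wt k := by
  apply Fin.ext
  rw [Fin.val_add]
  simp only [col, colN]
  cases k <;>
    simp only [psh, Function.update_self, ne_eq, reduceCtorEq, not_false_eq_true,
      Function.update_of_ne, List.length_cons, wt] <;>
    simp <;> omega

/-- the intended interpretation -/
def std (W : List (ℕ × Op × ℕ)) (q₀ : ℕ) : Interp Stk where
  ind := fun _ => stk0 []
  con := fun A => {S | (A = cN ∧ S = stk0 []) ∨ (∃ c, A = cC c ∧ col S = c) ∨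
    (∃ k, A = cZ k ∧ S k = []) ∨ ∃ q, A = cD q ∧ Reach W (q₀, stk0 []) (q, S)}
  rol := fun p => {x | (∃ ρ, p = rP ρ ∧ col x.1 = ρ.2.2 ∧ x.2 = psh ρ.1 ρ.2.1 x.1) ∨
    (p = rU 0 ∧ x.2 = stk0 [])}

section std

variable {W : List (ℕ × Op × ℕ)} {q₀ : ℕ}

theorem std_N : (std W q₀).con cN = {stk0 []} := by
  ext S
  simp only [std, Set.mem_ofPred_eq, Set.mem_singleton_iff]
  have h1 : ∀ c, cN ≠ cC c := by unfold cN cC; omega
  have h2 : ∀ k, cN ≠ cZ k := by unfold cN cZ; omega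
  have h3 : ∀ q, cN ≠ cD q := by unfold cN cD; omega
  simp [h1, h2, h3]

theorem std_Off : (std W q₀).con cOff = ∅ := by
  ext S
  simp only [std, Set.mem_ofPred_eq]
  have h0 : cOff ≠ cN := by unfold cOff cN; omega
  have h1 : ∀ c, cOff ≠ cC c := by unfold cOff cC; omega
  have h2 : ∀ k, cOff ≠ cZ k := by unfold cOff cZ; omega
  have h3 : ∀ q, cOff ≠ cD q := by unfold cOff cD; omega
  simp [h0, h1, h2, h3]

theorem std_C {c : Fin 8} {S : Stk} : S ∈ (std W q₀).con (cC c) ↔ col S = c := by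
  simp only [std, Set.mem_ofPred_eq]
  have h0 : cC c ≠ cN := by unfold cC cN; omega
  have h1 : ∀ c', cC c = cC c' ↔ c' = c := by
    intro c'; unfold cC; rw [Fin.ext_iff]; omega
  have h2 : ∀ k, cC c ≠ cZ k := by intro k; have := c.2; unfold cC cZ; omega
  have h3 : ∀ q, cC c ≠ cD q := by intro q; have := c.2; unfold cC cD; omega
  simp [h0, h1, h2, h3]

theorem std_Z {k : K'} {S : Stk} : S ∈ (std W q₀).con (cZ k) ↔ S k = [] := by
  simp only [std, Set.mem_ofPred_eq]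
  have h0 : cZ k ≠ cN := by unfold cZ cN; omega
  have h1 : ∀ c : Fin 8, cZ k ≠ cC c := by intro c; have := c.2; unfold cC cZ; omega
  have h2 : ∀ k', cZ k = cZ k' ↔ k' = k := by
    intro k'
    constructor
    · intro h; exact ik_inj (by unfold cZ at h; omega)
    · rintro rfl; rfl
  have h3 : ∀ q, cZ k ≠ cD q := by intro q; have := ik_lt k; unfold cZ cD; omega
  simp [h0, h1, h2, h3]

theorem std_D {q : ℕ} {S : Stk} :
    S ∈ (std W q₀).con (cD q) ↔ Reach W (q₀, stk0 []) (q, S) := by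
  simp only [std, Set.mem_ofPred_eq]
  have h0 : cD q ≠ cN := by unfold cD cN; omega
  have h1 : ∀ c : Fin 8, cD q ≠ cC c := by intro c; have := c.2; unfold cC cD; omega
  have h2 : ∀ k, cD q ≠ cZ k := by intro k; have := ik_lt k; unfold cZ cD; omega
  have h3 : ∀ q', cD q = cD q' ↔ q' = q := by intro q'; unfold cD; omega
  simp [h0, h1, h2, h3]

theorem std_P {ρ : Rl} {S S' : Stk} :
    (S, S') ∈ (std W q₀).rol (rP ρ) ↔ col S = ρ.2.2 ∧ S' = psh ρ.1 ρ.2.1 S := by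
  simp only [std, Set.mem_ofPred_eq, rP_inj]
  have h1 : rP ρ ≠ rU 0 := by unfold rP rU; omega
  simp [h1]

theorem std_U0 : (std W q₀).rol (rU 0) = {x | x.2 = stk0 []} := by
  ext x
  simp only [std, Set.mem_ofPred_eq]
  have h1 : ∀ ρ, rU 0 ≠ rP ρ := by unfold rP rU; omega
  simp [h1]

theorem std_U {m : ℕ} (h : m ≠ 0) : (std W q₀).rol (rU m) = ∅ := by
  ext x
  simp only [std, Set.mem_ofPred_eq]
  have h1 : ∀ ρ, rU m ≠ rP ρ := by unfold rP rU; omega
  have h2 : rU m ≠ rU 0 := by unfold rU; omega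
  simp [h1, h2]

theorem std_V (m : ℕ) : (std W q₀).rol (rV m) = ∅ := by
  ext x
  simp only [std, Set.mem_ofPred_eq]
  have h1 : ∀ ρ, rV m ≠ rP ρ := by unfold rP rV; omega
  have h2 : rV m ≠ rU 0 := by unfold rV rU; omega
  simp [h1, h2]

theorem std_R (m : ℕ) : (std W q₀).rol (rR m) = ∅ := by
  ext x
  simp only [std, Set.mem_ofPred_eq]
  have h1 : ∀ ρ, rR m ≠ rP ρ := by unfold rP rR; omega
  have h2 : rR m ≠ rU 0 := by unfold rR rU; omega
  simp [h1, h2]

theorem std_noerr {md : Mode} (h : IsMode W md) : ¬ Err (std W q₀) md := by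
  have hreach : ∀ {q op q' S S'}, (q, op, q') ∈ W → op.Rel S S' →
      Reach W (q₀, stk0 []) (q, S) → Reach W (q₀, stk0 []) (q', S') :=
    fun hr hrel h => h.tail ⟨_, hr, rfl, rfl, hrel⟩
  cases h with
  | push c hr =>
    rintro ⟨x, y, hxy, hx, hy⟩
    obtain ⟨-, rfl⟩ := std_P.1 hxy
    exact hy (std_D.2 (hreach hr rfl (std_D.1 hx)))
  | pop c hr =>
    rintro ⟨x, y, hxy, hx, hy⟩
    obtain ⟨-, rfl⟩ := std_P.1 hxy
    exact hx (std_D.2 (hreach hr rfl (std_D.1 hy)))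
  | peek c hr =>
    rintro ⟨x, y, hxy, hx, hy, hy'⟩
    obtain ⟨-, rfl⟩ := std_P.1 hxy
    exact hy' (std_D.2 (hreach hr ⟨⟨_, rfl⟩, rfl⟩ (std_D.1 hy)))
  | zero a c hk =>
    rintro ⟨x, y, hxy, hx, hy⟩
    obtain ⟨-, rfl⟩ := std_P.1 hxy
    apply hy
    refine std_Z.2 ?_
    have hx := std_Z.1 hx
    simp only [psh]
    rw [Function.update_of_ne (Ne.symm hk)]
    exact hx
  | comm a a' c hk =>
    rintro ⟨x, y, z, y', z', h1, h2, h3, h4, hne⟩
    obtain ⟨-, h1⟩ := std_P.1 h1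
    obtain ⟨-, h2⟩ := std_P.1 h2
    obtain ⟨-, h3⟩ := std_P.1 h3
    obtain ⟨-, h4⟩ := std_P.1 h4
    apply hne
    rw [h2, h4, h1, h3]
    exact (psh_comm hk _ _ _).symm

end std

/-- errors pass to larger push roles. -/
theorem Err.mono {I J : Interp Δ} {md : Mode} (hP : ∀ ρ, J.rol (rP ρ) ⊆ I.rol (rP ρ))
    (hl : ∀ ρ A B, md = .edge ρ A B → A.sem J = A.sem I ∧ B.sem J = B.sem I)
    (h : Err J md) : Err I md := by
  cases md with
  | std => exact h
  | off => exact h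
  | edge ρ A B =>
    obtain ⟨hA, hB⟩ := hl _ _ _ rfl
    obtain ⟨x, y, h1, h2, h3⟩ := h
    exact ⟨x, y, hP _ h1, hA ▸ h2, hB ▸ h3⟩
  | comm k a k' a' c =>
    obtain ⟨x, y, z, y', z', h1, h2, h3, h4, h5⟩ := h
    exact ⟨x, y, z, y', z', hP _ h1, hP _ h2, hP _ h3, hP _ h4, h5⟩

theorem satisfiable_of_not_reach {W : List (ℕ × Op × ℕ)} {q₀ qh : ℕ} {Q : List ℕ}
    {L : List (ℕ × Mode)} (hG : Good W q₀ qh Q L)
    (h : ¬ ∃ T, Reach W (q₀, stk0 []) (qh, T)) :
    (inp W q₀ qh Q (full L)).Satisfiable := by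
  have hz : ∀ k, stk0 [] k = [] := by intro k; cases k <;> rfl
  refine ⟨Stk, std W q₀, ⟨⟨?_, ?_, ?_⟩, ?_⟩, stk0 [], stk0 [], ?_⟩
  · show ∀ α ∈ tb W qh (full L), α.Holds (std W q₀)
    rw [holds_tb, holds_base]
    refine ⟨?_, fun x => ?_, ⟨?_, ?_, ?_, ?_⟩, ?_, ?_⟩
    · ext S
      rw [std_D]
      simp only [Set.mem_empty_iff_false, iff_false]
      exact fun hS => h ⟨S, hS⟩
    · rw [full, mem_nc_cons]
      refine Or.inl ⟨⟨stk0 [], ?_⟩, ?_⟩
      · rw [std_U0]; rfl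
      · rw [mem_typ_std]
        intro ρ hx
        exact ⟨psh ρ.1 ρ.2.1 x, std_P.2 ⟨std_C.1 hx, rfl⟩⟩
    · intro ρ x y y' h1 h2
      exact (std_P.1 h1).2.trans (std_P.1 h2).2.symm
    · intro ρ x y h1
      obtain ⟨h2, rfl⟩ := std_P.1 h1
      exact ⟨std_C.2 h2, std_C.2 (by rw [col_psh, h2])⟩
    · intro c c' x h1 h2
      exact (std_C.1 h1).symm.trans (std_C.1 h2)
    · intro x
      exact ⟨col x, std_C.2 rfl⟩
    · rintro ⟨q, op, q'⟩ hr
      cases op with
      | push k a => simp [ruleAx]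
      | pop k a => simp [ruleAx]
      | peek k a => simp [ruleAx]
      | empty k =>
        simp only [ruleAx, List.mem_singleton, forall_eq]
        rintro x ⟨hx, hx'⟩
        exact std_D.2 ((std_D.1 hx).tail ⟨_, hr, rfl, rfl, std_Z.1 hx', rfl⟩)
      | nop =>
        simp only [ruleAx, List.mem_singleton, forall_eq]
        rintro x hx
        exact std_D.2 ((std_D.1 hx).tail ⟨_, hr, rfl, rfl, rfl⟩)
    · rintro ⟨m, md⟩ hp
      rw [holds_modeAx, std_V, std_R]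
      refine ⟨?_, fun x y h => h.elim, fun x y h => h.elim⟩
      intro x y hxy
      by_cases hm : m = 0
      · subst hm
        simp only at hxy
        rw [std_U0] at hxy
        rw [std_N]
        exact hxy
      · simp only at hxy
        rw [std_U hm] at hxy
        exact hxy.elim
  · show ∀ α ∈ ab q₀, α.Holds (std W q₀)
    rw [holds_ab]
    refine ⟨?_, std_C.2 ?_, std_D.2 ReflTransGen.refl, fun k => std_Z.2 (hz k)⟩
    · rw [std_N]; rfl
    · show col (stk0 []) = 0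
      rfl
  · have hset : {a | ∃ α ∈ (inp W q₀ qh Q (full L)).abox, a ∈ α.inds} ⊆ {0} := by
      rintro a ⟨α, hα, ha⟩
      have hα : α ∈ ab q₀ := hα
      simp only [ab, List.mem_cons, List.mem_map] at hα
      rcases hα with rfl | rfl | rfl | ⟨k, _, rfl⟩ <;> exact ha
    exact fun a ha b hb _ => (hset ha).trans (hset hb).symm
  · rintro J ⟨hT, hA, -⟩ ⟨hind, hfix, hmin, p, hp, ⟨hle, hne⟩, hpq⟩
    have hT : ∀ α ∈ tb W qh (full L), α.Holds J := hT
    rw [holds_tb] at hT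
    obtain ⟨-, h2, -, -, h5⟩ := hT
    have hA : ∀ α ∈ ab q₀, α.Holds J := hA
    rw [holds_ab] at hA
    have hN : J.con cN = {stk0 []} := by
      refine Set.Subset.antisymm ?_ ?_
      · by_contra hcon
        obtain ⟨q, _, hq, _⟩ := hmin (.con cN) (mem_min.2 (Or.inl rfl)) (by
          show ¬ J.con cN ⊆ (std W q₀).con cN
          rw [std_N]; exact hcon)
        obtain ⟨-, h | ⟨ρ, h⟩⟩ := mem_prec.1 hq
        · simp [cN, cOff] at h
        · simp at h
      · rintro _ rfl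
        have := hA.1
        rw [hind] at this
        exact this
    have hle' : ∀ p ∈ (inp W q₀ qh Q (full L)).minimized, p.Le J (std W q₀) := by
      intro p hp
      by_contra hcon
      obtain ⟨q, _, hq, _, hq'⟩ := hmin p hp hcon
      obtain ⟨rfl, -⟩ := mem_prec.1 hq
      exact hq' (hN.trans std_N.symm)
    have hOff : J.con cOff = ∅ := by
      have : J.con cOff ⊆ (std W q₀).con cOff := hle' (.con cOff) (mem_min.2 (Or.inr (Or.inl rfl)))
      rw [std_Off] at this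
      exact Set.subset_empty_iff.1 this
    have hPle : ∀ ρ, J.rol (rP ρ) ⊆ (std W q₀).rol (rP ρ) := fun ρ =>
      hle' (.rol (rP ρ)) (mem_min.2 (Or.inr (Or.inr ⟨ρ, rfl⟩)))
    obtain ⟨⟨m, md⟩, hmem, htyp⟩ := global hN h5 h2
    obtain ⟨-, -, hR⟩ := holds_modeAx.1 (h5 _ hmem)
    simp only at htyp hR
    have hmem' : (m = 0 ∧ md = .std) ∨ (m = 1 ∧ md = .off) ∨ (m, md) ∈ L := by
      simpa [full] using hmem
    rcases hmem' with ⟨-, rfl⟩ | ⟨-, rfl⟩ | hmem'
    · have hPeq : ∀ ρ, J.rol (rP ρ) = (std W q₀).rol (rP ρ) := by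
        intro ρ
        refine Set.Subset.antisymm (hPle ρ) ?_
        rintro ⟨x, y⟩ hxy
        obtain ⟨h6, h7⟩ := std_P.1 hxy
        have h8 : x ∈ J.con (cC ρ.2.2) := by
          have : J.con (cC ρ.2.2) = (std W q₀).con (cC ρ.2.2) := hfix _ (fixed_C _)
          rw [this]
          exact std_C.2 h6
        obtain ⟨y', hy'⟩ := mem_typ_std.1 (htyp x) ρ h8
        have h9 := (std_P.1 (hPle ρ hy')).2
        rw [h7, ← h9]
        exact hy'
      rcases mem_min.1 hp with rfl | rfl | ⟨ρ, rfl⟩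
      · exact hne (hN.trans std_N.symm)
      · exact hne (hOff.trans std_Off.symm)
      · exact hne (hPeq ρ)
    · have h6 := htyp (stk0 [])
      simp only [typ, Concept.mem_and, Concept.mem_exn] at h6
      obtain ⟨⟨y, hy⟩, -⟩ := h6
      have h7 := hR _ _ hy
      simp only [src, Concept.mem_and, Concept.mem_atom, hOff] at h7
      exact h7.2
    · have hmode := (hG.modes md).1 ⟨m, hmem'⟩
      refine std_noerr (q₀ := q₀) hmode ((err_of_typ hmode htyp hR (stk0 [])).mono hPle ?_)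
      refine (hmode.loc hG.states).sem_eq ?_
      rintro A (⟨k, rfl⟩ | ⟨q, hq, rfl⟩)
      · exact hfix _ (fixed_Z k)
      · exact hfix _ (fixed_D hq)
  · rw [show Role.sem (std W q₀) (Role.name (rU 0)) = (std W q₀).rol (rU 0) from rfl, std_U0]
    rfl

end QF

end Pool.Agent.Lib.MP_9ab704_lc
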