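import Pool.Agent.Lib.MP_9ab704_lc.QR

/-!
# Undecidability from the reduction
-/

namespace Pool.Agent.Lib.MP_9ab704_lc

open Turing PartrecToTM2 Relation Encodable
open Pool.Agent.Lib.MP_8d6ead_lc (Stk Op psh Step Reach stk0 syms mem_syms ik ia stks mem_stks prs
  mem_prs psh_injective psh_comm trNat_even trNat_odd exists_rules_nat)

/-- evaluation of the program with number `n` at `0` -/
def diag : ℕ →. ℕ := fun n => (Denumerable.ofNat Nat.Partrec.Code n).eval 0

theorem diag_partrec : Partrec diag :=
  Nat.Partrec.Code.eval_part.comp (Computable.ofNat _) (Computable.const 0)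

theorem diag_undec (f : ℕ → Bool) (hf : Computable f)
    (h : ∀ n, f n = true ↔ ¬ (diag n).Dom) : False := by
  have h1 : ComputablePred fun c : Nat.Partrec.Code => (c.eval 0).Dom := by
    rw [ComputablePred.computable_iff]
    refine ⟨fun c => !f (encode c), (Primrec.not.to_comp).comp (hf.comp Computable.encode), ?_⟩
    funext c
    have := h (encode c)
    simp only [diag, Denumerable.ofNat_encode] at this
    apply propext
    show (c.eval 0).Dom ↔ (!f (encode c)) = true
    rcases hfc : f (encode c) with _ | _
    · simp only [hfc, Bool.false_eq_true, false_iff, not_not] at this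
      simp [this]
    · simp only [hfc, true_iff] at this
      simp [this]
  exact ComputablePred.halting_problem 0 h1

/-- If an input is undecidable in data complexity then satisfiability is undecidable. -/
theorem not_satDecidable {K : Input → Prop} (x : Input) (hwf : x.WellFormed)
    (hK : ∀ A, K {x with abox := A}) (h : ¬ x.DataDecidable) : ¬ SatDecidable K := by
  rintro ⟨f, hf, hdec⟩
  refine h ⟨fun a => f (Nat.pair x.query.code <|
    Nat.pair (Encodable.encode (x.tbox.map TAxiom.code)) <| Nat.pair a <|
    Nat.pair (Encodable.encode (x.minimized.map Pred.code)) <|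
    Nat.pair (Encodable.encode (x.fixed.map Pred.code))
      (Encodable.encode (x.prec.map fun e => Nat.pair e.1.code e.2.code))), ?_, fun A => ?_⟩
  · refine hf.comp (Primrec.to_comp ?_)
    exact Primrec₂.natPair.comp (Primrec.const _) (Primrec₂.natPair.comp (Primrec.const _)
      (Primrec₂.natPair.comp Primrec.id (Primrec.const _)))
  · exact hdec {x with abox := A} hwf (hK A)

namespace QR

theorem rS_bit_primrec : Primrec fun v : ℕ => rS K'.main (bitOf v) := by
  have : (fun v : ℕ => rS K'.main (bitOf v)) =
      fun v => if v % 2 = 0 then rS K'.main Γ'.bit0 else rS K'.main Γ'.bit1 := by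
    funext v
    unfold bitOf
    split_ifs <;> rfl
  rw [this]
  exact Primrec.ite (Primrec.eq.comp (Primrec.nat_mod.comp Primrec.id (Primrec.const 2))
      (Primrec.const 0)) (Primrec.const _) (Primrec.const _)

theorem ab_primrec (q₀ : ℕ) : Primrec fun n => encode ((ab q₀ n).map Assertion.code) := by
  refine Primrec.encode.comp ?_
  have h1 : (fun n => (ab q₀ n).map Assertion.code) = fun n =>
      (([.con (cD q₀) (n + 1), .rol (rS K'.main Γ'.cons) 0 1] ++
        (stks.map fun k => .con (cZ k) 0) : List Assertion).map Assertion.code) ++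
      ((List.range n).map fun v => 2 * Nat.pair (rS K'.main (bitOf (v + 1)))
        (Nat.pair ((v + 1) / 2 + 1) (v + 2)) + 1) := by
    funext n
    unfold ab
    rw [List.map_append, List.map_map]
    rfl
  rw [h1]
  refine Primrec.list_append.comp ?_ ?_
  · have h2 : (fun n : ℕ => (([.con (cD q₀) (n + 1), .rol (rS K'.main Γ'.cons) 0 1] ++
        (stks.map fun k => .con (cZ k) 0) : List Assertion).map Assertion.code)) =
        fun n => (2 * Nat.pair (cD q₀) (n + 1)) :: ((.rol (rS K'.main Γ'.cons) 0 1 ::
        (stks.map fun k => .con (cZ k) 0) : List Assertion).map Assertion.code) := by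
      funext n; rfl
    rw [h2]
    refine Primrec.list_cons.comp ?_ (Primrec.const _)
    exact Primrec.nat_mul.comp (Primrec.const 2)
      (Primrec₂.natPair.comp (Primrec.const _) Primrec.succ)
  · refine Primrec.list_map Primrec.list_range ?_
    have hs : Primrec fun p : ℕ × ℕ => p.2 + 1 := Primrec.succ.comp Primrec.snd
    refine Primrec.nat_add.comp (Primrec.nat_mul.comp (Primrec.const 2)
      (Primrec₂.natPair.comp (rS_bit_primrec.comp hs) (Primrec₂.natPair.comp ?_ ?_)))
      (Primrec.const 1)
    · exact Primrec.succ.comp (Primrec.nat_div.comp hs (Primrec.const 2))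
    · exact Primrec.succ.comp hs

theorem wellFormed (R : List (ℕ × Op × ℕ)) (q₀ qh : ℕ) (A : List Assertion) :
    (inp R q₀ qh A).WellFormed := by
  refine ⟨?_, ?_, ?_, ?_⟩
  · intro p hp hp'
    obtain ⟨B, hB, rfl⟩ := of_mem_fixed hp'
    simp only [inp, List.mem_cons, List.mem_map, Pred.con.injEq, reduceCtorEq, and_false,
      exists_false, or_false] at hp
    rcases hB with ⟨k, hk⟩ | ⟨q, _, hq⟩
    · exact cZ_ne_cOk k (hk ▸ hp)
    · exact cD_ne_cOk q (hq ▸ hp)
  · intro q p h; simp [inp] at h
  · intro p h; simp [inp] at h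
  · intro r q p h; simp [inp] at h

theorem inR (R : List (ℕ × Op × ℕ)) (q₀ qh : ℕ) (A : List Assertion) :
    (inp R q₀ qh A).InR := by
  intro S h
  have h : TAxiom.func S ∈ tb R qh := h
  unfold tb at h
  simp only [List.mem_append, List.mem_cons, List.mem_flatMap, List.mem_map, reduceCtorEq,
    List.not_mem_nil, or_false, false_or, and_false, exists_false] at h
  rcases h with ⟨⟨q, op, q'⟩, hr, h⟩ | ⟨⟨md, m⟩, _, h⟩
  · cases op <;> simp [ruleAx] at h
  · cases md <;> simp [modeAx] at h

/-- a fixed TBox with role inclusions, pattern and query for which satisfiability is undecidable -/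
theorem exists_dataUndecidable :
    ∃ x : Input, x.WellFormed ∧ (∀ A, ({x with abox := A} : Input).InR) ∧ x.prec = [] ∧
      ¬ x.DataDecidable := by
  obtain ⟨R, q₀, qh, hR⟩ := exists_rules_nat diag diag_partrec
  refine ⟨inp R q₀ qh [], wellFormed _ _ _ _, fun A => inR R q₀ qh A, rfl, ?_⟩
  rintro ⟨f, hf, hdec⟩
  refine diag_undec (fun n => f (encode ((ab q₀ n).map Assertion.code)))
    (hf.comp (ab_primrec q₀).to_comp) fun n => ?_
  rw [hdec (ab q₀ n), hR n]
  exact ⟨not_reach_of_satisfiable, satisfiable_of_not_reach⟩

/-- Satisfiability relative to circumscribed knowledge bases with role inclusions is undecidable,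
even for patterns with empty preference relation. -/
theorem not_satDecidable : ¬ SatDecidable fun x => x.InR ∧ x.prec = [] := by
  obtain ⟨x, hwf, hR, hp, hx⟩ := exists_dataUndecidable
  exact Pool.Agent.Lib.MP_9ab704_lc.not_satDecidable x hwf (fun A => ⟨hR A, hp⟩) hx

end QR

end Pool.Agent.Lib.MP_9ab704_lc
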