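import Pool.Agent.Lib.MP_9ab704_lc.QFMain
import Pool.Agent.Lib.MP_9ab704_lc.Undec

/-!
# The reduction for functionality assertions: undecidability
-/

namespace Pool.Agent.Lib.MP_9ab704_lc

open Turing PartrecToTM2 Relation Encodable
open Pool.Agent.Lib.MP_8d6ead_lc (Stk Op psh Step Reach stk0 syms mem_syms ik ia stks mem_stks prs
  mem_prs psh_injective psh_comm trNat_even trNat_odd exists_rules_nat)

variable {Δ : Type}

namespace QF

/-! ### The rule system with the input built in -/

/-- renaming of states -/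
def ren (r : ℕ × Op × ℕ) : ℕ × Op × ℕ := (2 * r.1 + 2, r.2.1, 2 * r.2.2 + 2)

/-- the rules that do not depend on the input -/
def fixR (R : List (ℕ × Op × ℕ)) : List (ℕ × Op × ℕ) :=
  (0, .push K'.main Γ'.cons, 1) :: R.map ren

/-- the rules that write the input -/
def chainR (v : ℕ) : ℕ × Op × ℕ :=
  (2 * ((v + 1) / 2) + 1, .push K'.main (bitOf (v + 1)), 2 * (v + 1) + 1)

/-- the whole rule system -/
def sysW (R : List (ℕ × Op × ℕ)) (q₀ n : ℕ) : List (ℕ × Op × ℕ) :=
  fixR R ++ ((2 * n + 1, .nop, 2 * q₀ + 2) :: (List.range n).map chainR)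

theorem mem_sysW {R : List (ℕ × Op × ℕ)} {q₀ n : ℕ} {r} : r ∈ sysW R q₀ n ↔
    r = (0, .push K'.main Γ'.cons, 1) ∨ (∃ r' ∈ R, ren r' = r) ∨ r = (2 * n + 1, .nop, 2 * q₀ + 2) ∨
      ∃ v < n, chainR v = r := by
  simp only [sysW, fixR, List.mem_append, List.mem_cons, List.mem_map, List.mem_range]
  rw [or_assoc]

theorem reach_chain {R : List (ℕ × Op × ℕ)} {q₀ n : ℕ} : ∀ v ≤ n,
    Reach (sysW R q₀ n) (0, stk0 []) (2 * v + 1, stk0 (trList [v])) := by
  intro v
  induction v using Nat.strong_induction_on with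
  | _ v ih =>
    intro hv
    match v, ih, hv with
    | 0, _, _ =>
      refine ReflTransGen.single ⟨(0, .push K'.main Γ'.cons, 1), mem_sysW.2 (Or.inl rfl), rfl, rfl, ?_⟩
      show stk0 (trList [0]) = psh K'.main Γ'.cons (stk0 [])
      rw [psh_stk0, trList_zero]
    | v + 1, ih, hv =>
      refine (ih ((v + 1) / 2) (by omega) (by omega)).tail ⟨chainR v,
        mem_sysW.2 (Or.inr (Or.inr (Or.inr ⟨v, by omega, rfl⟩))), rfl, rfl, ?_⟩
      show stk0 (trList [v + 1]) = psh K'.main (bitOf (v + 1)) (stk0 (trList [(v + 1) / 2]))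
      rw [psh_stk0, trList_bit (by omega)]

theorem reach_sysW {R : List (ℕ × Op × ℕ)} {q₀ qh n : ℕ} :
    (∃ T, Reach (sysW R q₀ n) (0, stk0 []) (2 * qh + 2, T)) ↔
      ∃ T, Reach R (q₀, stk0 (trList [n])) (qh, T) := by
  constructor
  · rintro ⟨T, hT⟩
    have key : ∀ c, Reach (sysW R q₀ n) (0, stk0 []) c →
        c = (0, stk0 []) ∨ (∃ v, c = (2 * v + 1, stk0 (trList [v]))) ∨
        ∃ q S, c = (2 * q + 2, S) ∧ Reach R (q₀, stk0 (trList [n])) (q, S) := by
      intro c hc
      induction hc with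
      | refl => exact Or.inl rfl
      | @tail b c _ h ih =>
        obtain ⟨r, hr, h1, h2, h3⟩ := h
        obtain ⟨c1, c2⟩ := c
        simp only at h2 h3
        rcases mem_sysW.1 hr with rfl | ⟨r', hr', rfl⟩ | rfl | ⟨v, hv, rfl⟩
        · rcases ih with rfl | ⟨v, rfl⟩ | ⟨q, S, rfl, -⟩
          · refine Or.inr (Or.inl ⟨0, ?_⟩)
            have h3 : c2 = psh K'.main Γ'.cons (stk0 []) := h3
            rw [h3, ← h2, psh_stk0, trList_zero]
          · simp at h1
          · simp at h1
        · rcases ih with rfl | ⟨v, rfl⟩ | ⟨q, S, rfl, hS⟩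
          · simp [ren] at h1
          · simp only [ren] at h1; omega
          · simp only [ren] at h1 h2 h3
            have : r'.1 = q := by omega
            subst this
            refine Or.inr (Or.inr ⟨r'.2.2, c2, by rw [← h2], hS.tail ⟨r', hr', rfl, rfl, h3⟩⟩)
        · rcases ih with rfl | ⟨v, rfl⟩ | ⟨q, S, rfl, -⟩
          · simp at h1
          · simp only at h1 h2 h3
            have : n = v := by omega
            subst this
            have h3 : c2 = stk0 (trList [n]) := h3
            refine Or.inr (Or.inr ⟨q₀, c2, by rw [← h2], ?_⟩)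
            rw [h3]
            exact ReflTransGen.refl
          · simp only at h1; omega
        · rcases ih with rfl | ⟨w, rfl⟩ | ⟨q, S, rfl, -⟩
          · simp [chainR] at h1
          · simp only [chainR] at h1 h2 h3
            have h3 : c2 = psh K'.main (bitOf (v + 1)) (stk0 (trList [w])) := h3
            have : w = (v + 1) / 2 := by omega
            subst this
            refine Or.inr (Or.inl ⟨v + 1, ?_⟩)
            rw [h3, ← h2, psh_stk0, ← trList_bit (by omega)]
          · simp only [chainR] at h1; omega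
    rcases key _ hT with h | ⟨v, h⟩ | ⟨q, S, h, hS⟩
    · simp at h
    · simp only [Prod.mk.injEq] at h; omega
    · simp only [Prod.mk.injEq] at h
      have : qh = q := by omega
      subst this
      exact ⟨S, hS⟩
  · rintro ⟨T, hT⟩
    refine ⟨T, ?_⟩
    have h1 : Reach (sysW R q₀ n) (0, stk0 []) (2 * q₀ + 2, stk0 (trList [n])) := by
      refine (reach_chain n le_rfl).tail ⟨(2 * n + 1, .nop, 2 * q₀ + 2),
        mem_sysW.2 (Or.inr (Or.inr (Or.inl rfl))), rfl, rfl, rfl⟩
    refine h1.trans ?_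
    have key : ∀ c, Reach R (q₀, stk0 (trList [n])) c →
        Reach (sysW R q₀ n) (2 * q₀ + 2, stk0 (trList [n])) (2 * c.1 + 2, c.2) := by
      intro c hc
      induction hc with
      | refl => exact ReflTransGen.refl
      | tail _ h ih =>
        obtain ⟨r, hr, h1, h2, h3⟩ := h
        refine ih.tail ⟨ren r, mem_sysW.2 (Or.inr (Or.inl ⟨r, hr, rfl⟩)), ?_, ?_, h3⟩
        · simp [ren, h1]
        · simp [ren, h2]
    exact key _ hT

/-! ### The modes -/

/-- modes for a rule -/
def ruleModes : ℕ × Op × ℕ → List Mode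
  | (q, .push k a, q') => (List.finRange 8).map fun c => .edge (k, a, c) (D q) (.neg (D q'))
  | (q, .pop k a, q') => (List.finRange 8).map fun c => .edge (k, a, c) (.neg (D q')) (D q)
  | (q, .peek k a, q') => (List.finRange 8).map fun c =>
      .edge (k, a, c) .top (.and (D q) (.neg (D q')))
  | (_, .empty _, _) => []
  | (_, .nop, _) => []

/-- the modes that do not depend on the input -/
def fixM (R : List (ℕ × Op × ℕ)) : List Mode :=
  (fixR R).flatMap ruleModes ++
  (rls.flatMap fun ρ => (stks.filter fun k => decide (ρ.1 ≠ k)).map fun k =>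
    .edge ρ (Z k) (.neg (Z k))) ++
  (rls.flatMap fun ρ => (prs.filter fun p => decide (ρ.1 ≠ p.1)).map fun p =>
    .comm ρ.1 ρ.2.1 p.1 p.2 ρ.2.2)

/-- the mode for writing the input -/
def chainM (v : ℕ) (c : Fin 8) : ℕ × Mode :=
  (2 * (8 * v + c) + 3, .edge (K'.main, bitOf (v + 1), c) (D (2 * ((v + 1) / 2) + 1))
    (.neg (D (2 * (v + 1) + 1))))

/-- labelled modes that do not depend on the input -/
def fixL (R : List (ℕ × Op × ℕ)) : List (ℕ × Mode) :=
  (fixM R).zipIdx.map fun p => (2 * p.2 + 2, p.1)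

/-- labelled modes that depend on the input -/
def chainL (n : ℕ) : List (ℕ × Mode) :=
  (List.range n).flatMap fun v => (List.finRange 8).map (chainM v)

/-- all labelled modes -/
def sysL (R : List (ℕ × Op × ℕ)) (n : ℕ) : List (ℕ × Mode) := fixL R ++ chainL n

/-- states that do not depend on the input -/
def fixQ (R : List (ℕ × Op × ℕ)) (q₀ qh : ℕ) : List ℕ :=
  [0, 2 * q₀ + 2, 2 * qh + 2] ++ R.flatMap fun r => [2 * r.1 + 2, 2 * r.2.2 + 2]

/-- all states -/
def sysQ (R : List (ℕ × Op × ℕ)) (q₀ qh n : ℕ) : List ℕ :=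
  fixQ R q₀ qh ++ (List.range (n + 1)).map fun v => 2 * v + 1

theorem mem_ruleModes {W : List (ℕ × Op × ℕ)} {r} (hr : r ∈ W) {md} (h : md ∈ ruleModes r) :
    IsMode W md := by
  obtain ⟨q, op, q'⟩ := r
  cases op <;> simp only [ruleModes, List.mem_map, List.mem_finRange, true_and,
    List.not_mem_nil] at h
  · obtain ⟨c, rfl⟩ := h; exact IsMode.push c hr
  · obtain ⟨c, rfl⟩ := h; exact IsMode.pop c hr
  · obtain ⟨c, rfl⟩ := h; exact IsMode.peek c hr

theorem mem_fixM {R : List (ℕ × Op × ℕ)} {md : Mode} : md ∈ fixM R ↔ IsMode (fixR R) md := by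
  unfold fixM
  simp only [List.mem_append, List.mem_flatMap, List.mem_map, List.mem_filter,
    decide_eq_true_eq]
  constructor
  · rintro ((⟨r, hr, h⟩ | ⟨ρ, _, k, ⟨_, hk⟩, rfl⟩) | ⟨ρ, _, p, ⟨_, hk⟩, rfl⟩)
    · exact mem_ruleModes hr h
    · exact IsMode.zero _ _ hk
    · exact IsMode.comm _ _ _ hk
  · intro h
    cases h with
    | push c h => exact Or.inl (Or.inl ⟨_, h, by
        simp only [ruleModes, List.mem_map]; exact ⟨c, List.mem_finRange c, rfl⟩⟩)
    | pop c h => exact Or.inl (Or.inl ⟨_, h, by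
        simp only [ruleModes, List.mem_map]; exact ⟨c, List.mem_finRange c, rfl⟩⟩)
    | peek c h => exact Or.inl (Or.inl ⟨_, h, by
        simp only [ruleModes, List.mem_map]; exact ⟨c, List.mem_finRange c, rfl⟩⟩)
    | @zero k k' a c h => exact Or.inl (Or.inr ⟨(k', a, c), mem_rls _, k, ⟨mem_stks k, h⟩, rfl⟩)
    | @comm k k' a a' c h => exact Or.inr ⟨(k, a, c), mem_rls _, (k', a'), ⟨mem_prs _, h⟩, rfl⟩

theorem IsMode.mono {W W' : List (ℕ × Op × ℕ)} (hW : W ⊆ W') {md : Mode} (h : IsMode W md) :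
    IsMode W' md := by
  cases h with
  | push c h => exact .push c (hW h)
  | pop c h => exact .pop c (hW h)
  | peek c h => exact .peek c (hW h)
  | zero a c h => exact .zero a c h
  | comm a a' c h => exact .comm a a' c h

theorem mem_fixL {R : List (ℕ × Op × ℕ)} {m : ℕ} {md : Mode} : (m, md) ∈ fixL R ↔
    ∃ i, (fixM R)[i]? = some md ∧ m = 2 * i + 2 := by
  simp only [fixL, List.mem_map, Prod.mk.injEq]
  constructor
  · rintro ⟨⟨md', i⟩, h, h1, rfl⟩
    exact ⟨i, List.mk_mem_zipIdx_iff_getElem?.1 h, h1.symm⟩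
  · rintro ⟨i, h, h1⟩
    exact ⟨(md, i), List.mk_mem_zipIdx_iff_getElem?.2 h, h1.symm, rfl⟩

theorem mem_chainL {n m : ℕ} {md : Mode} : (m, md) ∈ chainL n ↔
    ∃ v < n, ∃ c, chainM v c = (m, md) := by
  simp only [chainL, List.mem_flatMap, List.mem_range, List.mem_map, List.mem_finRange, true_and]

theorem good (R : List (ℕ × Op × ℕ)) (q₀ qh n : ℕ) :
    Good (sysW R q₀ n) 0 (2 * qh + 2) (sysQ R q₀ qh n) (sysL R n) where
  start := by simp [sysQ, fixQ]
  halt := by simp [sysQ, fixQ]
  states := by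
    intro r hr
    have hodd : ∀ v, v ≤ n → 2 * v + 1 ∈ sysQ R q₀ qh n := by
      intro v hv
      simp only [sysQ, List.mem_append, List.mem_map, List.mem_range]
      exact Or.inr ⟨v, by omega, rfl⟩
    have hfix : ∀ q, q ∈ fixQ R q₀ qh → q ∈ sysQ R q₀ qh n := by
      intro q hq
      simp only [sysQ, List.mem_append]
      exact Or.inl hq
    rcases mem_sysW.1 hr with rfl | ⟨r', hr', rfl⟩ | rfl | ⟨v, hv, rfl⟩
    · exact ⟨hfix _ (by simp [fixQ]), hodd 0 (Nat.zero_le _)⟩
    · constructor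
      · apply hfix
        simp only [fixQ, List.mem_append, List.mem_flatMap]
        exact Or.inr ⟨r', hr', by simp [ren]⟩
      · apply hfix
        simp only [fixQ, List.mem_append, List.mem_flatMap]
        exact Or.inr ⟨r', hr', by simp [ren]⟩
    · exact ⟨hodd n le_rfl, hfix _ (by simp [fixQ])⟩
    · exact ⟨hodd _ (by omega), hodd _ (by omega)⟩
  modes := by
    intro md
    constructor
    · rintro ⟨m, hm⟩
      rw [sysL, List.mem_append, mem_fixL, mem_chainL] at hm
      rcases hm with ⟨i, hi, -⟩ | ⟨v, hv, c, h⟩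
      · refine (mem_fixM.1 (List.mem_of_getElem? hi)).mono ?_
        exact List.subset_append_left _ _
      · simp only [chainM, Prod.mk.injEq] at h
        rw [← h.2]
        exact IsMode.push c (mem_sysW.2 (Or.inr (Or.inr (Or.inr ⟨v, hv, rfl⟩))))
    · intro h
      have hfix : IsMode (fixR R) md → ∃ m, (m, md) ∈ sysL R n := by
        intro h
        obtain ⟨i, hi, hi'⟩ := List.mem_iff_getElem.1 (mem_fixM.2 h)
        refine ⟨2 * i + 2, ?_⟩
        rw [sysL, List.mem_append, mem_fixL]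
        exact Or.inl ⟨i, by rw [List.getElem?_eq_getElem hi, hi'], rfl⟩
      have hrule : ∀ r ∈ sysW R q₀ n, ∀ k a, r.2.1 = .push k a → ∀ c,
          ∃ m, (m, Mode.edge (k, a, c) (D r.1) (.neg (D r.2.2))) ∈ sysL R n := by
        intro r hr k a hk c
        rcases mem_sysW.1 hr with rfl | ⟨r', hr', rfl⟩ | rfl | ⟨v, hv, rfl⟩
        · simp only [Op.push.injEq] at hk
          obtain ⟨rfl, rfl⟩ := hk
          obtain ⟨i, hi, hi'⟩ := List.mem_iff_getElem.1 (mem_fixM.2
            (IsMode.push (W := fixR R) (q := 0) (q' := 1) (k := K'.main) (a := Γ'.cons) c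
              (by simp [fixR])))
          refine ⟨2 * i + 2, ?_⟩
          rw [sysL, List.mem_append, mem_fixL]
          exact Or.inl ⟨i, by rw [List.getElem?_eq_getElem hi, hi'], rfl⟩
        · obtain ⟨q, op, q'⟩ := r'
          simp only [ren] at hk
          subst hk
          obtain ⟨i, hi, hi'⟩ := List.mem_iff_getElem.1 (mem_fixM.2
            (IsMode.push (W := fixR R) (q := 2 * q + 2) (q' := 2 * q' + 2) (k := k) (a := a) c (by
              simp only [fixR, List.mem_cons, List.mem_map]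
              exact Or.inr ⟨_, hr', rfl⟩)))
          refine ⟨2 * i + 2, ?_⟩
          rw [sysL, List.mem_append, mem_fixL]
          exact Or.inl ⟨i, by rw [List.getElem?_eq_getElem hi, hi']; rfl, rfl⟩
        · simp at hk
        · simp only [chainR, Op.push.injEq] at hk
          obtain ⟨rfl, rfl⟩ := hk
          refine ⟨2 * (8 * v + c) + 3, ?_⟩
          rw [sysL, List.mem_append, mem_chainL]
          exact Or.inr ⟨v, hv, c, rfl⟩
      have hother : ∀ r ∈ sysW R q₀ n, (∀ k a, r.2.1 ≠ .push k a) → (r.2.1 ≠ .nop) →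
          r ∈ fixR R := by
        intro r hr h1 h2
        rcases mem_sysW.1 hr with rfl | ⟨r', hr', rfl⟩ | rfl | ⟨v, hv, rfl⟩
        · exact absurd rfl (h1 _ _)
        · simp only [fixR, List.mem_cons, List.mem_map]
          exact Or.inr ⟨_, hr', rfl⟩
        · exact absurd rfl h2
        · exact absurd rfl (h1 _ _)
      cases h with
      | push c h => exact hrule _ h _ _ rfl c
      | pop c h => exact hfix (.pop c (hother _ h (by simp) (by simp)))
      | peek c h => exact hfix (.peek c (hother _ h (by simp) (by simp)))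
      | zero a c h => exact hfix (.zero a c h)
      | comm a a' c h => exact hfix (.comm a a' c h)
  labels := by
    intro m md md' h h'
    have key : ∀ md, (m, md) ∈ (0, Mode.std) :: (1, Mode.off) :: sysL R n →
        (m = 0 ∧ md = .std) ∨ (m = 1 ∧ md = .off) ∨
        (∃ i, (fixM R)[i]? = some md ∧ m = 2 * i + 2) ∨ ∃ v c, chainM v c = (m, md) := by
      intro md h
      simp only [sysL, List.mem_cons, Prod.mk.injEq, List.mem_append, mem_fixL, mem_chainL] at h
      rcases h with h | h | h | ⟨v, _, c, h⟩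
      · exact Or.inl h
      · exact Or.inr (Or.inl h)
      · exact Or.inr (Or.inr (Or.inl h))
      · exact Or.inr (Or.inr (Or.inr ⟨v, c, h⟩))
    rcases key md h with ⟨h1, rfl⟩ | ⟨h1, rfl⟩ | ⟨i, h1, h2⟩ | ⟨v, c, h1⟩ <;>
    rcases key md' h' with ⟨h1', rfl⟩ | ⟨h1', rfl⟩ | ⟨i', h1', h2'⟩ | ⟨v', c', h1'⟩
    · rfl
    · omega
    · omega
    · simp only [chainM, Prod.mk.injEq] at h1'; omega
    · omega
    · rfl
    · omega
    · simp only [chainM, Prod.mk.injEq] at h1'; omega
    · omega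
    · omega
    · have : i = i' := by omega
      subst this
      rw [h1] at h1'
      exact Option.some.inj h1'
    · simp only [chainM, Prod.mk.injEq] at h1'; omega
    · simp only [chainM, Prod.mk.injEq] at h1; omega
    · simp only [chainM, Prod.mk.injEq] at h1; omega
    · simp only [chainM, Prod.mk.injEq] at h1; omega
    · have hm : v = v' ∧ c = c' := by
        simp only [chainM, Prod.mk.injEq] at h1 h1'
        have := c.2
        have := c'.2
        exact ⟨by omega, Fin.ext (by omega)⟩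
      obtain ⟨rfl, rfl⟩ := hm
      rw [h1] at h1'
      exact (Prod.mk.inj h1').2

/-- the inputs of the reduction -/
def sysI (R : List (ℕ × Op × ℕ)) (q₀ qh n : ℕ) : Input :=
  inp (sysW R q₀ n) 0 (2 * qh + 2) (sysQ R q₀ qh n) (full (sysL R n))

theorem sysI_iff (R : List (ℕ × Op × ℕ)) (q₀ qh n : ℕ) :
    (sysI R q₀ qh n).Satisfiable ↔ ¬ ∃ T, Reach R (q₀, stk0 (trList [n])) (qh, T) := by
  rw [← reach_sysW]
  exact ⟨not_reach_of_satisfiable (good R q₀ qh n), satisfiable_of_not_reach (good R q₀ qh n)⟩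

theorem wellFormed (W : List (ℕ × Op × ℕ)) (q₀ qh : ℕ) (Q : List ℕ) (L : List (ℕ × Mode)) :
    (inp W q₀ qh Q L).WellFormed := by
  refine ⟨?_, ?_, ?_, ?_⟩
  · intro p hp hp'
    rcases mem_min.1 hp with rfl | rfl | ⟨ρ, rfl⟩
    · rcases mem_fixed hp' with ⟨c, h⟩ | ⟨k, h⟩ | ⟨q, _, h⟩ <;>
        simp only [Pred.con.injEq, cN, cC, cZ, cD] at h <;> omega
    · rcases mem_fixed hp' with ⟨c, h⟩ | ⟨k, h⟩ | ⟨q, _, h⟩ <;>
        simp only [Pred.con.injEq, cOff, cC, cZ, cD] at h <;> omega
    · rcases mem_fixed hp' with ⟨c, h⟩ | ⟨k, h⟩ | ⟨q, _, h⟩ <;> simp at h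
  · intro q p h
    obtain ⟨rfl, h1⟩ := mem_prec.1 h
    exact ⟨mem_min.2 (Or.inl rfl), mem_min.2 (Or.inr h1)⟩
  · intro p h
    obtain ⟨rfl, h | ⟨ρ, h⟩⟩ := mem_prec.1 h
    · simp [cN, cOff] at h
    · simp at h
  · intro r q p h h'
    obtain ⟨rfl, -⟩ := mem_prec.1 h'
    obtain ⟨-, h | ⟨ρ, h⟩⟩ := mem_prec.1 h
    · simp [cN, cOff] at h
    · simp at h

theorem inF (W : List (ℕ × Op × ℕ)) (q₀ qh : ℕ) (Q : List ℕ) (L : List (ℕ × Mode)) :
    (inp W q₀ qh Q L).InF := by
  intro S S' h
  have h : TAxiom.roleSub S S' ∈ tb W qh L := h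
  unfold tb at h
  simp only [baseAx, List.mem_append, List.mem_cons, List.mem_flatMap, List.mem_map, reduceCtorEq,
    List.not_mem_nil, or_false, false_or, and_false, exists_false] at h
  rcases h with ⟨⟨q, op, q'⟩, hr, h⟩ | ⟨⟨m, md⟩, _, h⟩
  · cases op <;> simp [ruleAx] at h
  · simp [modeAx] at h

end QF

end Pool.Agent.Lib.MP_9ab704_lc
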