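import Pool.Agent.Lib.MP_9ab704_lc.Gen

/-!
# The reduction for role inclusions
-/

namespace Pool.Agent.Lib.MP_9ab704_lc

open Turing PartrecToTM2 Relation
open Pool.Agent.Lib.MP_8d6ead_lc (Stk Op psh Step Reach stk0 syms mem_syms ik ia stks mem_stks prs
  mem_prs psh_injective psh_comm trNat_even trNat_odd)

variable {Δ : Type}

theorem ik_inj {k k' : K'} (h : ik k = ik k') : k = k' := by
  cases k <;> cases k' <;> first | rfl | (exact absurd h (by decide))

theorem ia_inj {a a' : Γ'} (h : ia a = ia a') : a = a' := by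
  cases a <;> cases a' <;> first | rfl | (exact absurd h (by decide))

theorem ik_lt (k : K') : ik k < 4 := by cases k <;> decide

theorem ia_lt (a : Γ') : ia a < 4 := by cases a <;> decide

/-- all atoms of the concept satisfy `P` and it has no quantifier -/
def Concept.Loc (P : ℕ → Prop) : Concept → Prop
  | bot => True
  | atom A => P A
  | ex _ => False
  | neg C => C.Loc P
  | and C D => C.Loc P ∧ D.Loc P

theorem Concept.Loc.sem_eq {I J : Interp Δ} {P : ℕ → Prop} (hP : ∀ A, P A → I.con A = J.con A) :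
    ∀ {C : Concept}, C.Loc P → C.sem I = C.sem J
  | bot, _ => rfl
  | atom A, h => hP A h
  | ex _, h => h.elim
  | neg C, h => by
    simp only [Concept.sem]
    rw [Concept.Loc.sem_eq hP (C := C) h]
  | and C D, h => by
    simp only [Concept.sem]
    rw [Concept.Loc.sem_eq hP (C := C) h.1, Concept.Loc.sem_eq hP (C := D) h.2]

/-- states occurring in a rule system -/
def states (R : List (ℕ × Op × ℕ)) (q₀ qh : ℕ) : List ℕ :=
  q₀ :: qh :: R.flatMap fun r => [r.1, r.2.2]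

theorem mem_states {R : List (ℕ × Op × ℕ)} {q₀ qh : ℕ} {r} (hr : r ∈ R) :
    r.1 ∈ states R q₀ qh ∧ r.2.2 ∈ states R q₀ qh := by
  simp only [states, List.mem_cons, List.mem_flatMap, List.not_mem_nil, or_false]
  exact ⟨Or.inr (Or.inr ⟨r, hr, Or.inl rfl⟩), Or.inr (Or.inr ⟨r, hr, Or.inr rfl⟩)⟩

namespace QR

/-! ### Names -/

/-- the minimized concept name -/
def cOk : ℕ := 0
/-- the stack `k` is empty -/
def cZ (k : K') : ℕ := 2 * (ik k + 1)
/-- state `q` -/
def cD (q : ℕ) : ℕ := 2 * (q + 5)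
/-- auxiliary concept name of mode `m` -/
def cX (m : ℕ) : ℕ := 2 * m + 1
/-- pushing the symbol `a` on the stack `k` -/
def rS (k : K') (a : Γ') : ℕ := 6 * (4 * ik k + ia a)
/-- role that leads to the source of the error of mode `m` -/
def rR (m : ℕ) : ℕ := 6 * m + 1
/-- copies of edges -/
def rE (m : ℕ) (j : Fin 4) : ℕ := 6 * m + 2 + j

/-- state `q` -/
def D (q : ℕ) : Concept := .atom (cD q)
/-- the stack `k` is empty -/
def Z (k : K') : Concept := .atom (cZ k)

/-- possible errors -/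
inductive Mode
  | edge (k : K') (a : Γ') (A B : Concept)
  | func (k : K') (a : Γ')
  | comm (k : K') (a : Γ') (k' : K') (a' : Γ')

/-- axioms for the error `m` -/
def modeAx (m : ℕ) : Mode → List TAxiom
  | .edge k a A B =>
      [.roleSub (.name (rE m 0)) (.name (rS k a)),
       .sub (.ex (.inv (rR m))) (.ex (.name (rE m 0))),
       .sub (.ex (.name (rE m 0))) A,
       .sub (.ex (.inv (rE m 0))) B]
  | .func k a =>
      [.roleSub (.name (rE m 0)) (.name (rS k a)),
       .roleSub (.name (rE m 1)) (.name (rS k a)),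
       .sub (.ex (.inv (rR m))) (.ex (.name (rE m 0))),
       .sub (.ex (.name (rE m 0))) (.ex (.name (rE m 1))),
       .sub (.ex (.inv (rE m 0))) (.atom (cX m)),
       .sub (.ex (.inv (rE m 1))) (.neg (.atom (cX m)))]
  | .comm k a k' a' =>
      [.roleSub (.name (rE m 0)) (.name (rS k a)),
       .roleSub (.name (rE m 1)) (.name (rS k' a')),
       .roleSub (.name (rE m 2)) (.name (rS k' a')),
       .roleSub (.name (rE m 3)) (.name (rS k a)),
       .sub (.ex (.inv (rR m))) (.ex (.name (rE m 0))),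
       .sub (.ex (.name (rE m 0))) (.ex (.name (rE m 2))),
       .sub (.ex (.inv (rE m 0))) (.ex (.name (rE m 1))),
       .sub (.ex (.inv (rE m 2))) (.ex (.name (rE m 3))),
       .sub (.ex (.inv (rE m 1))) (.atom (cX m)),
       .sub (.ex (.inv (rE m 3))) (.neg (.atom (cX m)))]

/-- possible errors for a rule -/
def ruleModes : ℕ × Op × ℕ → List Mode
  | (q, .push k a, q') => [.edge k a (D q) (.neg (D q'))]
  | (q, .pop k a, q') => [.edge k a (.neg (D q')) (D q)]
  | (q, .peek k a, q') => [.edge k a .top (.and (D q) (.neg (D q')))]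
  | (_, .empty _, _) => []
  | (_, .nop, _) => []

/-- axioms for a rule -/
def ruleAx : ℕ × Op × ℕ → List TAxiom
  | (q, .empty k, q') => [.sub (.and (D q) (Z k)) (D q')]
  | (q, .nop, q') => [.sub (D q) (D q')]
  | _ => []

/-- all possible errors -/
def modes (R : List (ℕ × Op × ℕ)) : List Mode :=
  R.flatMap ruleModes ++
  (prs.flatMap fun p => (stks.filter fun k => decide (p.1 ≠ k)).map fun k =>
    .edge p.1 p.2 (Z k) (.neg (Z k))) ++
  (prs.map fun p => .func p.1 p.2) ++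
  (prs.flatMap fun p => (prs.filter fun p' => decide (p.1 ≠ p'.1)).map fun p' =>
    .comm p.1 p.2 p'.1 p'.2)

/-- the TBox -/
def tb (R : List (ℕ × Op × ℕ)) (qh : ℕ) : List TAxiom :=
  [.sub (D qh) .bot,
   .sub .top (.orL (.atom cOk :: (List.range (modes R).length).map fun m => .ex (.name (rR m))))] ++
  (prs.map fun p => .sub .top (.ex (.name (rS p.1 p.2)))) ++ R.flatMap ruleAx ++
  (modes R).zipIdx.flatMap fun mi => modeAx mi.2 mi.1

/-- the input -/
def inp (R : List (ℕ × Op × ℕ)) (q₀ qh : ℕ) (A : List Assertion) : Input where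
  query := .atom cOk
  tbox := tb R qh
  abox := A
  minimized := .con cOk :: prs.map fun p => .rol (rS p.1 p.2)
  fixed := (stks.map fun k => .con (cZ k)) ++ (states R q₀ qh).map fun q => .con (cD q)
  prec := []

/-- the ABox -/
def ab (q₀ n : ℕ) : List Assertion :=
  [.con (cD q₀) (n + 1), .rol (rS K'.main Γ'.cons) 0 1] ++
  (stks.map fun k => .con (cZ k) 0) ++
  (List.range n).map fun v => .rol (rS K'.main (bitOf (v + 1))) ((v + 1) / 2 + 1) (v + 2)

theorem cZ_inj {k k' : K'} : cZ k = cZ k' ↔ k = k' :=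
  ⟨fun h => ik_inj (by unfold cZ at h; omega), fun h => by rw [h]⟩

theorem cD_inj {q q' : ℕ} : cD q = cD q' ↔ q = q' := by unfold cD; omega

theorem cD_ne_cZ (q : ℕ) (k : K') : cD q ≠ cZ k := by
  have := ik_lt k
  unfold cD cZ; omega

theorem cD_ne_cOk (q : ℕ) : cD q ≠ cOk := by
  unfold cD cOk; omega

theorem cZ_ne_cOk (k : K') : cZ k ≠ cOk := by
  unfold cZ cOk; omega

theorem rS_inj {k k' : K'} {a a' : Γ'} : rS k a = rS k' a' ↔ k = k' ∧ a = a' := by
  constructor
  · intro h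
    have h1 := ik_lt k
    have h2 := ik_lt k'
    have h3 := ia_lt a
    have h4 := ia_lt a'
    unfold rS at h
    exact ⟨ik_inj (by omega), ia_inj (by omega)⟩
  · rintro ⟨rfl, rfl⟩; rfl

/-- the axioms other than those of the modes, and the modes -/
theorem holds_tb {R : List (ℕ × Op × ℕ)} {qh : ℕ} {I : Interp Δ} :
    (∀ α ∈ tb R qh, α.Holds I) ↔
      I.con (cD qh) = ∅ ∧
      (∀ x, x ∈ I.con cOk ∨ ∃ m < (modes R).length, ∃ y, (x, y) ∈ I.rol (rR m)) ∧
      (∀ k a x, ∃ y, (x, y) ∈ I.rol (rS k a)) ∧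
      (∀ r ∈ R, ∀ α ∈ ruleAx r, α.Holds I) ∧
      (∀ m md, (modes R)[m]? = some md → ∀ α ∈ modeAx m md, α.Holds I) := by
  unfold tb
  simp only [List.forall_mem_append, List.mem_cons, List.not_mem_nil, or_false,
    forall_eq_or_imp, forall_eq, List.forall_mem_map, List.forall_mem_flatMap]
  have h1 : (TAxiom.sub (D qh) Concept.bot).Holds I ↔ I.con (cD qh) = ∅ := by
    show I.con (cD qh) ⊆ ∅ ↔ _
    exact Set.subset_empty_iff
  have h2 : (TAxiom.sub Concept.top (Concept.orL (Concept.atom cOk ::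
      (List.range (modes R).length).map fun m => Concept.ex (Role.name (rR m))))).Holds I ↔
      (∀ x, x ∈ I.con cOk ∨ ∃ m < (modes R).length, ∃ y, (x, y) ∈ I.rol (rR m)) := by
    simp only [TAxiom.Holds, Set.subset_def, Concept.mem_top, Concept.mem_orL, List.mem_cons,
      List.mem_map, List.mem_range, exists_eq_or_imp, Concept.mem_atom, forall_const]
    refine forall_congr' fun x => or_congr Iff.rfl ?_
    constructor
    · rintro ⟨C, ⟨m, hm, rfl⟩, h⟩; exact ⟨m, hm, h⟩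
    · rintro ⟨m, hm, h⟩; exact ⟨_, ⟨m, hm, rfl⟩, h⟩
  have h3 : (∀ p ∈ prs, (TAxiom.sub Concept.top (Concept.ex (Role.name (rS p.1 p.2)))).Holds I) ↔
      (∀ k a x, ∃ y, (x, y) ∈ I.rol (rS k a)) := by
    simp only [TAxiom.Holds, Set.subset_def, Concept.mem_top, Concept.mem_exn, forall_const]
    exact ⟨fun h k a x => h (k, a) (mem_prs _) x, fun h p _ x => h p.1 p.2 x⟩
  have h4 : (∀ mi ∈ (modes R).zipIdx, ∀ α ∈ modeAx mi.2 mi.1, α.Holds I) ↔
      (∀ m md, (modes R)[m]? = some md → ∀ α ∈ modeAx m md, α.Holds I) := by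
    constructor
    · intro h m md hm
      exact h (md, m) (List.mk_mem_zipIdx_iff_getElem?.2 hm)
    · rintro h ⟨md, m⟩ hm
      exact h m md (List.mk_mem_zipIdx_iff_getElem?.1 hm)
  rw [h1, h2, h3, h4]
  tauto

/-- the error is present in the structure -/
def Err (I : Interp Δ) : Mode → Prop
  | .edge k a A B => ∃ x y, (x, y) ∈ I.rol (rS k a) ∧ x ∈ A.sem I ∧ y ∈ B.sem I
  | .func k a => ∃ x y y', (x, y) ∈ I.rol (rS k a) ∧ (x, y') ∈ I.rol (rS k a) ∧ y ≠ y'
  | .comm k a k' a' => ∃ x y z y' z', (x, y) ∈ I.rol (rS k a) ∧ (y, z) ∈ I.rol (rS k' a') ∧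
      (x, y') ∈ I.rol (rS k' a') ∧ (y', z') ∈ I.rol (rS k a) ∧ z ≠ z'

theorem err_of_holds {J : Interp Δ} {m : ℕ} {md : Mode} (h : ∀ α ∈ modeAx m md, α.Holds J)
    {x s : Δ} (hx : (x, s) ∈ J.rol (rR m)) : Err J md := by
  cases md with
  | edge k a A B =>
    simp only [modeAx, List.mem_cons, List.not_mem_nil, or_false, forall_eq_or_imp, forall_eq,
      TAxiom.Holds, Set.subset_def, Concept.mem_exn, Concept.mem_exi] at h
    obtain ⟨h1, h2, h3, h4⟩ := h
    obtain ⟨y, hy⟩ := h2 s ⟨x, hx⟩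
    exact ⟨s, y, h1 (s, y) hy, h3 s ⟨y, hy⟩, h4 y ⟨s, hy⟩⟩
  | func k a =>
    simp only [modeAx, List.mem_cons, List.not_mem_nil, or_false, forall_eq_or_imp, forall_eq,
      TAxiom.Holds, Set.subset_def, Concept.mem_exn, Concept.mem_exi, Concept.mem_atom,
      Concept.mem_neg] at h
    obtain ⟨h1, h2, h3, h4, h5, h6⟩ := h
    obtain ⟨y, hy⟩ := h3 s ⟨x, hx⟩
    obtain ⟨y', hy'⟩ := h4 s ⟨y, hy⟩
    refine ⟨s, y, y', h1 (s, y) hy, h2 (s, y') hy', ?_⟩
    rintro rfl
    exact h6 y ⟨s, hy'⟩ (h5 y ⟨s, hy⟩)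
  | comm k a k' a' =>
    simp only [modeAx, List.mem_cons, List.not_mem_nil, or_false, forall_eq_or_imp, forall_eq,
      TAxiom.Holds, Set.subset_def, Concept.mem_exn, Concept.mem_exi, Concept.mem_atom,
      Concept.mem_neg] at h
    obtain ⟨h1, h2, h3, h4, h5, h6, h7, h8, h9, h10⟩ := h
    obtain ⟨y, hy⟩ := h5 s ⟨x, hx⟩
    obtain ⟨y', hy'⟩ := h6 s ⟨y, hy⟩
    obtain ⟨z, hz⟩ := h7 y ⟨s, hy⟩
    obtain ⟨z', hz'⟩ := h8 y' ⟨s, hy'⟩
    refine ⟨s, y, z, y', z', h1 _ hy, h2 _ hz, h3 _ hy', h4 _ hz', ?_⟩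
    rintro rfl
    exact h10 z ⟨y', hz'⟩ (h9 z ⟨y, hz⟩)

/-- locality of the concepts in a mode -/
def Mode.Loc (P : ℕ → Prop) : Mode → Prop
  | .edge _ _ A B => A.Loc P ∧ B.Loc P
  | _ => True

theorem holds_of_err {I : Interp Δ} {m : ℕ} {md : Mode} (h : Err I md) :
    ∃ (e : Fin 4 → Set (Δ × Δ)) (s : Δ) (X : Set Δ), ∀ J : Interp Δ,
      (∀ j, J.rol (rE m j) = e j) → (J.rol (rR m) = {x | x.2 = s}) → J.con (cX m) = X →
      (∀ k a, J.rol (rS k a) = I.rol (rS k a)) → md.Loc (fun A => I.con A = J.con A) →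
      ∀ α ∈ modeAx m md, α.Holds J := by
  cases md with
  | edge k a A B =>
    obtain ⟨x, y, hxy, hx, hy⟩ := h
    refine ⟨fun _ => {(x, y)}, x, ∅, fun J he hR hX hS hl => ?_⟩
    have hA := hl.1.sem_eq (fun _ h => h)
    have hB := hl.2.sem_eq (fun _ h => h)
    simp only [modeAx, List.mem_cons, List.not_mem_nil, or_false, forall_eq_or_imp, forall_eq,
      TAxiom.Holds, Set.subset_def, Concept.mem_exn, Concept.mem_exi, Role.sem, he, hR, hS,
      ← hA, ← hB, Set.mem_singleton_iff, Set.mem_ofPred_eq, Prod.forall, Prod.mk.injEq]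
    refine ⟨?_, ?_, ?_, ?_⟩
    · rintro _ _ ⟨rfl, rfl⟩; exact hxy
    · rintro _ ⟨_, rfl⟩; exact ⟨y, rfl, rfl⟩
    · rintro _ ⟨_, rfl, _⟩; exact hx
    · rintro _ ⟨_, _, rfl⟩; exact hy
  | func k a =>
    obtain ⟨x, y, y', hxy, hxy', hne⟩ := h
    refine ⟨![{(x, y)}, {(x, y')}, ∅, ∅], x, {y}, fun J he hR hX hS hl => ?_⟩
    have he0 := he 0
    have he1 := he 1
    simp only [Matrix.cons_val_zero, Matrix.cons_val_one] at he0 he1
    simp only [modeAx, List.mem_cons, List.not_mem_nil, or_false, forall_eq_or_imp, forall_eq,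
      TAxiom.Holds, Set.subset_def, Concept.mem_exn, Concept.mem_exi, Role.sem, he0, he1, hR, hS,
      Set.mem_singleton_iff, Set.mem_ofPred_eq, Prod.forall, Prod.mk.injEq, Concept.mem_atom,
      Concept.mem_neg, hX]
    refine ⟨?_, ?_, ?_, ?_, ?_, ?_⟩
    · rintro _ _ ⟨rfl, rfl⟩; exact hxy
    · rintro _ _ ⟨rfl, rfl⟩; exact hxy'
    · rintro _ ⟨_, rfl⟩; exact ⟨y, rfl, rfl⟩
    · rintro _ ⟨_, rfl, _⟩; exact ⟨y', rfl, rfl⟩
    · rintro _ ⟨_, _, rfl⟩; rfl
    · rintro _ ⟨_, _, rfl⟩; exact hne.symm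
  | comm k a k' a' =>
    obtain ⟨x, y, z, y', z', h1, h2, h3, h4, hne⟩ := h
    refine ⟨![{(x, y)}, {(y, z)}, {(x, y')}, {(y', z')}], x, {z}, fun J he hR hX hS hl => ?_⟩
    have he0 := he 0
    have he1 := he 1
    have he2 := he 2
    have he3 := he 3
    simp only [Matrix.cons_val_zero, Matrix.cons_val_one, Matrix.cons_val] at he0 he1 he2 he3
    simp only [modeAx, List.mem_cons, List.not_mem_nil, or_false, forall_eq_or_imp, forall_eq,
      TAxiom.Holds, Set.subset_def, Concept.mem_exn, Concept.mem_exi, Role.sem, he0, he1, he2, he3,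
      hR, hS, Set.mem_singleton_iff, Set.mem_ofPred_eq, Prod.forall, Prod.mk.injEq,
      Concept.mem_atom, Concept.mem_neg, hX]
    refine ⟨?_, ?_, ?_, ?_, ?_, ?_, ?_, ?_, ?_, ?_⟩
    · rintro _ _ ⟨rfl, rfl⟩; exact h1
    · rintro _ _ ⟨rfl, rfl⟩; exact h2
    · rintro _ _ ⟨rfl, rfl⟩; exact h3
    · rintro _ _ ⟨rfl, rfl⟩; exact h4
    · rintro _ ⟨_, rfl⟩; exact ⟨y, rfl, rfl⟩
    · rintro _ ⟨_, rfl, _⟩; exact ⟨y', rfl, rfl⟩
    · rintro _ ⟨_, _, rfl⟩; exact ⟨z, rfl, rfl⟩
    · rintro _ ⟨_, _, rfl⟩; exact ⟨z', rfl, rfl⟩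
    · rintro _ ⟨_, _, rfl⟩; rfl
    · rintro _ ⟨_, _, rfl⟩; exact hne.symm

/-- in absence of the roles of a mode, its axioms hold. -/
theorem holds_of_empty {J : Interp Δ} {m : ℕ} (md : Mode) (he : ∀ j, J.rol (rE m j) = ∅)
    (hR : J.rol (rR m) = ∅) : ∀ α ∈ modeAx m md, α.Holds J := by
  cases md <;>
  simp [modeAx, TAxiom.Holds, Set.subset_def, Role.sem, he, hR]

/-- names that are fixed -/
def Fx (R : List (ℕ × Op × ℕ)) (q₀ qh : ℕ) (A : ℕ) : Prop :=
  (∃ k, A = cZ k) ∨ ∃ q ∈ states R q₀ qh, A = cD q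

theorem Fx.mem {R : List (ℕ × Op × ℕ)} {q₀ qh : ℕ} {A : ℕ} {ab : List Assertion}
    (h : Fx R q₀ qh A) : Pred.con A ∈ (inp R q₀ qh ab).fixed := by
  unfold inp
  simp only [List.mem_append, List.mem_map]
  rcases h with ⟨k, rfl⟩ | ⟨q, hq, rfl⟩
  · exact Or.inl ⟨k, mem_stks k, rfl⟩
  · exact Or.inr ⟨q, hq, rfl⟩

theorem of_mem_fixed {R : List (ℕ × Op × ℕ)} {q₀ qh : ℕ} {p : Pred} {ab : List Assertion}
    (h : p ∈ (inp R q₀ qh ab).fixed) : ∃ A, Fx R q₀ qh A ∧ p = Pred.con A := by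
  unfold inp at h
  simp only [List.mem_append, List.mem_map] at h
  rcases h with ⟨k, _, rfl⟩ | ⟨q, hq, rfl⟩
  · exact ⟨_, Or.inl ⟨k, rfl⟩, rfl⟩
  · exact ⟨_, Or.inr ⟨q, hq, rfl⟩, rfl⟩

theorem modes_loc {R : List (ℕ × Op × ℕ)} {q₀ qh : ℕ} {md : Mode} (h : md ∈ modes R) :
    md.Loc (Fx R q₀ qh) := by
  unfold modes at h
  simp only [List.mem_append, List.mem_map, List.mem_flatMap] at h
  rcases h with ((⟨r, hr, h⟩ | ⟨p, _, k, _, rfl⟩) | ⟨p, _, rfl⟩) | ⟨p, _, p', _, rfl⟩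
  · obtain ⟨h1, h2⟩ := mem_states (q₀ := q₀) (qh := qh) hr
    obtain ⟨q, op, q'⟩ := r
    have hq : Fx R q₀ qh (cD q) := Or.inr ⟨q, h1, rfl⟩
    have hq' : Fx R q₀ qh (cD q') := Or.inr ⟨q', h2, rfl⟩
    cases op <;> simp only [ruleModes, List.mem_singleton, List.not_mem_nil] at h
    · subst h; exact ⟨hq, hq'⟩
    · subst h; exact ⟨hq', hq⟩
    · subst h; exact ⟨trivial, hq, hq'⟩
  · exact ⟨Or.inl ⟨k, rfl⟩, Or.inl ⟨k, rfl⟩⟩
  · trivial
  · trivial

theorem ruleAx_congr {R : List (ℕ × Op × ℕ)} {q₀ qh : ℕ} {r} (hr : r ∈ R) {I J : Interp Δ}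
    (h : ∀ A, Fx R q₀ qh A → I.con A = J.con A) (hI : ∀ α ∈ ruleAx r, α.Holds I) :
    ∀ α ∈ ruleAx r, α.Holds J := by
  obtain ⟨h1, h2⟩ := mem_states (q₀ := q₀) (qh := qh) hr
  obtain ⟨q, op, q'⟩ := r
  have hq := h _ (Or.inr ⟨q, h1, rfl⟩)
  have hq' := h _ (Or.inr ⟨q', h2, rfl⟩)
  cases op with
  | push k a => simp [ruleAx]
  | pop k a => simp [ruleAx]
  | peek k a => simp [ruleAx]
  | empty k =>
    have hk := h _ (Or.inl ⟨k, rfl⟩)
    simp only [ruleAx, List.mem_singleton, forall_eq, TAxiom.Holds, Set.subset_def, D, Z,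
      Concept.mem_atom, Concept.mem_and] at hI ⊢
    rw [← hq, ← hq', ← hk]
    exact hI
  | nop =>
    simp only [ruleAx, List.mem_singleton, forall_eq, TAxiom.Holds, Set.subset_def, D,
      Concept.mem_atom] at hI ⊢
    rw [← hq, ← hq']
    exact hI

/-- the modified interpretation -/
def chg (I : Interp Δ) (m : ℕ) (e : Fin 4 → Set (Δ × Δ)) (s : Δ) (X : Set Δ) : Interp Δ where
  ind := I.ind
  con := fun A => {x | (A % 2 = 0 ∧ A ≠ cOk ∧ x ∈ I.con A) ∨ (A = cX m ∧ x ∈ X)}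
  rol := fun p => {x | (p % 6 = 0 ∧ x ∈ I.rol p) ∨ (p = rR m ∧ x.2 = s) ∨
    ∃ j, p = rE m j ∧ x ∈ e j}

section chg

variable {I : Interp Δ} {m : ℕ} {e : Fin 4 → Set (Δ × Δ)} {s : Δ} {X : Set Δ}

theorem chg_fx {R : List (ℕ × Op × ℕ)} {q₀ qh : ℕ} {A : ℕ} (h : Fx R q₀ qh A) :
    I.con A = (chg I m e s X).con A := by
  have h1 : A % 2 = 0 := by
    rcases h with ⟨k, rfl⟩ | ⟨q, _, rfl⟩
    · unfold cZ; omega
    · unfold cD; omega
  have h2 : A ≠ cOk := by
    rcases h with ⟨k, rfl⟩ | ⟨q, _, rfl⟩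
    · exact cZ_ne_cOk k
    · exact cD_ne_cOk q
  have h3 : A ≠ cX m := by unfold cX; omega
  ext x
  simp [chg, h1, h2, h3]

theorem chg_ok : (chg I m e s X).con cOk = ∅ := by
  ext x
  simp [chg, cOk, cX]

theorem chg_X : (chg I m e s X).con (cX m) = X := by
  ext x
  simp only [chg, Set.mem_ofPred_eq, true_and, or_iff_right_iff_imp]
  rintro ⟨h, _⟩
  unfold cX at h
  omega

theorem chg_S (k : K') (a : Γ') : (chg I m e s X).rol (rS k a) = I.rol (rS k a) := by
  ext x
  simp only [chg, Set.mem_ofPred_eq]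
  have h1 : rS k a % 6 = 0 := by unfold rS; omega
  have h2 : rS k a ≠ rR m := by unfold rS rR; omega
  have h3 : ∀ j, rS k a ≠ rE m j := by intro j; have := j.2; unfold rS rE; omega
  simp [h1, h2, h3]

theorem chg_R : (chg I m e s X).rol (rR m) = {x | x.2 = s} := by
  ext x
  simp only [chg, Set.mem_ofPred_eq]
  have h1 : rR m % 6 ≠ 0 := by unfold rR; omega
  have h3 : ∀ j, rR m ≠ rE m j := by intro j; have := j.2; unfold rR rE; omega
  simp [h1, h3]

theorem chg_E (j : Fin 4) : (chg I m e s X).rol (rE m j) = e j := by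
  ext x
  simp only [chg, Set.mem_ofPred_eq]
  have h1 : rE m j % 6 ≠ 0 := by have := j.2; unfold rE; omega
  have h2 : rE m j ≠ rR m := by have := j.2; unfold rR rE; omega
  have h3 : ∀ j', rE m j = rE m j' ↔ j' = j := by
    intro j'; rw [Fin.ext_iff]; unfold rE; omega
  simp [h1, h2, h3]

theorem chg_R' {m' : ℕ} (h : m' ≠ m) : (chg I m e s X).rol (rR m') = ∅ := by
  ext x
  simp only [chg, Set.mem_ofPred_eq]
  have h1 : rR m' % 6 ≠ 0 := by unfold rR; omega
  have h2 : rR m' ≠ rR m := by unfold rR; omega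
  have h3 : ∀ j, rR m' ≠ rE m j := by intro j; have := j.2; unfold rR rE; omega
  simp [h1, h2, h3]

theorem chg_E' {m' : ℕ} (h : m' ≠ m) (j : Fin 4) : (chg I m e s X).rol (rE m' j) = ∅ := by
  ext x
  simp only [chg, Set.mem_ofPred_eq]
  have h1 : rE m' j % 6 ≠ 0 := by have := j.2; unfold rE; omega
  have h2 : rE m' j ≠ rR m := by have := j.2; unfold rR rE; omega
  have h3 : ∀ j', rE m' j ≠ rE m j' := by
    intro j'; have := j.2; have := j'.2; unfold rE; omega
  simp [h1, h2, h3]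

end chg

/-- membership in the ABox -/
theorem holds_ab {q₀ n : ℕ} {I : Interp Δ} :
    (∀ α ∈ ab q₀ n, α.Holds I) ↔
      I.ind (n + 1) ∈ I.con (cD q₀) ∧ (I.ind 0, I.ind 1) ∈ I.rol (rS K'.main Γ'.cons) ∧
      (∀ k, I.ind 0 ∈ I.con (cZ k)) ∧
      (∀ v < n, (I.ind ((v + 1) / 2 + 1), I.ind (v + 2)) ∈ I.rol (rS K'.main (bitOf (v + 1)))) := by
  unfold ab
  simp only [List.forall_mem_append, List.mem_cons, List.not_mem_nil, or_false,
    forall_eq_or_imp, forall_eq, List.forall_mem_map, List.mem_range]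
  have h1 : (∀ k ∈ stks, (Assertion.con (cZ k) 0).Holds I) ↔ ∀ k, I.ind 0 ∈ I.con (cZ k) :=
    ⟨fun h k => h k (mem_stks k), fun h k _ => h k⟩
  rw [h1]
  simp only [Assertion.Holds]
  tauto

/-- In a model of the circumscribed knowledge base with nonempty `Ok` there is no error. -/
theorem no_err {R : List (ℕ × Op × ℕ)} {q₀ qh n : ℕ} {I : Interp Δ}
    (hI : (inp R q₀ qh (ab q₀ n)).CircModel I) (hok : (I.con cOk).Nonempty) {md : Mode}
    (hmd : md ∈ modes R) : ¬ Err I md := by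
  intro herr
  obtain ⟨m, hm, hmd'⟩ := List.mem_iff_getElem.1 hmd
  have hmd'' : (modes R)[m]? = some md := by rw [List.getElem?_eq_getElem hm, hmd']
  obtain ⟨e, s, X, hJ⟩ := holds_of_err (m := m) herr
  obtain ⟨⟨hT, hA, hU⟩, hmin⟩ := hI
  let J := chg I m e s X
  refine hmin J ⟨?_, ?_, ?_⟩ ⟨rfl, ?_, ?_, ?_⟩
  · have hT : ∀ α ∈ tb R qh, α.Holds I := hT
    show ∀ α ∈ tb R qh, α.Holds J
    rw [holds_tb] at hT ⊢
    obtain ⟨h1, h2, h3, h4, h5⟩ := hT
    refine ⟨?_, ?_, ?_, ?_, ?_⟩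
    · rw [← chg_fx (R := R) (q₀ := q₀) (qh := qh) (Or.inr ⟨qh, by simp [states], rfl⟩)]
      exact h1
    · intro x
      refine Or.inr ⟨m, hm, s, ?_⟩
      show (x, s) ∈ (chg I m e s X).rol (rR m)
      rw [chg_R]
      rfl
    · intro k a x
      show ∃ y, (x, y) ∈ (chg I m e s X).rol (rS k a)
      rw [chg_S]
      exact h3 k a x
    · intro r hr
      exact ruleAx_congr (q₀ := q₀) (qh := qh) hr (fun A hA => chg_fx hA) (h4 r hr)
    · intro m' md' hm'
      by_cases h : m' = m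
      · subst h
        have : md' = md := by
          rw [hmd''] at hm'
          exact (Option.some.inj hm').symm
        subst this
        refine hJ J chg_E chg_R chg_X chg_S ?_
        have := modes_loc (q₀ := q₀) (qh := qh) hmd
        have hmono : ∀ C : Concept, C.Loc (Fx R q₀ qh) → C.Loc (fun A => I.con A = J.con A) := by
          intro C
          induction C with
          | bot => exact fun h => h
          | atom A => exact fun h => chg_fx h
          | ex R => exact fun h => h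
          | neg C ih => exact ih
          | and C D ih1 ih2 => exact fun h => ⟨ih1 h.1, ih2 h.2⟩
        cases md' with
        | edge k a A B => exact ⟨hmono _ this.1, hmono _ this.2⟩
        | func k a => trivial
        | comm k a k' a' => trivial
      · exact holds_of_empty md' (fun j => chg_E' h j) (chg_R' h)
  · have hA : ∀ α ∈ ab q₀ n, α.Holds I := hA
    show ∀ α ∈ ab q₀ n, α.Holds J
    rw [holds_ab] at hA ⊢
    obtain ⟨h1, h2, h3, h4⟩ := hA
    refine ⟨?_, ?_, ?_, ?_⟩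
    · show I.ind (n + 1) ∈ (chg I m e s X).con (cD q₀)
      rw [← chg_fx (R := R) (q₀ := q₀) (qh := qh) (Or.inr ⟨q₀, by simp [states], rfl⟩)]
      exact h1
    · show (I.ind 0, I.ind 1) ∈ (chg I m e s X).rol _
      rw [chg_S]; exact h2
    · intro k
      show I.ind 0 ∈ (chg I m e s X).con (cZ k)
      rw [← chg_fx (R := R) (q₀ := q₀) (qh := qh) (Or.inl ⟨k, rfl⟩)]
      exact h3 k
    · intro v hv
      show (I.ind ((v + 1) / 2 + 1), I.ind (v + 2)) ∈ (chg I m e s X).rol _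
      rw [chg_S]; exact h4 v hv
  · exact hU
  · intro p hp
    obtain ⟨A, hA, rfl⟩ := of_mem_fixed hp
    exact (chg_fx hA).symm
  · intro p hp hn
    exfalso
    apply hn
    simp only [inp, List.mem_cons, List.mem_map] at hp
    rcases hp with rfl | ⟨p, _, rfl⟩
    · show (chg I m e s X).con cOk ⊆ I.con cOk
      rw [chg_ok]; exact Set.empty_subset _
    · show (chg I m e s X).rol (rS p.1 p.2) ⊆ I.rol (rS p.1 p.2)
      rw [chg_S]
  · refine ⟨.con cOk, by simp [inp], ⟨?_, ?_⟩, ?_⟩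
    · show (chg I m e s X).con cOk ⊆ I.con cOk
      rw [chg_ok]; exact Set.empty_subset _
    · show ¬ (chg I m e s X).con cOk = I.con cOk
      rw [chg_ok]
      exact fun h => hok.ne_empty h.symm
    · intro q hq
      simp [inp] at hq

theorem mem_modes_rule {R : List (ℕ × Op × ℕ)} {r} (hr : r ∈ R) {md : Mode}
    (h : md ∈ ruleModes r) : md ∈ modes R := by
  unfold modes
  simp only [List.mem_append, List.mem_flatMap]
  exact Or.inl (Or.inl (Or.inl ⟨r, hr, h⟩))

theorem mem_modes_Z (R : List (ℕ × Op × ℕ)) {k' : K'} (a : Γ') {k : K'} (h : k' ≠ k) :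
    Mode.edge k' a (Z k) (.neg (Z k)) ∈ modes R := by
  unfold modes
  simp only [List.mem_append, List.mem_flatMap, List.mem_map, List.mem_filter,
    decide_eq_true_eq]
  exact Or.inl (Or.inl (Or.inr ⟨(k', a), mem_prs _, k, ⟨mem_stks k, h⟩, rfl⟩))

theorem mem_modes_func (R : List (ℕ × Op × ℕ)) (k : K') (a : Γ') :
    Mode.func k a ∈ modes R := by
  unfold modes
  simp only [List.mem_append, List.mem_flatMap, List.mem_map]
  exact Or.inl (Or.inr ⟨(k, a), mem_prs _, rfl⟩)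

theorem mem_modes_comm (R : List (ℕ × Op × ℕ)) {k k' : K'} (a a' : Γ') (h : k ≠ k') :
    Mode.comm k a k' a' ∈ modes R := by
  unfold modes
  simp only [List.mem_append, List.mem_flatMap, List.mem_map, List.mem_filter,
    decide_eq_true_eq]
  exact Or.inr ⟨(k, a), mem_prs _, (k', a'), ⟨mem_prs _, h⟩, rfl⟩

theorem not_reach_of_satisfiable {R : List (ℕ × Op × ℕ)} {q₀ qh n : ℕ}
    (h : (inp R q₀ qh (ab q₀ n)).Satisfiable) :
    ¬ ∃ T, Reach R (q₀, stk0 (trList [n])) (qh, T) := by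
  obtain ⟨Δ, I, hI, hok⟩ := h
  have hne := fun {md} hmd => no_err (md := md) hI hok hmd
  have hT : ∀ α ∈ tb R qh, α.Holds I := hI.1.1
  have hA : ∀ α ∈ ab q₀ n, α.Holds I := hI.1.2.1
  rw [holds_tb] at hT
  rw [holds_ab] at hA
  obtain ⟨h1, -, h3, h4, -⟩ := hT
  obtain ⟨a1, a2, a3, a4⟩ := hA
  choose s hs using h3
  have hS : ∀ {k a x y}, (x, y) ∈ I.rol (rS k a) → y = s k a x := by
    intro k a x y hxy
    by_contra hcon
    exact hne (mem_modes_func R k a) ⟨x, y, s k a x, hxy, hs k a x, hcon⟩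
  have hcomm : Commuting s := by
    intro k k' a b x hk
    by_contra hcon
    exact hne (mem_modes_comm R b a hk.symm)
      ⟨x, s k' b x, s k a (s k' b x), s k a x, s k' b (s k a x),
        hs _ _ _, hs _ _ _, hs _ _ _, hs _ _ _, hcon⟩
  have hrule : ∀ r ∈ R, RuleOK s (fun k x => x ∈ I.con (cZ k)) (fun q x => x ∈ I.con (cD q)) r := by
    intro r hr
    obtain ⟨q, op, q'⟩ := r
    cases op with
    | push k a =>
      intro x hx
      by_contra hcon
      exact hne (mem_modes_rule hr (md := .edge k a (D q) (.neg (D q'))) (by simp [ruleModes]))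
        ⟨x, s k a x, hs k a x, hx, hcon⟩
    | pop k a =>
      intro x hx
      by_contra hcon
      exact hne (mem_modes_rule hr (md := .edge k a (.neg (D q')) (D q)) (by simp [ruleModes]))
        ⟨x, s k a x, hs k a x, hcon, hx⟩
    | peek k a =>
      intro x hx
      by_contra hcon
      exact hne (mem_modes_rule hr (md := .edge k a .top (.and (D q) (.neg (D q'))))
        (by simp [ruleModes])) ⟨x, s k a x, hs k a x, by simp, hx, hcon⟩
    | empty k =>
      intro x hx hx'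
      have h6 : (TAxiom.sub (.and (D q) (Z k)) (D q')).Holds I :=
        h4 _ hr _ (by simp [ruleAx])
      exact h6 ⟨hx, hx'⟩
    | nop =>
      intro x hx
      have h6 : (TAxiom.sub (D q) (D q')).Holds I := h4 _ hr _ (by simp [ruleAx])
      exact h6 hx
  have hZ : ∀ k (S : Stk), S k = [] → hom s (I.ind 0) S ∈ I.con (cZ k) := by
    intro k S hS'
    refine hom_empty (I.ind 0) (P := fun x => x ∈ I.con (cZ k)) (a3 k) ?_ hS'
    intro k' a x hk hx
    by_contra hcon
    exact hne (mem_modes_Z R a hk) ⟨x, s k' a x, hs _ _ _, hx, hcon⟩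
  have hchain : ∀ j ≤ n + 1, I.ind j = hom s (I.ind 0) (node j) := by
    intro j
    induction j using Nat.strong_induction_on with
    | _ j ih =>
      intro hj
      match j, ih, hj with
      | 0, _, _ => rfl
      | 1, _, _ =>
        rw [node_one, hom_psh _ hcomm]
        exact hS a2
      | v + 2, ih, hj =>
        rw [node_succ, hom_psh _ hcomm, ← ih ((v + 1) / 2 + 1) (by omega) (by omega)]
        exact hS (a4 v (by omega))
  rintro ⟨T, hT⟩
  have hstart : hom s (I.ind 0) (stk0 (trList [n])) ∈ I.con (cD q₀) := by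
    have := hchain (n + 1) le_rfl
    rw [show node (n + 1) = stk0 (trList [n]) from rfl] at this
    rw [← this]; exact a1
  have := sim (I.ind 0) hcomm hrule hZ hT hstart
  simp only [h1] at this
  exact this

/-- the intended interpretation -/
def std (R : List (ℕ × Op × ℕ)) (q₀ n : ℕ) : Interp Stk where
  ind := node
  con := fun A => {S | A = cOk ∨ (∃ k, A = cZ k ∧ S k = []) ∨
    ∃ q, A = cD q ∧ Reach R (q₀, stk0 (trList [n])) (q, S)}
  rol := fun p => {x | ∃ k a, p = rS k a ∧ x.2 = psh k a x.1}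

section std

variable {R : List (ℕ × Op × ℕ)} {q₀ n : ℕ}

theorem std_Z {k : K'} {S : Stk} : S ∈ (std R q₀ n).con (cZ k) ↔ S k = [] := by
  simp only [std, Set.mem_ofPred_eq]
  constructor
  · rintro (h | ⟨k', h, h'⟩ | ⟨q, h, -⟩)
    · exact absurd h (cZ_ne_cOk k)
    · rw [cZ_inj] at h; subst h; exact h'
    · exact absurd h.symm (cD_ne_cZ q k)
  · intro h; exact Or.inr (Or.inl ⟨k, rfl, h⟩)

theorem std_D {q : ℕ} {S : Stk} :
    S ∈ (std R q₀ n).con (cD q) ↔ Reach R (q₀, stk0 (trList [n])) (q, S) := by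
  simp only [std, Set.mem_ofPred_eq]
  constructor
  · rintro (h | ⟨k', h, h'⟩ | ⟨q', h, h'⟩)
    · exact absurd h (cD_ne_cOk q)
    · exact absurd h (cD_ne_cZ q k')
    · rw [cD_inj] at h; subst h; exact h'
  · intro h; exact Or.inr (Or.inr ⟨q, rfl, h⟩)

theorem std_S {k : K'} {a : Γ'} {S S' : Stk} :
    (S, S') ∈ (std R q₀ n).rol (rS k a) ↔ S' = psh k a S := by
  simp only [std, Set.mem_ofPred_eq]
  constructor
  · rintro ⟨k', a', h, h'⟩
    rw [rS_inj] at h
    obtain ⟨rfl, rfl⟩ := h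
    exact h'
  · intro h; exact ⟨k, a, rfl, h⟩

theorem std_R (m : ℕ) : (std R q₀ n).rol (rR m) = ∅ := by
  ext x
  simp only [std, Set.mem_ofPred_eq, Set.mem_empty_iff_false, iff_false]
  rintro ⟨k, a, h, -⟩
  unfold rS rR at h; omega

theorem std_E (m : ℕ) (j : Fin 4) : (std R q₀ n).rol (rE m j) = ∅ := by
  ext x
  simp only [std, Set.mem_ofPred_eq, Set.mem_empty_iff_false, iff_false]
  rintro ⟨k, a, h, -⟩
  have := j.2
  unfold rS rE at h; omega

theorem std_noerr {md : Mode} (h : md ∈ modes R) : ¬ Err (std R q₀ n) md := by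
  have hreach : ∀ {q op q' S S'}, (q, op, q') ∈ R → op.Rel S S' →
      Reach R (q₀, stk0 (trList [n])) (q, S) → Reach R (q₀, stk0 (trList [n])) (q', S') :=
    fun hr hrel h => h.tail ⟨_, hr, rfl, rfl, hrel⟩
  unfold modes at h
  simp only [List.mem_append, List.mem_map, List.mem_flatMap, List.mem_filter,
    decide_eq_true_eq] at h
  rcases h with ((⟨⟨q, op, q'⟩, hr, h⟩ | ⟨p, _, k, ⟨_, hk⟩, rfl⟩) | ⟨p, _, rfl⟩) |
    ⟨p, _, p', ⟨_, hp⟩, rfl⟩
  · cases op <;> simp only [ruleModes, List.mem_singleton, List.not_mem_nil] at h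
    · subst h
      rintro ⟨x, y, hxy, hx, hy⟩
      rw [std_S] at hxy
      subst hxy
      exact hy (std_D.2 (hreach hr rfl (std_D.1 hx)))
    · subst h
      rintro ⟨x, y, hxy, hx, hy⟩
      rw [std_S] at hxy
      subst hxy
      exact hx (std_D.2 (hreach hr rfl (std_D.1 hy)))
    · subst h
      rintro ⟨x, y, hxy, hx, hy, hy'⟩
      rw [std_S] at hxy
      subst hxy
      exact hy' (std_D.2 (hreach hr ⟨⟨_, rfl⟩, rfl⟩ (std_D.1 hy)))
  · rintro ⟨x, y, hxy, hx, hy⟩
    rw [std_S] at hxy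
    subst hxy
    apply hy
    show _ ∈ (std R q₀ n).con (cZ k)
    rw [std_Z]
    have hx : x ∈ (std R q₀ n).con (cZ k) := hx
    rw [std_Z] at hx
    simp only [psh]
    rw [Function.update_of_ne (Ne.symm hk)]
    exact hx
  · rintro ⟨x, y, y', hxy, hxy', hne⟩
    rw [std_S] at hxy hxy'
    exact hne (hxy.trans hxy'.symm)
  · rintro ⟨x, y, z, y', z', h1, h2, h3, h4, hne⟩
    rw [std_S] at h1 h2 h3 h4
    apply hne
    rw [h2, h4, h1, h3, psh_comm hp]

end std

/-- errors are determined by the fixed names and the roles for pushing. -/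
theorem err_congr {I J : Interp Δ} {md : Mode} (hS : ∀ k a, J.rol (rS k a) = I.rol (rS k a))
    (hl : md.Loc (fun A => I.con A = J.con A)) (h : Err J md) : Err I md := by
  cases md with
  | edge k a A B =>
    have hA := hl.1.sem_eq (fun _ h => h)
    have hB := hl.2.sem_eq (fun _ h => h)
    obtain ⟨x, y, h1, h2, h3⟩ := h
    rw [hS] at h1
    rw [← hA] at h2
    rw [← hB] at h3
    exact ⟨x, y, h1, h2, h3⟩
  | func k a =>
    obtain ⟨x, y, y', h1, h2, h3⟩ := h
    rw [hS] at h1 h2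
    exact ⟨x, y, y', h1, h2, h3⟩
  | comm k a k' a' =>
    obtain ⟨x, y, z, y', z', h1, h2, h3, h4, h5⟩ := h
    rw [hS] at h1 h2 h3 h4
    exact ⟨x, y, z, y', z', h1, h2, h3, h4, h5⟩

theorem Mode.Loc.mono {P P' : ℕ → Prop} (hP : ∀ A, P A → P' A) {md : Mode} (h : md.Loc P) :
    md.Loc P' := by
  have hmono : ∀ C : Concept, C.Loc P → C.Loc P' := by
    intro C
    induction C with
    | bot => exact fun h => h
    | atom A => exact fun h => hP _ h
    | ex R => exact fun h => h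
    | neg C ih => exact ih
    | and C D ih1 ih2 => exact fun h => ⟨ih1 h.1, ih2 h.2⟩
  cases md with
  | edge k a A B => exact ⟨hmono _ h.1, hmono _ h.2⟩
  | func k a => trivial
  | comm k a k' a' => trivial

theorem satisfiable_of_not_reach {R : List (ℕ × Op × ℕ)} {q₀ qh n : ℕ}
    (h : ¬ ∃ T, Reach R (q₀, stk0 (trList [n])) (qh, T)) :
    (inp R q₀ qh (ab q₀ n)).Satisfiable := by
  refine ⟨Stk, std R q₀ n, ⟨⟨?_, ?_, ?_⟩, ?_⟩, stk0 [], Or.inl rfl⟩
  · show ∀ α ∈ tb R qh, α.Holds (std R q₀ n)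
    rw [holds_tb]
    refine ⟨?_, fun x => Or.inl (Or.inl rfl), fun k a x => ⟨psh k a x, std_S.2 rfl⟩, ?_, ?_⟩
    · ext S
      rw [std_D]
      simp only [Set.mem_empty_iff_false, iff_false]
      exact fun hS => h ⟨S, hS⟩
    · rintro ⟨q, op, q'⟩ hr
      cases op with
      | push k a => simp [ruleAx]
      | pop k a => simp [ruleAx]
      | peek k a => simp [ruleAx]
      | empty k =>
        simp only [ruleAx, List.mem_singleton, forall_eq]
        rintro x ⟨hx, hx'⟩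
        exact std_D.2 ((std_D.1 hx).tail ⟨_, hr, rfl, rfl, std_Z.1 hx', rfl⟩)
      | nop =>
        simp only [ruleAx, List.mem_singleton, forall_eq]
        rintro x hx
        exact std_D.2 ((std_D.1 hx).tail ⟨_, hr, rfl, rfl, rfl⟩)
    · intro m md _
      exact holds_of_empty md (std_E m) (std_R m)
  · show ∀ α ∈ ab q₀ n, α.Holds (std R q₀ n)
    rw [holds_ab]
    refine ⟨std_D.2 ReflTransGen.refl, std_S.2 node_one, fun k => std_Z.2 ?_,
      fun v _ => std_S.2 (node_succ v)⟩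
    show stk0 [] k = []
    cases k <;> rfl
  · exact node_inj.injOn
  · rintro J ⟨hT, -, -⟩ ⟨hind, hfix, hmin, p, hp, ⟨hle, hne⟩, -⟩
    have hT : ∀ α ∈ tb R qh, α.Holds J := hT
    rw [holds_tb] at hT
    obtain ⟨-, h2, h3, -, h5⟩ := hT
    have hle' : ∀ p ∈ (inp R q₀ qh (ab q₀ n)).minimized, p.Le J (std R q₀ n) := by
      intro p hp
      by_contra hcon
      obtain ⟨q, _, hq, _⟩ := hmin p hp hcon
      simp [inp] at hq
    have hS : ∀ k a, J.rol (rS k a) = (std R q₀ n).rol (rS k a) := by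
      intro k a
      have hle1 : J.rol (rS k a) ⊆ (std R q₀ n).rol (rS k a) :=
        hle' (.rol (rS k a)) (by
          simp only [inp, List.mem_cons, List.mem_map]
          exact Or.inr ⟨(k, a), mem_prs _, rfl⟩)
      refine Set.Subset.antisymm hle1 ?_
      rintro ⟨x, y⟩ hxy
      obtain ⟨y', hy'⟩ := h3 k a x
      have h6 := std_S.1 (hle1 hy')
      have h7 := std_S.1 hxy
      rw [h7, ← h6]
      exact hy'
    simp only [inp, List.mem_cons, List.mem_map] at hp
    rcases hp with rfl | ⟨p, _, rfl⟩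
    · have : ∃ x, x ∉ J.con cOk := by
        by_contra hcon
        push Not at hcon
        apply hne
        show J.con cOk = (std R q₀ n).con cOk
        ext x
        exact ⟨fun _ => Or.inl rfl, fun _ => hcon x⟩
      obtain ⟨x, hx⟩ := this
      obtain ⟨m, hm, y, hy⟩ := (h2 x).resolve_left hx
      obtain ⟨md, hmd⟩ : ∃ md, (modes R)[m]? = some md := ⟨_, List.getElem?_eq_getElem hm⟩
      have hmd' : md ∈ modes R := List.mem_of_getElem? hmd
      have herr := err_of_holds (h5 m md hmd) hy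
      refine std_noerr (n := n) (q₀ := q₀) hmd' (err_congr hS ?_ herr)
      refine (modes_loc (q₀ := q₀) (qh := qh) hmd').mono fun A hA => ?_
      exact (hfix _ hA.mem).symm
    · exact hne (hS p.1 p.2)

end QR

end Pool.Agent.Lib.MP_9ab704_lc
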